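import Pool.Agent.Helper21.DP.Roots

/-!
# Second part of the path: values of the pivots
-/

set_option autoImplicit false

namespace Pool.Agent.Helper21.DP

open Finset
open Pool.Agent.Helper22.ETModel Pool.Agent.Helper22.TSModel Pool.Agent.Helper22.EP
open Pool.Agent.Helper23.SP (pre sg)
open Pool.Agent.Helper8.ZT
open Pool.Agent.Helper21.DS (mt putd DProc Lam strc vl wg gam rp vid cove)

variable {m n q k b Z M N d : ℕ} [NeZero b]

/-- Marks and values together. -/
private def count_2_z (G : E m → Bool) (ζ : E m → Fin Z) : E m → Bool × Fin Z :=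
  fun e => (G e, ζ e)

private lemma count_2_mk (G : E m → Bool) (ζ : E m → Fin Z) :
    mk (count_2_z G ζ) = G := rfl

/-- The real values of the elements that are not deleted. -/
private lemma count_2_vl (L Y Q : ℕ) (dg : E m → Fin k → Fin b)
    (uν : (Fin k → (Fin k → Fin b) → Fin M) × (E m → Fin (N + 1))) (G : E m → Bool)
    (ζ ζ' : E m → Fin Z) (τ : E m → ℤ) (e : E m) (he : G e = false) :
    vl L Y Q dg (count_2_z G ζ, uν) τ e = vl L Y Q dg (count_2_z G ζ', uν) τ e := by
  unfold vl count_2_z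
  simp only [he, Bool.false_eq_true, if_false]

/-- The values seen by the forms. -/
private lemma count_2_xv (L Y Q : ℕ) (S T : Finset (E m)) (dg : E m → Fin k → Fin b)
    (uν : (Fin k → (Fin k → Fin b) → Fin M) × (E m → Fin (N + 1))) (G : E m → Bool)
    (ζ ζ' : E m → Fin Z) (τ : E m → ℤ) (e : E m) (he : G e = true → ζ e = ζ' e) :
    xv L Y Q S T dg (count_2_z G ζ, uν) τ e = xv L Y Q S T dg (count_2_z G ζ', uν) τ e := by
  unfold xv
  by_cases hG : G e = true
  · have h1 : (count_2_z G ζ e) = (count_2_z G ζ' e) := by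
      unfold count_2_z
      rw [he hG]
    have h3 : (count_2_z G ζ' e).1 = true := hG
    simp only [h1, h3, if_true]
  · have hG' : G e = false := by simpa using hG
    have h1 : ((count_2_z G ζ e).1 = true) = False := by
      simp [count_2_z, hG']
    have h2 : ((count_2_z G ζ' e).1 = true) = False := by
      simp [count_2_z, hG']
    simp only [h1, h2, if_false, count_2_vl L Y Q dg uν G ζ ζ' τ e hG']
    rfl

/-- The values of the forms as functions of the value of one deleted element. -/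
private lemma count_2_vp (L Y Q : ℕ) (c : Fin q → ℝ) (γ : E m → Fin q → ℝ)
    (dg : E m → Fin k → Fin b)
    (uν : (Fin k → (Fin k → Fin b) → Fin M) × (E m → Fin (N + 1))) (G : E m → Bool)
    (ζ : E m → Fin Z) (τ : E m → ℤ) (P : Finset (E m)) (p : E m) (hp : G p = true) (t : Fin Z)
    (j : Fin q) :
    vp L Y Q c γ dg (count_2_z G (Function.update ζ p t), uν) τ P j =
      (vp L Y Q c γ dg (count_2_z G ζ, uν) τ P j - ((ζ p : ℕ) : ℝ) * ((Q : ℝ) * γ p j)) +
        ((t : ℕ) : ℝ) * ((Q : ℝ) * γ p j) := by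
  unfold vp
  have hmk : ∀ ζ' : E m → Fin Z, mk ((count_2_z G ζ', uν) : Lam m k b Z M N).1 = G :=
    fun _ => rfl
  simp only [hmk]
  -- the part of the pivots does not change
  have hz : ∀ p' : E m, zt γ G
      (fun e => (vl L Y Q dg (count_2_z G (Function.update ζ p t), uν) τ e : ℝ)) p' =
      zt γ G (fun e => (vl L Y Q dg (count_2_z G ζ, uν) τ e : ℝ)) p' := by
    intro p'
    unfold zt
    refine sum_congr rfl fun e he => ?_
    rw [mem_filter] at he
    have h := count_2_vl L Y Q dg uν G (Function.update ζ p t) ζ τ e he.2.1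
    simp only [h]
  simp only [hz]
  -- the difference of the values of the forms
  have hx : fv c γ (xv L Y Q (look γ G) (look γ G) dg
        (count_2_z G (Function.update ζ p t), uν) τ) j -
      fv c γ (xv L Y Q (look γ G) (look γ G) dg (count_2_z G ζ, uν) τ) j =
      γ p j * ((Q : ℝ) * ((t : ℕ) : ℝ) - (Q : ℝ) * ((ζ p : ℕ) : ℝ)) := by
    unfold fv
    rw [add_sub_add_left_eq_sub, ← sum_sub_distrib, sum_eq_single p]
    · unfold xv
      have h1 : ∀ ζ' : E m → Fin Z, ((count_2_z G ζ' p).1 = true) = True := by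
        intro ζ'
        simp [count_2_z, hp]
      have h2 : ∀ ζ' : E m → Fin Z, (count_2_z G ζ' p).2 = ζ' p := fun _ => rfl
      simp only [h1, if_true, h2, Function.update_self]
      ring
    · intro e _ hne
      rw [count_2_xv L Y Q (look γ G) (look γ G) dg uν G (Function.update ζ p t) ζ τ e
        (fun _ => Function.update_of_ne hne _ _), sub_self]
    · intro h
      exact absurd (mem_univ p) h
  linear_combination hx

/-- The possible last digits, indexed. -/
private noncomputable def count_2_τ (ν : E m → Fin (N + 1)) :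
    Option (Fin m × Fin m × Fin m) → E m → ℤ
  | none => tinyN ν
  | some x => tinyQ ν (0, x.1, x.2.1) (1, x.2.1, x.2.2)

open Classical in
/-- One function `τ` and one pivot. -/
private lemma count_2_one (L Y Q : ℕ) (g : MvPolynomial (Fin q) ℝ) (hg : g.totalDegree ≤ d)
    (c : Fin q → ℝ) (γ : E m → Fin q → ℝ) (dg : E m → Fin k → Fin b)
    (uν : (Fin k → (Fin k → Fin b) → Fin M) × (E m → Fin (N + 1))) (G : E m → Bool)
    (τ : E m → ℤ) (P : Finset (E m)) (p : E m) (hp : G p = true) :
    (univ.filter fun ζ : E m → Fin Z => ∃ η : ℝ, |η| ≤ 1 / 2 ∧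
      sgn g (fun j => vp L Y Q c γ dg (count_2_z G ζ, uν) τ P j + η * (Q : ℝ) * γ p j) ≠
        sgn g (vp L Y Q c γ dg (count_2_z G ζ, uν) τ P)).card * Z ≤
      2 * d * Fintype.card (E m → Fin Z) := by
  have h := card_resample (α := E m) (β := Fin Z) p (fun ζ : E m → Fin Z => ∃ η : ℝ, |η| ≤ 1 / 2 ∧
      sgn g (fun j => vp L Y Q c γ dg (count_2_z G ζ, uν) τ P j + η * (Q : ℝ) * γ p j) ≠
        sgn g (vp L Y Q c γ dg (count_2_z G ζ, uν) τ P)) (2 * d) (fun ζ => by
    refine (card_le_card ?_).trans (near_roots (M := Z) g hg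
      (fun j => vp L Y Q c γ dg (count_2_z G ζ, uν) τ P j - ((ζ p : ℕ) : ℝ) * ((Q : ℝ) * γ p j))
      (fun j => (Q : ℝ) * γ p j))
    intro t ht
    rw [mem_filter] at ht ⊢
    obtain ⟨η, hη, hne⟩ := ht.2
    refine ⟨mem_univ _, η, hη, ?_⟩
    have e1 : (fun j => vp L Y Q c γ dg (count_2_z G (Function.update ζ p t), uν) τ P j +
        η * (Q : ℝ) * γ p j) = fun j =>
        (vp L Y Q c γ dg (count_2_z G ζ, uν) τ P j - ((ζ p : ℕ) : ℝ) * ((Q : ℝ) * γ p j)) +
          (((t : ℕ) : ℝ) + η) * ((Q : ℝ) * γ p j) := by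
      funext j
      rw [count_2_vp L Y Q c γ dg uν G ζ τ P p hp t j]
      ring
    have e2 : vp L Y Q c γ dg (count_2_z G (Function.update ζ p t), uν) τ P = fun j =>
        (vp L Y Q c γ dg (count_2_z G ζ, uν) τ P j - ((ζ p : ℕ) : ℝ) * ((Q : ℝ) * γ p j)) +
          ((t : ℕ) : ℝ) * ((Q : ℝ) * γ p j) := by
      funext j
      exact count_2_vp L Y Q c γ dg uν G ζ τ P p hp t j
    rw [e1, e2] at hne
    exact hne)
  rw [Fintype.card_fin] at h
  exact h

open Classical in
/-- Fixed marks. -/
private lemma count_2_marks (L Y Q : ℕ) (g : MvPolynomial (Fin q) ℝ) (hg : g.totalDegree ≤ d)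
    (c : Fin q → ℝ) (γ : E m → Fin q → ℝ) (dg : E m → Fin k → Fin b)
    (uν : (Fin k → (Fin k → Fin b) → Fin M) × (E m → Fin (N + 1))) (G : E m → Bool) :
    (univ.filter fun ζ : E m → Fin Z =>
      ¬ Good2 L Y Q g c γ dg (count_2_z G ζ, uν)).card * Z ≤
      (m ^ 3 + 1) * q * (2 * d) * Fintype.card (E m → Fin Z) := by
  obtain ⟨B, hB⟩ : ∃ B : Option (Fin m × Fin m × Fin m) → E m → Finset (E m → Fin Z),
      B = fun o p => univ.filter fun ζ : E m → Fin Z => ∃ η : ℝ, |η| ≤ 1 / 2 ∧
      sgn g (fun j => vp L Y Q c γ dg (count_2_z G ζ, uν) (count_2_τ uν.2 o)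
          ((piv γ G).filter fun p' => idx p' < idx p) j + η * (Q : ℝ) * γ p j) ≠
        sgn g (vp L Y Q c γ dg (count_2_z G ζ, uν) (count_2_τ uν.2 o)
          ((piv γ G).filter fun p' => idx p' < idx p)) := ⟨_, rfl⟩
  have hsub : (univ.filter fun ζ : E m → Fin Z =>
      ¬ Good2 L Y Q g c γ dg (count_2_z G ζ, uν)) ⊆
      (univ : Finset (Option (Fin m × Fin m × Fin m))).biUnion fun o =>
        (piv γ G).biUnion fun p => B o p := by
    intro ζ hζ
    rw [mem_filter] at hζ
    have h1 := hζ.2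
    unfold Good2 at h1
    push Not at h1
    obtain ⟨τ, hτ, p, hp, η, hη, hne⟩ := h1
    have ho : ∃ o, τ = count_2_τ uν.2 o := by
      rcases hτ with h | ⟨i, j, l, h⟩
      · exact ⟨none, h⟩
      · exact ⟨some (i, j, l), h⟩
    obtain ⟨o, rfl⟩ := ho
    rw [mem_biUnion]
    refine ⟨o, mem_univ _, ?_⟩
    rw [mem_biUnion]
    refine ⟨p, hp, ?_⟩
    rw [hB, mem_filter]
    exact ⟨mem_univ _, η, hη, hne⟩
  have hone : ∀ o : Option (Fin m × Fin m × Fin m), ∀ p ∈ piv γ G,
      (B o p).card * Z ≤ 2 * d * Fintype.card (E m → Fin Z) := by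
    intro o p hp
    rw [hB]
    exact count_2_one L Y Q g hg c γ dg uν G (count_2_τ uν.2 o) _ p (piv_true γ G p hp)
  have hpiv : ∀ o : Option (Fin m × Fin m × Fin m),
      ((piv γ G).biUnion fun p => B o p).card * Z ≤
      q * (2 * d * Fintype.card (E m → Fin Z)) := by
    intro o
    calc ((piv γ G).biUnion fun p => B o p).card * Z
        ≤ (∑ p ∈ piv γ G, (B o p).card) * Z := Nat.mul_le_mul_right _ card_biUnion_le
      _ = ∑ p ∈ piv γ G, (B o p).card * Z := by rw [sum_mul]
      _ ≤ ∑ _p ∈ piv γ G, 2 * d * Fintype.card (E m → Fin Z) := sum_le_sum (hone o)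
      _ = (piv γ G).card * (2 * d * Fintype.card (E m → Fin Z)) := by
          rw [sum_const, smul_eq_mul]
      _ ≤ q * (2 * d * Fintype.card (E m → Fin Z)) := Nat.mul_le_mul_right _ (piv_card γ G)
  calc _ ≤ ((univ : Finset (Option (Fin m × Fin m × Fin m))).biUnion fun o =>
        (piv γ G).biUnion fun p => B o p).card * Z := Nat.mul_le_mul_right _ (card_le_card hsub)
    _ ≤ (∑ o : Option (Fin m × Fin m × Fin m), ((piv γ G).biUnion fun p => B o p).card) * Z :=
        Nat.mul_le_mul_right _ card_biUnion_le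
    _ = ∑ o : Option (Fin m × Fin m × Fin m), ((piv γ G).biUnion fun p => B o p).card * Z := by
        rw [sum_mul]
    _ ≤ ∑ _o : Option (Fin m × Fin m × Fin m), q * (2 * d * Fintype.card (E m → Fin Z)) :=
        sum_le_sum fun o _ => hpiv o
    _ = (m ^ 3 + 1) * q * (2 * d) * Fintype.card (E m → Fin Z) := by
        rw [sum_const, card_univ, smul_eq_mul, Fintype.card_option, Fintype.card_prod,
          Fintype.card_prod, Fintype.card_fin]
        ring

open Classical in
/-- Fix the marks (`E m → Bool × Fin Z` is `(E m → Bool) × (E m → Fin Z)`); then `look`, `piv`, `cf` are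
fixed. Union over the at most `m ^ 3 + 1` functions `τ` with `isT ν τ` and the at most `q` pivots
`p`: resample the value of `p`. The real values `vl` of the elements that are not deleted, `rp`, and
the values of the other deleted elements do not depend on it, and `p` is deleted (`piv_true`), so the
values of the forms are `V + t * Q * γ p`: `near_roots`, `card_resample`. -/
theorem count_2 (L Y Q : ℕ) (g : MvPolynomial (Fin q) ℝ) (hg : g.totalDegree ≤ d)
    (c : Fin q → ℝ) (γ : E m → Fin q → ℝ) (dg : E m → Fin k → Fin b)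
    (uν : (Fin k → (Fin k → Fin b) → Fin M) × (E m → Fin (N + 1))) :
    (univ.filter fun z : E m → Bool × Fin Z =>
      ¬ Good2 L Y Q g c γ dg (z, uν)).card * Z ≤
      (m ^ 3 + 1) * q * (2 * d) * Fintype.card (E m → Bool × Fin Z) := by
  have h1 : (univ.filter fun z : E m → Bool × Fin Z => ¬ Good2 L Y Q g c γ dg (z, uν)).card ≤
      ∑ G : E m → Bool, (univ.filter fun ζ : E m → Fin Z =>
        ¬ Good2 L Y Q g c γ dg (count_2_z G ζ, uν)).card := by
    rw [← card_sigma]
    refine card_le_card_of_injOn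
      (fun z => (⟨fun e => (z e).1, fun e => (z e).2⟩ : Σ _ : (E m → Bool), (E m → Fin Z))) ?_ ?_
    · intro z hz
      rw [mem_coe, mem_filter] at hz
      rw [mem_coe, mem_sigma]
      refine ⟨mem_univ _, ?_⟩
      rw [mem_filter]
      exact ⟨mem_univ _, hz.2⟩
    · intro z _ z' _ h
      simp only [Sigma.mk.injEq, heq_eq_eq] at h
      funext e
      exact Prod.ext (congrFun h.1 e) (congrFun h.2 e)
  have h2 : Fintype.card (E m → Bool × Fin Z) =
      Fintype.card (E m → Bool) * Fintype.card (E m → Fin Z) := by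
    rw [Fintype.card_fun, Fintype.card_fun, Fintype.card_fun, Fintype.card_prod, mul_pow]
  calc _ ≤ (∑ G : E m → Bool, (univ.filter fun ζ : E m → Fin Z =>
        ¬ Good2 L Y Q g c γ dg (count_2_z G ζ, uν)).card) * Z := Nat.mul_le_mul_right _ h1
    _ = ∑ G : E m → Bool, (univ.filter fun ζ : E m → Fin Z =>
        ¬ Good2 L Y Q g c γ dg (count_2_z G ζ, uν)).card * Z := by rw [sum_mul]
    _ ≤ ∑ _G : E m → Bool, (m ^ 3 + 1) * q * (2 * d) * Fintype.card (E m → Fin Z) :=
        sum_le_sum fun G _ => count_2_marks L Y Q g hg c γ dg uν G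
    _ = (m ^ 3 + 1) * q * (2 * d) * Fintype.card (E m → Bool × Fin Z) := by
        rw [sum_const, card_univ, smul_eq_mul, h2]
        ring

end Pool.Agent.Helper21.DP
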