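import Pool.Agent.Helper21.DP.CountA
import Pool.Agent.Helper21.DP.CountB
import Pool.Agent.Helper21.DS.CountZero

/-!
# All queries are good with large probability
-/

set_option autoImplicit false

namespace Pool.Agent.Helper21.DP

open Finset
open Pool.Agent.Helper22.ETModel Pool.Agent.Helper22.TSModel Pool.Agent.Helper22.EP
open Pool.Agent.Helper23.SP (pre sg)
open Pool.Agent.Helper8.ZT
open Pool.Agent.Helper21.DS (mt putd DProc Lam strc vl wg gam rp vid cove)

variable {m n q k b Z M N d D W R : ℕ} [NeZero b]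

/-- Counting fibre by fibre. -/
private lemma badAll_card_fib {Ω α β : Type} [Fintype Ω] [Fintype α] [Fintype β] (e : α × β ≃ Ω)
    (P : Ω → Prop) [DecidablePred P] (C : ℕ)
    (h : ∀ a, C * (univ.filter fun b => P (e (a, b))).card ≤ Fintype.card β) :
    C * (univ.filter P).card ≤ Fintype.card Ω := by
  classical
  have h1 : (univ.filter P).card = ∑ a : α, (univ.filter fun b => P (e (a, b))).card := by
    rw [card_filter, ← Equiv.sum_comp e, Fintype.sum_prod_type]
    refine sum_congr rfl fun a _ => ?_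
    rw [card_filter]
  rw [h1, mul_sum, ← Fintype.card_congr e, Fintype.card_prod, ← smul_eq_mul (Fintype.card α),
    ← card_univ (α := α), ← sum_const]
  exact sum_le_sum fun a _ => h a

private lemma badAll_card_cancel {C G X V T : ℕ} (h : C * G ≤ V) (hX : X * V ≤ G * T)
    (hV : 0 < V) : C * X ≤ T := by
  rcases Nat.eq_zero_or_pos G with hG | hG
  · rw [hG, zero_mul] at hX
    have h1 := Nat.eq_zero_of_le_zero hX
    rcases Nat.mul_eq_zero.1 h1 with h2 | h2
    · rw [h2, mul_zero]
      exact Nat.zero_le _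
    · omega
  · have h2 : G * (C * X) ≤ G * T := by
      calc G * (C * X) = X * (C * G) := by ring
        _ ≤ X * V := Nat.mul_le_mul_left _ h
        _ ≤ G * T := hX
    exact Nat.le_of_mul_le_mul_left h2 hG

/-- The random data, with the values of the deleted elements last. -/
private def badAll_card_eqZ (m k b Z M N : ℕ) :
    ((E m → Fin k → Fin b) × ((Fin k → (Fin k → Fin b) → Fin M) × (E m → Fin (N + 1)))) ×
      (E m → Bool × Fin Z) ≃ (E m → Fin k → Fin b) × Lam m k b Z M N where
  toFun x := (x.1.1, x.2, x.1.2)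
  invFun ω := ((ω.1, ω.2.2), ω.2.1)
  left_inv _ := rfl
  right_inv _ := rfl

/-- The random data, with the masks last. -/
private def badAll_card_eqU (m k b Z M N : ℕ) :
    ((E m → Fin k → Fin b) × ((E m → Bool × Fin Z) × (E m → Fin (N + 1)))) ×
      (Fin k → (Fin k → Fin b) → Fin M) ≃ (E m → Fin k → Fin b) × Lam m k b Z M N where
  toFun x := (x.1.1, x.1.2.1, x.2, x.1.2.2)
  invFun ω := ((ω.1, ω.2.1, ω.2.2.2), ω.2.2.1)
  left_inv _ := rfl
  right_inv _ := rfl

/-- The random data, with the noise last. -/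
private def badAll_card_eqN (m k b Z M N : ℕ) :
    ((E m → Fin k → Fin b) × ((E m → Bool × Fin Z) × (Fin k → (Fin k → Fin b) → Fin M))) ×
      (E m → Fin (N + 1)) ≃ (E m → Fin k → Fin b) × Lam m k b Z M N where
  toFun x := (x.1.1, x.1.2.1, x.1.2.2, x.2)
  invFun ω := ((ω.1, ω.2.1, ω.2.2.1), ω.2.2.2)
  left_inv _ := rfl
  right_inv _ := rfl

open Classical in
/-- The three kinds of bad events of a sign query. -/
private lemma badAll_card_sign (h : 3 * m ≤ n) {C J s L Y Q : ℕ} (hJ : q * J ≤ s)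
    (h1 : C * (2 ^ q - 1) ^ J ≤ (2 ^ q) ^ J) (h2 : C * ((m ^ 3 + 1) * q * (2 * d)) ≤ Z)
    (h3 : C * (4 * s * d) ≤ M) (hZ : 1 ≤ Z) (hM : 1 ≤ M)
    (g : MvPolynomial (Fin q) ℝ) (hg : g.totalDegree ≤ d) (F : Fin q → Form n) :
    C * (univ.filter fun ω : (E m → Fin k → Fin b) × Lam m k b Z M N =>
      ¬ GoodQ h s L Y Q ω.1 ω.2 (PolyQ.sign g hg F : PolyQ n q d)).card ≤
      3 * Fintype.card ((E m → Fin k → Fin b) × Lam m k b Z M N) := by
  set γ : E m → Fin q → ℝ := gv h F with hγ
  set c : Fin q → ℝ := fun i => (F i).cst with hc0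
  set P1 : (E m → Fin k → Fin b) × Lam m k b Z M N → Prop :=
    fun ω => s < (look γ (mk ω.2.1)).card with hP1
  set P2 : (E m → Fin k → Fin b) × Lam m k b Z M N → Prop :=
    fun ω => ¬ Good2 L Y Q g c γ ω.1 ω.2 with hP2
  set P3 : (E m → Fin k → Fin b) × Lam m k b Z M N → Prop :=
    fun ω => (look γ (mk ω.2.1)).card ≤ s ∧
      ¬ Good1 L Y Q g c γ (look γ (mk ω.2.1)) ω.1 ω.2 with hP3
  have hsub : (univ.filter fun ω : (E m → Fin k → Fin b) × Lam m k b Z M N =>
      ¬ GoodQ h s L Y Q ω.1 ω.2 (PolyQ.sign g hg F : PolyQ n q d)) ⊆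
      univ.filter P1 ∪ (univ.filter P2 ∪ univ.filter P3) := by
    intro ω hω
    rw [mem_filter] at hω
    have hω' : ¬ ((look γ (mk ω.2.1)).card ≤ s ∧
        Good1 L Y Q g c γ (look γ (mk ω.2.1)) ω.1 ω.2 ∧ Good2 L Y Q g c γ ω.1 ω.2) := hω.2
    rw [mem_union, mem_union, mem_filter, mem_filter, mem_filter]
    by_cases hc : (look γ (mk ω.2.1)).card ≤ s
    · right
      by_cases hg2 : Good2 L Y Q g c γ ω.1 ω.2
      · right
        exact ⟨mem_univ _, hc, fun hg1 => hω' ⟨hc, hg1, hg2⟩⟩
      · left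
        exact ⟨mem_univ _, hg2⟩
    · left
      exact ⟨mem_univ _, by show s < _; omega⟩
  have b1 : C * (univ.filter P1).card ≤
      Fintype.card ((E m → Fin k → Fin b) × Lam m k b Z M N) := by
    refine badAll_card_fib (badAll_card_eqZ m k b Z M N) P1 C fun x => ?_
    have hh := count_look (Z := Z) γ J
    refine badAll_card_cancel h1 (le_trans (Nat.mul_le_mul_right _ (card_le_card ?_)) hh)
      (by positivity)
    intro z hz
    rw [mem_filter] at hz ⊢
    exact ⟨mem_univ _, lt_of_le_of_lt hJ hz.2⟩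
  have b2 : C * (univ.filter P2).card ≤
      Fintype.card ((E m → Fin k → Fin b) × Lam m k b Z M N) := by
    refine badAll_card_fib (badAll_card_eqZ m k b Z M N) P2 C fun x => ?_
    have hh := count_2 (Z := Z) L Y Q g hg c γ x.1 x.2
    refine badAll_card_cancel h2 (le_trans (Nat.mul_le_mul_right _ (card_le_card ?_)) hh)
      (by omega)
    intro z hz
    rw [mem_filter] at hz ⊢
    exact ⟨mem_univ _, hz.2⟩
  have b3 : C * (univ.filter P3).card ≤
      Fintype.card ((E m → Fin k → Fin b) × Lam m k b Z M N) := by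
    refine badAll_card_fib (badAll_card_eqU m k b Z M N) P3 C fun x => ?_
    by_cases hc : (look γ (mk x.2.1)).card ≤ s
    · have hh := count_1 (M := M) L Y Q g hg c γ (look γ (mk x.2.1)) hc x.1 x.2.1
        (fun e he => look_false γ (mk x.2.1) e he) x.2.2
      refine badAll_card_cancel h3 (le_trans (Nat.mul_le_mul_right _ (card_le_card ?_)) hh)
        (by omega)
      intro u hu
      rw [mem_filter] at hu ⊢
      exact ⟨mem_univ _, hu.2.2⟩
    · have e1 : (univ.filter fun u => P3 (badAll_card_eqU m k b Z M N (x, u))) = ∅ := by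
        rw [filter_eq_empty_iff]
        intro u _ hu
        exact hc hu.1
      rw [e1, card_empty, mul_zero]
      exact Nat.zero_le _
  have hc1 := card_le_card hsub
  have hc2 := card_union_le (univ.filter P1) (univ.filter P2 ∪ univ.filter P3)
  have hc3 := card_union_le (univ.filter P2) (univ.filter P3)
  calc C * _ ≤ C * ((univ.filter P1).card + ((univ.filter P2).card + (univ.filter P3).card)) :=
        Nat.mul_le_mul_left _ (by omega)
    _ = C * (univ.filter P1).card + (C * (univ.filter P2).card + C * (univ.filter P3).card) := by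
        ring
    _ ≤ _ := by omega

open Classical in
/-- Zero tests. -/
private lemma badAll_card_zero (h : 3 * m ≤ n) {C s L Y Q : ℕ}
    (h4 : C * ((1 + m ^ 3) * (3 * m ^ 2 * d)) ≤ N + 1)
    (f : MvPolynomial (Fin n × Fin n) ℝ) (hf : f.totalDegree ≤ d) :
    C * (univ.filter fun ω : (E m → Fin k → Fin b) × Lam m k b Z M N =>
      ¬ GoodQ h s L Y Q ω.1 ω.2 (PolyQ.zero f hf : PolyQ n q d)).card ≤
      Fintype.card ((E m → Fin k → Fin b) × Lam m k b Z M N) := by
  refine badAll_card_fib (badAll_card_eqN m k b Z M N) _ C fun x => ?_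
  have hh := Pool.Agent.Helper21.DS.count_zero (N := N) h f hf L Y Q x.1 x.2.1 x.2.2
  refine badAll_card_cancel h4 (le_trans (Nat.mul_le_mul_right _ (card_le_card ?_)) hh)
    (by omega)
  intro ν hν
  rw [mem_filter] at hν ⊢
  exact ⟨mem_univ _, hν.2⟩

/-- As `Pool.Agent.Helper21.DS.badAll_card` (`DS/Bad.lean`), with the union over the at most `NQ`
different queries (`HasPool`) in place of the union over the times and states: from `count_look` (with
`q * J ≤ s`), `count_1`, `count_2` and `DS.count_zero`. -/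
theorem badAll_card {NQ J s L Y Q : ℕ} (A : Alg n D W R (PolyQ n q d) SignType)
    (h : 3 * m ≤ n) (hP : HasPool A NQ) (hJ : q * J ≤ s)
    (h1 : 192 * NQ * (2 ^ q - 1) ^ J ≤ (2 ^ q) ^ J)
    (h2 : 192 * NQ * ((m ^ 3 + 1) * q * (2 * d)) ≤ Z)
    (h3 : 192 * NQ * (4 * s * d) ≤ M)
    (h4 : 192 * NQ * ((1 + m ^ 3) * (3 * m ^ 2 * d)) ≤ N + 1) (hZ : 1 ≤ Z) (hM : 1 ≤ M)
    (ρ : Fin R → Bool) :
    48 * (BadAll (k := k) (b := b) (Z := Z) (M := M) (N := N) A h s L Y Q ρ).card ≤
      Fintype.card ((E m → Fin k → Fin b) × Lam m k b Z M N) := by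
  classical
  obtain ⟨S, hS, hask⟩ := hP (flagOf h) ρ
  set T := Fintype.card ((E m → Fin k → Fin b) × Lam m k b Z M N) with hT
  set Bq : PolyQ n q d → Finset ((E m → Fin k → Fin b) × Lam m k b Z M N) := fun Qu =>
    univ.filter fun ω => ¬ GoodQ h s L Y Q ω.1 ω.2 Qu with hBq
  have hq : ∀ Qu, 48 * NQ * (Bq Qu).card ≤ T := by
    intro Qu
    have hq1 : 192 * NQ * (Bq Qu).card ≤ 3 * T := by
      cases Qu with
      | sign g hg F => exact badAll_card_sign h hJ h1 h2 h3 hZ hM g hg F
      | zero f hf =>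
        have := badAll_card_zero (q := q) (k := k) (b := b) (Z := Z) (M := M) (s := s) (L := L)
          (Y := Y) (Q := Q) h h4 f hf
        refine this.trans ?_
        omega
    have e1 : 192 * NQ * (Bq Qu).card = 4 * (48 * NQ * (Bq Qu).card) := by ring
    omega
  have hsub : BadAll (k := k) (b := b) (Z := Z) (M := M) (N := N) A h s L Y Q ρ ⊆
      S.biUnion Bq := by
    intro ω hω
    unfold BadAll at hω
    rw [mem_filter] at hω
    obtain ⟨-, t, ht, v, hv⟩ := hω
    rw [mem_biUnion]
    exact ⟨_, hask t v ht, mem_filter.2 ⟨mem_univ _, hv⟩⟩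
  have hc := (card_le_card hsub).trans card_biUnion_le
  rcases Nat.eq_zero_or_pos NQ with h0 | h0
  · have hr : S = ∅ := by
      rw [← card_eq_zero]
      omega
    rw [hr, sum_empty] at hc
    have : (BadAll (k := k) (b := b) (Z := Z) (M := M) (N := N) A h s L Y Q ρ).card = 0 := by
      omega
    rw [this, mul_zero]
    exact Nat.zero_le _
  · have h5 : 48 * NQ * ∑ Qu ∈ S, (Bq Qu).card ≤ NQ * T := by
      rw [mul_sum]
      refine (sum_le_sum fun Qu _ => hq Qu).trans ?_
      rw [sum_const, smul_eq_mul]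
      exact Nat.mul_le_mul_right _ hS
    have h6 : 48 * NQ *
        (BadAll (k := k) (b := b) (Z := Z) (M := M) (N := N) A h s L Y Q ρ).card ≤
        NQ * T := (Nat.mul_le_mul_left _ hc).trans h5
    have h7 : NQ *
        (48 * (BadAll (k := k) (b := b) (Z := Z) (M := M) (N := N) A h s L Y Q ρ).card) ≤
        NQ * T := by
      calc _ = 48 * NQ *
          (BadAll (k := k) (b := b) (Z := Z) (M := M) (N := N) A h s L Y Q ρ).card := by ring
        _ ≤ _ := h6
    exact Nat.le_of_mul_le_mul_left h7 h0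

end Pool.Agent.Helper21.DP
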