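import Mathlib

/-!
# Bases with bounded coefficients
-/

set_option autoImplicit false

namespace Pool.Agent.Helper21.DP

open Finset

variable {El : Type} [Fintype El] [DecidableEq El] {q : ℕ}

/-- Every vector of `R` is a combination of the vectors of `B` with coefficients at most `A` in
absolute value. -/
def Spans (γ : El → Fin q → ℝ) (A : ℝ) (B R : Finset El) : Prop :=
  ∀ e ∈ R, ∃ c : El → ℝ, (∀ b, |c b| ≤ A) ∧ ∀ i, γ e i = ∑ b ∈ B, c b * γ b i

/-- Every finite family of vectors in `ℝ ^ q` contains at most `q` vectors such that all others are
combinations of them with coefficients at most `q !`. Induction on `q` (for all `γ` and `R`): if the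
last coordinates of all `e ∈ R` are zero, use the first `q` coordinates. Otherwise choose `e1 ∈ R`
with the largest absolute value of the last coordinate, put `ρ e = γ e last / γ e1 last`, so
`|ρ e| ≤ 1`, and `γ' e i = γ e (castSucc i) - ρ e * γ e1 (castSucc i)`; the induction hypothesis for
`γ'` and `R.erase e1` gives `B'`; take `B = insert e1 B'`, with the coefficient
`ρ e - ∑ b ∈ B', c b * ρ b` of `e1`, which is at most `1 + q * q ! ≤ (q + 1) !`. -/
theorem exists_basis (γ : El → Fin q → ℝ) (R : Finset El) :
    ∃ B ⊆ R, B.card ≤ q ∧ Spans γ (q.factorial : ℝ) B R := by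
  induction q generalizing R with
  | zero =>
    refine ⟨∅, empty_subset _, by simp, ?_⟩
    intro e _
    exact ⟨fun _ => 0, fun b => by simp, fun i => i.elim0⟩
  | succ q ih =>
    have hfac : ((q + 1).factorial : ℝ) = q * q.factorial + q.factorial := by
      rw [Nat.factorial_succ]; push_cast; ring
    have hq0 : (0 : ℝ) ≤ q := Nat.cast_nonneg q
    have hf1 : (1 : ℝ) ≤ (q.factorial : ℝ) := by
      exact_mod_cast Nat.one_le_iff_ne_zero.mpr (Nat.factorial_ne_zero q)
    have hle : (q.factorial : ℝ) ≤ ((q + 1).factorial : ℝ) := by
      rw [hfac]; nlinarith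
    by_cases h0 : ∀ e ∈ R, γ e (Fin.last q) = 0
    · obtain ⟨B, hBR, hBc, hB⟩ := ih (fun e i => γ e (Fin.castSucc i)) R
      refine ⟨B, hBR, hBc.trans (Nat.le_succ q), ?_⟩
      intro e he
      obtain ⟨c, hc, hci⟩ := hB e he
      refine ⟨c, fun b => (hc b).trans hle, fun i => ?_⟩
      refine Fin.lastCases ?_ (fun j => hci j) i
      rw [h0 e he]
      refine (Finset.sum_eq_zero fun b hb => ?_).symm
      rw [h0 b (hBR hb), mul_zero]
    · push Not at h0
      obtain ⟨e0, he0, hne0⟩ := h0
      obtain ⟨e1, he1, hmax⟩ :=
        Finset.exists_max_image R (fun e => |γ e (Fin.last q)|) ⟨e0, he0⟩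
      have hne1 : γ e1 (Fin.last q) ≠ 0 := by
        have h1 : 0 < |γ e0 (Fin.last q)| := abs_pos.mpr hne0
        exact abs_pos.mp (lt_of_lt_of_le h1 (hmax e0 he0))
      set ρ : El → ℝ := fun e => γ e (Fin.last q) / γ e1 (Fin.last q) with hρ
      have hρ1 : ∀ e ∈ R, |ρ e| ≤ 1 := by
        intro e he
        rw [hρ]
        simp only [abs_div]
        exact (div_le_one (abs_pos.mpr hne1)).mpr (hmax e he)
      have hρl : ∀ e, γ e (Fin.last q) = ρ e * γ e1 (Fin.last q) := by
        intro e
        rw [hρ]
        field_simp
      obtain ⟨B, hBR, hBc, hB⟩ :=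
        ih (fun e i => γ e (Fin.castSucc i) - ρ e * γ e1 (Fin.castSucc i)) (R.erase e1)
      have he1B : e1 ∉ B := fun h => (Finset.mem_erase.mp (hBR h)).1 rfl
      have hBR' : ∀ b ∈ B, b ∈ R := fun b hb => (Finset.mem_erase.mp (hBR hb)).2
      refine ⟨insert e1 B, ?_, ?_, ?_⟩
      · intro b hb
        rcases Finset.mem_insert.mp hb with rfl | hb
        · exact he1
        · exact hBR' b hb
      · rw [Finset.card_insert_of_notMem he1B]
        omega
      · intro e he
        by_cases hee : e = e1
        · subst hee
          refine ⟨fun b => if b = e then 1 else 0, fun b => ?_, fun i => ?_⟩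
          · beta_reduce
            split_ifs
            · rw [abs_one]; exact hf1.trans hle
            · rw [abs_zero]; exact Nat.cast_nonneg _
          · rw [Finset.sum_insert he1B]
            simp only [if_true, one_mul]
            have h : ∑ b ∈ B, (if b = e then (1 : ℝ) else 0) * γ b i = 0 := by
              refine Finset.sum_eq_zero fun b hb => ?_
              have hbe : b ≠ e := fun hh => he1B (hh ▸ hb)
              rw [if_neg hbe, zero_mul]
            rw [h, add_zero]
        · obtain ⟨c, hc, hci⟩ := hB e (Finset.mem_erase.mpr ⟨hee, he⟩)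
          refine ⟨fun b => if b = e1 then ρ e - ∑ b ∈ B, c b * ρ b else c b, fun b => ?_,
            fun i => ?_⟩
          · beta_reduce
            split_ifs
            · have h1 : |∑ b ∈ B, c b * ρ b| ≤ q * q.factorial := by
                refine (Finset.abs_sum_le_sum_abs _ _).trans ?_
                have h2 : ∑ b ∈ B, |c b * ρ b| ≤ ∑ _b ∈ B, (q.factorial : ℝ) := by
                  refine Finset.sum_le_sum fun b hb => ?_
                  rw [abs_mul]
                  have h3 := hc b
                  have h4 := hρ1 b (hBR' b hb)
                  have h5 := abs_nonneg (c b)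
                  have h6 := abs_nonneg (ρ b)
                  nlinarith
                refine h2.trans ?_
                rw [Finset.sum_const, nsmul_eq_mul]
                have h7 : (B.card : ℝ) ≤ q := by exact_mod_cast hBc
                exact mul_le_mul_of_nonneg_right h7 (by linarith)
              have h8 := hρ1 e he
              have h9 := abs_sub (ρ e) (∑ b ∈ B, c b * ρ b)
              rw [hfac]
              linarith
            · exact (hc b).trans hle
          · rw [Finset.sum_insert he1B]
            simp only [if_true]
            have h : ∑ b ∈ B, (if b = e1 then ρ e - ∑ b ∈ B, c b * ρ b else c b) * γ b i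
                = ∑ b ∈ B, c b * γ b i := by
              refine Finset.sum_congr rfl fun b hb => ?_
              have hbe : b ≠ e1 := fun hh => he1B (hh ▸ hb)
              rw [if_neg hbe]
            rw [h]
            refine Fin.lastCases ?_ (fun j => ?_) i
            · rw [hρl e]
              have h1 : ∑ b ∈ B, c b * γ b (Fin.last q)
                  = (∑ b ∈ B, c b * ρ b) * γ e1 (Fin.last q) := by
                rw [Finset.sum_mul]
                refine Finset.sum_congr rfl fun b _ => ?_
                rw [hρl b]; ring
              rw [h1]; ring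
            · have h1 := hci j
              have h2 : ∑ b ∈ B, c b * (γ b (Fin.castSucc j) - ρ b * γ e1 (Fin.castSucc j))
                  = ∑ b ∈ B, c b * γ b (Fin.castSucc j)
                    - (∑ b ∈ B, c b * ρ b) * γ e1 (Fin.castSucc j) := by
                rw [Finset.sum_mul, ← Finset.sum_sub_distrib]
                refine Finset.sum_congr rfl fun b _ => ?_
                ring
              simp only at h1
              rw [h2] at h1
              linarith

end Pool.Agent.Helper21.DP
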