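import Pool.Agent.Helper21.DP.Roots
import Pool.Agent.Helper21.DS.Mt

/-!
# First part of the path: masks
-/

set_option autoImplicit false

namespace Pool.Agent.Helper21.DP

open Finset
open Pool.Agent.Helper22.ETModel Pool.Agent.Helper22.TSModel Pool.Agent.Helper22.EP
open Pool.Agent.Helper23.SP (pre sg)
open Pool.Agent.Helper8.ZT
open Pool.Agent.Helper21.DS (mt putd DProc Lam strc vl wg gam rp vid cove)

variable {m n q k b Z M N d : ℕ} [NeZero b]

/-- Resampling one value of a table. -/
private lemma count_1_card (i : Fin k) (cell : Fin k → Fin b)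
    (P : (Fin k → (Fin k → Fin b) → Fin M) → Prop) [DecidablePred P] (C : ℕ)
    (h : ∀ u : Fin k → (Fin k → Fin b) → Fin M, (univ.filter fun t : Fin M =>
      P (Function.update u i (Function.update (u i) cell t))).card ≤ C) :
    (univ.filter P).card * M ≤ C * Fintype.card (Fin k → (Fin k → Fin b) → Fin M) := by
  have h1 : (univ.filter P).card * M =
      ((univ.filter P) ×ˢ (univ : Finset (Fin M))).card := by
    rw [card_product, card_univ, Fintype.card_fin]
  have h2 : ((univ.filter P) ×ˢ (univ : Finset (Fin M))).card ≤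
      ((univ : Finset (Fin k → (Fin k → Fin b) → Fin M)).sigma fun u =>
        univ.filter fun t : Fin M =>
          P (Function.update u i (Function.update (u i) cell t))).card := by
    refine card_le_card_of_injOn
      (fun w => (⟨Function.update w.1 i (Function.update (w.1 i) cell w.2), w.1 i cell⟩ :
        Σ _ : (Fin k → (Fin k → Fin b) → Fin M), Fin M)) ?_ ?_
    · rintro ⟨v, t⟩ hv
      simp only [coe_product, Set.mem_prod, mem_coe, mem_filter, mem_univ, true_and, and_true] at hv
      simp only [mem_coe, mem_sigma, mem_univ, true_and, mem_filter, Function.update_self,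
        Function.update_idem, Function.update_eq_self]
      exact hv
    · rintro ⟨v, t⟩ _ ⟨v', t'⟩ _ heq
      simp only [Sigma.mk.injEq] at heq
      obtain ⟨h3, h4⟩ := heq
      have h4' : v i cell = v' i cell := eq_of_heq h4
      have ht : t = t' := by
        have := congrFun (congrFun h3 i) cell
        simpa using this
      refine Prod.ext ?_ ht
      funext j y
      by_cases hj : j = i
      · subst hj
        by_cases hy : y = cell
        · rw [hy]; exact h4'
        · have := congrFun (congrFun h3 j) y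
          simpa [Function.update_of_ne hy] using this
      · have := congrFun (congrFun h3 j) y
        simpa [Function.update_of_ne hj] using this
  rw [h1]
  refine h2.trans ?_
  rw [card_sigma]
  refine (sum_le_sum fun u _ => h u).trans ?_
  rw [sum_const, card_univ, smul_eq_mul, mul_comm]

open Classical in
/-- `near_roots` for `t` in `Fin M`. -/
private lemma count_1_roots (g : MvPolynomial (Fin q) ℝ) (hg : g.totalDegree ≤ d)
    (V w : Fin q → ℝ) :
    (univ.filter fun t : Fin M => ∃ η : ℝ, |η| ≤ 1 / 2 ∧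
      sgn g (fun j => V j + (((t : ℕ) : ℝ) + η) * w j) ≠
        sgn g (fun j => V j + ((t : ℕ) : ℝ) * w j)).card ≤ 2 * d := by
  first
  | exact near_roots (M := M) g hg V w
  | (refine le_trans ?_ (near_roots (M := M) g hg V w)
     refine card_le_card_of_injOn (fun t : Fin M => (t : ℕ)) ?_
       (fun t _ t' _ h => Fin.ext h)
     intro t ht
     rw [mem_coe, mem_filter] at ht ⊢
     refine ⟨?_, ht.2⟩
     simp)

/-- The other elements do not see the value. -/
private lemma count_1_ne (L Y Q : ℕ) (S T : Finset (E m)) (hTS : T ⊆ S)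
    (dg : E m → Fin k → Fin b) (z : E m → Bool × Fin Z) (ν : E m → Fin (N + 1)) (i : Fin k)
    {e e' : E m} (he : e ∈ S) (he1 : e ∉ mt S dg (i.val + 1)) (hne : e' ≠ e)
    {u u' : Fin k → (Fin k → Fin b) → Fin M}
    (ho : ∀ j x, ¬ (j = i ∧ x = pre (i.val + 1) (dg e)) → u j x = u' j x) :
    xv L Y Q S T dg (z, u, ν) (tinyN ν) e' = xv L Y Q S T dg (z, u', ν) (tinyN ν) e' := by
  unfold xv
  by_cases hz' : (z e').1 = true
  · simp only [hz', if_true]
  · by_cases hS' : e' ∈ S
    · have key : ∀ j : Fin k,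
          u j (pre (j.val + 1) (dg e')) = u' j (pre (j.val + 1) (dg e')) := by
        intro j
        refine ho j _ ?_
        rintro ⟨h1, h2⟩
        subst h1
        exact he1 (Pool.Agent.Helper21.DS.mem_mt.2 ⟨he, Or.inr ⟨e', hS', hne, h2⟩⟩)
      have h1 : vl L Y Q dg (z, u, ν) (tinyN ν) e' = vl L Y Q dg (z, u', ν) (tinyN ν) e' := by
        unfold vl strc
        simp only [key]
      have h2 : rp L Y S dg (z, u, ν) e' = rp L Y S dg (z, u', ν) e' := by
        unfold rp
        simp only [key]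
      simp only [hz', h1, h2]
    · have hT' : e' ∉ T := fun h => hS' (hTS h)
      simp only [hz', hS', hT', if_false]

/-- The element itself. -/
private lemma count_1_self (L Y Q : ℕ) (S T : Finset (E m))
    (dg : E m → Fin k → Fin b) (z : E m → Bool × Fin Z) (ν : E m → Fin (N + 1)) (i : Fin k)
    {e : E m} (he : e ∈ S) (heT : e ∉ T) (hz : (z e).1 = false) (he0 : e ∈ mt S dg i.val)
    {u u' : Fin k → (Fin k → Fin b) → Fin M}
    (ho : ∀ j x, ¬ (j = i ∧ x = pre (i.val + 1) (dg e)) → u j x = u' j x) :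
    xv L Y Q S T dg (z, u, ν) (tinyN ν) e - xv L Y Q S T dg (z, u', ν) (tinyN ν) e =
      (((u i (pre (i.val + 1) (dg e)) : ℕ) : ℝ) - ((u' i (pre (i.val + 1) (dg e)) : ℕ) : ℝ)) *
        ((L : ℝ) * (Y : ℝ) ^ (k - 1 - i.val)) := by
  have h1 : rp L Y S dg (z, u, ν) e - rp L Y S dg (z, u', ν) e =
      (L : ℤ) * (Y : ℤ) ^ (k - 1 - i.val) *
        (((u i (pre (i.val + 1) (dg e)) : ℕ) : ℤ) - ((u' i (pre (i.val + 1) (dg e)) : ℕ) : ℤ)) := by
    unfold rp
    rw [add_sub_add_right_eq_sub, ← sum_sub_distrib, sum_eq_single i]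
    · simp only [if_pos he0]
      ring
    · intro j _ hj
      have h1 : u j (pre (j.val + 1) (dg e)) = u' j (pre (j.val + 1) (dg e)) :=
        ho j _ fun h => hj h.1
      simp only [h1, sub_self]
    · intro h
      exact absurd (mem_univ i) h
  have h2 := congrArg (fun x : ℤ => (x : ℝ)) h1
  simp only [Int.cast_sub, Int.cast_mul, Int.cast_pow, Int.cast_natCast] at h2
  unfold xv
  simp only [hz, Bool.false_eq_true, if_false, if_neg heT, if_pos he]
  rw [h2]
  ring

/-- The values of the forms as functions of one mask. -/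
private lemma count_1_fv (L Y Q : ℕ) (c : Fin q → ℝ) (γ : E m → Fin q → ℝ)
    (S T : Finset (E m)) (hTS : T ⊆ S)
    (dg : E m → Fin k → Fin b) (z : E m → Bool × Fin Z) (ν : E m → Fin (N + 1)) (i : Fin k)
    {e : E m} (he : e ∈ S) (heT : e ∉ T) (hz : (z e).1 = false) (he0 : e ∈ mt S dg i.val)
    (he1 : e ∉ mt S dg (i.val + 1)) {u u' : Fin k → (Fin k → Fin b) → Fin M}
    (ho : ∀ j x, ¬ (j = i ∧ x = pre (i.val + 1) (dg e)) → u j x = u' j x) (j : Fin q) :
    fv c γ (xv L Y Q S T dg (z, u, ν) (tinyN ν)) j =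
      (fv c γ (xv L Y Q S T dg (z, u', ν) (tinyN ν)) j -
        ((u' i (pre (i.val + 1) (dg e)) : ℕ) : ℝ) *
          ((L : ℝ) * (Y : ℝ) ^ (k - 1 - i.val) * γ e j)) +
      ((u i (pre (i.val + 1) (dg e)) : ℕ) : ℝ) *
        ((L : ℝ) * (Y : ℝ) ^ (k - 1 - i.val) * γ e j) := by
  have h1 : fv c γ (xv L Y Q S T dg (z, u, ν) (tinyN ν)) j -
      fv c γ (xv L Y Q S T dg (z, u', ν) (tinyN ν)) j =
      γ e j * ((((u i (pre (i.val + 1) (dg e)) : ℕ) : ℝ) -
        ((u' i (pre (i.val + 1) (dg e)) : ℕ) : ℝ)) * ((L : ℝ) * (Y : ℝ) ^ (k - 1 - i.val))) := by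
    unfold fv
    rw [add_sub_add_left_eq_sub, ← sum_sub_distrib, sum_eq_single e]
    · rw [← mul_sub, count_1_self L Y Q S T dg z ν i he heT hz he0 ho]
    · intro e' _ hne
      rw [count_1_ne L Y Q S T hTS dg z ν i he he1 hne ho, sub_self]
    · intro h
      exact absurd (mem_univ e) h
  linear_combination h1

open Classical in
/-- One element and one set `T`. -/
private lemma count_1_elem (L Y Q : ℕ) (g : MvPolynomial (Fin q) ℝ) (hg : g.totalDegree ≤ d)
    (c : Fin q → ℝ) (γ : E m → Fin q → ℝ) (S T : Finset (E m)) (hTS : T ⊆ S)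
    (dg : E m → Fin k → Fin b) (z : E m → Bool × Fin Z) (ν : E m → Fin (N + 1))
    {e : E m} (he : e ∈ S) (heT : e ∉ T) (hz : (z e).1 = false) :
    (univ.filter fun u : Fin k → (Fin k → Fin b) → Fin M => ∃ i : Fin k,
      e ∈ mt S dg i.val ∧ e ∉ mt S dg (i.val + 1) ∧ ∃ η : ℝ, |η| ≤ 1 / 2 ∧
        sgn g (fun j => fv c γ (xv L Y Q S T dg (z, u, ν) (tinyN ν)) j +
          η * ((L : ℝ) * (Y : ℝ) ^ (k - 1 - i.val)) * γ e j) ≠
        sgn g (fv c γ (xv L Y Q S T dg (z, u, ν) (tinyN ν)))).card * M ≤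
      2 * d * Fintype.card (Fin k → (Fin k → Fin b) → Fin M) := by
  by_cases hex : ∃ i : Fin k, e ∈ mt S dg i.val ∧ e ∉ mt S dg (i.val + 1)
  · obtain ⟨i, he0, he1⟩ := hex
    have huniq : ∀ j : Fin k, e ∈ mt S dg j.val → e ∉ mt S dg (j.val + 1) → j = i := by
      intro j hj0 hj1
      rcases lt_trichotomy j.val i.val with h | h | h
      · exact absurd (Pool.Agent.Helper21.DS.mt_anti S dg (by omega : j.val + 1 ≤ i.val) he0) hj1
      · exact Fin.ext h
      · exact absurd (Pool.Agent.Helper21.DS.mt_anti S dg (by omega : i.val + 1 ≤ j.val) hj0) he1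
    refine count_1_card i (pre (i.val + 1) (dg e)) _ _ fun u => ?_
    refine (card_le_card ?_).trans (count_1_roots (M := M) g hg
      (fun j => fv c γ (xv L Y Q S T dg (z, u, ν) (tinyN ν)) j -
        ((u i (pre (i.val + 1) (dg e)) : ℕ) : ℝ) * ((L : ℝ) * (Y : ℝ) ^ (k - 1 - i.val) * γ e j))
      (fun j => (L : ℝ) * (Y : ℝ) ^ (k - 1 - i.val) * γ e j))
    intro t ht
    rw [mem_filter] at ht ⊢
    obtain ⟨i', hi0, hi1, η, hη, hne⟩ := ht.2
    rw [huniq i' hi0 hi1] at hne
    refine ⟨mem_univ _, η, hη, ?_⟩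
    have ho : ∀ j x, ¬ (j = i ∧ x = pre (i.val + 1) (dg e)) →
        (Function.update u i (Function.update (u i) (pre (i.val + 1) (dg e)) t)) j x = u j x := by
      intro j x hjx
      by_cases hj : j = i
      · subst hj
        have hx : x ≠ pre (j.val + 1) (dg e) := fun h => hjx ⟨rfl, h⟩
        rw [Function.update_self, Function.update_of_ne hx]
      · rw [Function.update_of_ne hj]
    have hval : (Function.update u i (Function.update (u i) (pre (i.val + 1) (dg e)) t)) i
        (pre (i.val + 1) (dg e)) = t := by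
      rw [Function.update_self, Function.update_self]
    have hfv := count_1_fv L Y Q c γ S T hTS dg z ν i he heT hz he0 he1 ho
    rw [hval] at hfv
    have e1 : (fun j => fv c γ (xv L Y Q S T dg (z, Function.update u i
          (Function.update (u i) (pre (i.val + 1) (dg e)) t), ν) (tinyN ν)) j +
          η * ((L : ℝ) * (Y : ℝ) ^ (k - 1 - i.val)) * γ e j) = fun j =>
        (fv c γ (xv L Y Q S T dg (z, u, ν) (tinyN ν)) j -
          ((u i (pre (i.val + 1) (dg e)) : ℕ) : ℝ) *
            ((L : ℝ) * (Y : ℝ) ^ (k - 1 - i.val) * γ e j)) +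
          (((t : ℕ) : ℝ) + η) * ((L : ℝ) * (Y : ℝ) ^ (k - 1 - i.val) * γ e j) := by
      funext j
      rw [hfv j]
      ring
    have e2 : fv c γ (xv L Y Q S T dg (z, Function.update u i
          (Function.update (u i) (pre (i.val + 1) (dg e)) t), ν) (tinyN ν)) = fun j =>
        (fv c γ (xv L Y Q S T dg (z, u, ν) (tinyN ν)) j -
          ((u i (pre (i.val + 1) (dg e)) : ℕ) : ℝ) *
            ((L : ℝ) * (Y : ℝ) ^ (k - 1 - i.val) * γ e j)) +
          ((t : ℕ) : ℝ) * ((L : ℝ) * (Y : ℝ) ^ (k - 1 - i.val) * γ e j) := by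
      funext j
      exact hfv j
    rw [e1, e2] at hne
    exact hne
  · have h0 : (univ.filter fun u : Fin k → (Fin k → Fin b) → Fin M => ∃ i : Fin k,
        e ∈ mt S dg i.val ∧ e ∉ mt S dg (i.val + 1) ∧ ∃ η : ℝ, |η| ≤ 1 / 2 ∧
          sgn g (fun j => fv c γ (xv L Y Q S T dg (z, u, ν) (tinyN ν)) j +
            η * ((L : ℝ) * (Y : ℝ) ^ (k - 1 - i.val)) * γ e j) ≠
          sgn g (fv c γ (xv L Y Q S T dg (z, u, ν) (tinyN ν)))) = ∅ := by
      rw [filter_eq_empty_iff]
      rintro u _ ⟨i, h1, h2, _⟩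
      exact hex ⟨i, h1, h2⟩
    rw [h0, card_empty, zero_mul]
    exact Nat.zero_le _

open Classical in
/-- Union over `e ∈ S` (the level `i` is unique: `i` is the only level with `e ∈ mt S dg i` and
`e ∉ mt S dg (i + 1)`) and the two sets `T`: at most `2 s` events. For each of them only the mask of
the cell `pre (i + 1) (dg e)` on level `i` is resampled. No other element of `S` is in this cell, so
the values of the forms are `V + u * (L Y ^ (k - 1 - i)) * γ e` with `V` independent of the mask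
`u` (`e ∉ T`, and `rp` of `e` contains the term of level `i`): `near_roots`, `card_resample`
(twice: `Fin k → ..` and `(Fin k → Fin b) → ..`, or with the uncurried functions). -/
theorem count_1 (L Y Q : ℕ) (g : MvPolynomial (Fin q) ℝ) (hg : g.totalDegree ≤ d)
    (c : Fin q → ℝ) (γ : E m → Fin q → ℝ) (S : Finset (E m)) {s : ℕ} (hS : S.card ≤ s)
    (dg : E m → Fin k → Fin b) (z : E m → Bool × Fin Z) (hz : ∀ e ∈ S, (z e).1 = false)
    (ν : E m → Fin (N + 1)) :
    (univ.filter fun u : Fin k → (Fin k → Fin b) → Fin M =>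
      ¬ Good1 L Y Q g c γ S dg (z, u, ν)).card * M ≤
      4 * s * d * Fintype.card (Fin k → (Fin k → Fin b) → Fin M) := by
  obtain ⟨B, hB⟩ : ∃ B : Finset (E m) → E m → Finset (Fin k → (Fin k → Fin b) → Fin M),
      B = fun T e => univ.filter fun u => ∃ i : Fin k,
        e ∈ mt S dg i.val ∧ e ∉ mt S dg (i.val + 1) ∧ ∃ η : ℝ, |η| ≤ 1 / 2 ∧
          sgn g (fun j => fv c γ (xv L Y Q S T dg (z, u, ν) (tinyN ν)) j +
            η * ((L : ℝ) * (Y : ℝ) ^ (k - 1 - i.val)) * γ e j) ≠
          sgn g (fv c γ (xv L Y Q S T dg (z, u, ν) (tinyN ν))) := ⟨_, rfl⟩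
  have hsub : (univ.filter fun u : Fin k → (Fin k → Fin b) → Fin M =>
      ¬ Good1 L Y Q g c γ S dg (z, u, ν)) ⊆
      S.biUnion fun e => B (S.filter fun e' => idx e' < idx e) e ∪ B (S.erase e) e := by
    intro u hu
    rw [mem_filter] at hu
    have h1 := hu.2
    unfold Good1 at h1
    push Not at h1
    obtain ⟨e, he, i, hi0, hi1, T, hT, η, hη, hne⟩ := h1
    rw [mem_biUnion]
    refine ⟨e, he, ?_⟩
    rw [mem_union, hB]
    rcases hT with hT | hT
    · left
      rw [mem_filter]
      refine ⟨mem_univ _, i, hi0, hi1, η, hη, ?_⟩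
      rw [hT] at hne
      exact hne
    · right
      rw [mem_filter]
      refine ⟨mem_univ _, i, hi0, hi1, η, hη, ?_⟩
      rw [hT] at hne
      exact hne
  refine (Nat.mul_le_mul_right M ((card_le_card hsub).trans card_biUnion_le)).trans ?_
  rw [sum_mul]
  have hterm : ∀ e ∈ S, (B (S.filter fun e' => idx e' < idx e) e ∪ B (S.erase e) e).card * M ≤
      4 * d * Fintype.card (Fin k → (Fin k → Fin b) → Fin M) := by
    intro e he
    refine (Nat.mul_le_mul_right M (card_union_le _ _)).trans ?_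
    rw [add_mul]
    have h1 := count_1_elem (M := M) L Y Q g hg c γ S (S.filter fun e' => idx e' < idx e)
      (filter_subset _ _) dg z ν he (fun h => absurd (mem_filter.1 h).2 (lt_irrefl _)) (hz e he)
    have h2 := count_1_elem (M := M) L Y Q g hg c γ S (S.erase e)
      (erase_subset _ _) dg z ν he (notMem_erase _ _) (hz e he)
    rw [hB]
    calc _ ≤ 2 * d * Fintype.card (Fin k → (Fin k → Fin b) → Fin M) +
          2 * d * Fintype.card (Fin k → (Fin k → Fin b) → Fin M) := Nat.add_le_add h1 h2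
      _ = _ := by ring
  refine (sum_le_sum hterm).trans ?_
  rw [sum_const, smul_eq_mul]
  calc S.card * (4 * d * Fintype.card (Fin k → (Fin k → Fin b) → Fin M)) ≤
      s * (4 * d * Fintype.card (Fin k → (Fin k → Fin b) → Fin M)) := Nat.mul_le_mul_right _ hS
    _ = _ := by ring

end Pool.Agent.Helper21.DP
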