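import Pool.Agent.Helper21.DP.Basis

/-!
# Rounds of bases
-/

set_option autoImplicit false

namespace Pool.Agent.Helper21.DP

open Finset

variable {El : Type} [Fintype El] [DecidableEq El] {q : ℕ}

/-- A basis of `R` with bounded coefficients. -/
noncomputable def bas (γ : El → Fin q → ℝ) (R : Finset El) : Finset El :=
  (exists_basis γ R).choose

lemma bas_subset (γ : El → Fin q → ℝ) (R : Finset El) : bas γ R ⊆ R :=
  (exists_basis γ R).choose_spec.1

lemma bas_card (γ : El → Fin q → ℝ) (R : Finset El) : (bas γ R).card ≤ q :=
  (exists_basis γ R).choose_spec.2.1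

lemma bas_spans (γ : El → Fin q → ℝ) (R : Finset El) :
    Spans γ (q.factorial : ℝ) (bas γ R) R :=
  (exists_basis γ R).choose_spec.2.2

/-- The elements that remain after `j` rounds. -/
noncomputable def rmn (γ : El → Fin q → ℝ) : ℕ → Finset El
  | 0 => univ
  | j + 1 => rmn γ j \ bas γ (rmn γ j)

private lemma rmn_succ_subset_h80 (γ : El → Fin q → ℝ) (j : ℕ) : rmn γ (j + 1) ⊆ rmn γ j := by
  simp only [rmn]
  exact Finset.sdiff_subset

/-- In some round all elements of the basis are marked. (Otherwise no basis is empty, and the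
number of remaining elements decreases in every round.) -/
theorem exists_stop (γ : El → Fin q → ℝ) (g : El → Bool) :
    ∃ j, ∀ b ∈ bas γ (rmn γ j), g b = true := by
  by_contra hc
  push Not at hc
  have h : ∀ j, (rmn γ j).card + j ≤ Fintype.card El := by
    intro j
    induction j with
    | zero => simpa using Finset.card_le_univ (rmn γ 0)
    | succ j ih =>
      obtain ⟨b, hb, -⟩ := hc j
      have hlt : (rmn γ (j + 1)).card < (rmn γ j).card := by
        apply Finset.card_lt_card
        rw [Finset.ssubset_iff_of_subset (rmn_succ_subset_h80 γ j)]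
        refine ⟨b, bas_subset γ _ hb, ?_⟩
        simp only [rmn, Finset.mem_sdiff, not_and, not_not]
        exact fun _ => hb
      omega
  have := h (Fintype.card El + 1)
  omega

open Classical in
/-- The first round in which all elements of the basis are marked. -/
noncomputable def stp (γ : El → Fin q → ℝ) (g : El → Bool) : ℕ := Nat.find (exists_stop γ g)

/-- The pivots: the elements of the basis in this round. -/
noncomputable def piv (γ : El → Fin q → ℝ) (g : El → Bool) : Finset El :=
  bas γ (rmn γ (stp γ g))

/-- The elements looked at: the elements of the bases of the earlier rounds that are not marked. -/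
noncomputable def look (γ : El → Fin q → ℝ) (g : El → Bool) : Finset El :=
  univ.filter fun e => g e = false ∧ e ∉ rmn γ (stp γ g)

open Classical in
/-- Coefficients. -/
noncomputable def cf (γ : El → Fin q → ℝ) (g : El → Bool) (e : El) : El → ℝ :=
  if h : ∃ c : El → ℝ, (∀ b, |c b| ≤ (q.factorial : ℝ)) ∧
      ∀ i, γ e i = ∑ b ∈ piv γ g, c b * γ b i then h.choose else 0

theorem piv_true (γ : El → Fin q → ℝ) (g : El → Bool) : ∀ b ∈ piv γ g, g b = true := by
  classical
  exact Nat.find_spec (exists_stop γ g)

theorem piv_card (γ : El → Fin q → ℝ) (g : El → Bool) : (piv γ g).card ≤ q := bas_card _ _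

theorem look_false (γ : El → Fin q → ℝ) (g : El → Bool) : ∀ e ∈ look γ g, g e = false := by
  intro e he
  simp only [look, Finset.mem_filter] at he
  exact he.2.1

theorem cf_abs (γ : El → Fin q → ℝ) (g : El → Bool) (e b : El) :
    |cf γ g e b| ≤ (q.factorial : ℝ) := by
  classical
  unfold cf
  split_ifs with h
  · exact h.choose_spec.1 b
  · simp

theorem cf_sum (γ : El → Fin q → ℝ) (g : El → Bool) (e : El) (h1 : g e = false)
    (h2 : e ∉ look γ g) (i : Fin q) : γ e i = ∑ b ∈ piv γ g, cf γ g e b * γ b i := by
  classical
  have hmem : e ∈ rmn γ (stp γ g) := by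
    by_contra hn
    apply h2
    simp only [look, Finset.mem_filter, Finset.mem_univ, true_and]
    exact ⟨h1, hn⟩
  have h : ∃ c : El → ℝ, (∀ b, |c b| ≤ (q.factorial : ℝ)) ∧
      ∀ i, γ e i = ∑ b ∈ piv γ g, c b * γ b i := bas_spans γ _ e hmem
  unfold cf
  rw [dif_pos h]
  exact h.choose_spec.2 i

private lemma exists_bas_h80 (γ : El → Fin q → ℝ) (e : El) (J : ℕ) (he : e ∉ rmn γ J) :
    ∃ j < J, e ∈ bas γ (rmn γ j) := by
  induction J with
  | zero => simp [rmn] at he
  | succ J ih =>
    by_cases h : e ∈ rmn γ J
    · refine ⟨J, Nat.lt_succ_self J, ?_⟩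
      simp only [rmn, Finset.mem_sdiff, not_and, not_not] at he
      exact he h
    · obtain ⟨j, hj, hb⟩ := ih h
      exact ⟨j, Nat.lt_succ_of_lt hj, hb⟩

/-- At most `q` elements in every round. -/
theorem look_card (γ : El → Fin q → ℝ) (g : El → Bool) : (look γ g).card ≤ q * stp γ g := by
  classical
  have hsub : look γ g ⊆ (Finset.range (stp γ g)).biUnion fun j => bas γ (rmn γ j) := by
    intro e he
    simp only [look, Finset.mem_filter, Finset.mem_univ, true_and] at he
    obtain ⟨j, hj, hb⟩ := exists_bas_h80 γ e (stp γ g) he.2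
    exact Finset.mem_biUnion.mpr ⟨j, Finset.mem_range.mpr hj, hb⟩
  calc (look γ g).card ≤ _ := Finset.card_le_card hsub
    _ ≤ ∑ j ∈ Finset.range (stp γ g), (bas γ (rmn γ j)).card := Finset.card_biUnion_le
    _ ≤ ∑ _j ∈ Finset.range (stp γ g), q := Finset.sum_le_sum fun j _ => bas_card γ _
    _ = q * stp γ g := by simp [mul_comm]

private lemma rmn_anti_h80 (γ : El → Fin q → ℝ) {i j : ℕ} (h : i ≤ j) :
    rmn γ j ⊆ rmn γ i := by
  induction h with
  | refl => exact Finset.Subset.refl _
  | step _ ih => exact (rmn_succ_subset_h80 γ _).trans ih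

open Classical in
private lemma count_step_h80 {X : Type} [Fintype X] [DecidableEq X] (B : Finset El)
    (hB : B.card ≤ q) (P : (El → Bool × X) → Prop)
    (hP : ∀ z z' : El → Bool × X, (∀ e, e ∉ B → z e = z' e) → P z → P z') :
    (univ.filter fun z : El → Bool × X => P z ∧ ∃ b ∈ B, (z b).1 = false).card * 2 ^ q ≤
      (2 ^ q - 1) * (univ.filter fun z : El → Bool × X => P z).card := by
  set S := univ.filter fun z : El → Bool × X => P z with hS
  set T := univ.filter fun z : El → Bool × X => P z ∧ ∀ b ∈ B, (z b).1 = true with hT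
  set U := univ.filter fun z : El → Bool × X => P z ∧ ∃ b ∈ B, (z b).1 = false with hU
  have h1 : U.card + T.card = S.card := by
    rw [← Finset.card_union_of_disjoint]
    · congr 1
      ext z
      simp only [hU, hT, hS, Finset.mem_union, Finset.mem_filter, Finset.mem_univ, true_and]
      constructor
      · rintro (h | h) <;> exact h.1
      · intro h
        by_cases h' : ∃ b ∈ B, (z b).1 = false
        · exact Or.inl ⟨h, h'⟩
        · right
          refine ⟨h, fun b hb => ?_⟩
          by_contra hc
          exact h' ⟨b, hb, by simpa using hc⟩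
    · rw [Finset.disjoint_left]
      intro z hz hz'
      simp only [hU, hT, Finset.mem_filter, Finset.mem_univ, true_and] at hz hz'
      obtain ⟨b, hb, hf⟩ := hz.2
      rw [hz'.2 b hb] at hf
      exact Bool.noConfusion hf
  have h2 : S.card ≤ T.card * 2 ^ q := by
    calc S.card ≤ (T ×ˢ B.powerset).card := by
          apply Finset.card_le_card_of_injOn
            (fun z => ((fun e => if e ∈ B then (true, (z e).2) else z e),
              B.filter fun e => (z e).1 = false))
          · intro z hz
            have hz' : P z := by simpa [hS] using hz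
            simp only [Finset.coe_product, Set.mem_prod, Finset.mem_coe, Finset.mem_powerset]
            refine ⟨?_, Finset.filter_subset _ _⟩
            simp only [hT, Finset.mem_filter, Finset.mem_univ, true_and]
            refine ⟨hP z _ (fun e he => by simp [he]) hz', fun b hb => by simp [hb]⟩
          · intro z _ z' _ h
            simp only [Prod.mk.injEq] at h
            obtain ⟨ha, hb⟩ := h
            funext e
            by_cases he : e ∈ B
            · have h3 := congrFun ha e
              simp only [he, if_true, Prod.mk.injEq, true_and] at h3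
              have h4 : (e ∈ B.filter fun e => (z e).1 = false) ↔
                  (e ∈ B.filter fun e => (z' e).1 = false) := by rw [hb]
              simp only [Finset.mem_filter, he, true_and] at h4
              refine Prod.ext ?_ h3
              cases h5 : (z e).1 <;> cases h6 : (z' e).1 <;> simp_all
            · have h3 := congrFun ha e
              simpa [he] using h3
      _ = T.card * 2 ^ B.card := by rw [Finset.card_product, Finset.card_powerset]
      _ ≤ T.card * 2 ^ q :=
          Nat.mul_le_mul_left _ (Nat.pow_le_pow_right (by norm_num) hB)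
  have h3 : 1 ≤ 2 ^ q := Nat.one_le_two_pow
  obtain ⟨w, hw⟩ : ∃ w, 2 ^ q = w + 1 := ⟨2 ^ q - 1, by omega⟩
  rw [hw] at h2 ⊢
  simp only [Nat.add_sub_cancel]
  nlinarith [h1, h2]

open Classical in
private lemma count_fail_h80 {Z : ℕ} (γ : El → Fin q → ℝ) (J : ℕ) :
    (univ.filter fun z : El → Bool × Fin Z =>
      ∀ j < J, ∃ b ∈ bas γ (rmn γ j), (z b).1 = false).card * (2 ^ q) ^ J ≤
      (2 ^ q - 1) ^ J * Fintype.card (El → Bool × Fin Z) := by
  induction J with
  | zero =>
    simp only [pow_zero, mul_one, one_mul]
    exact Finset.card_le_univ _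
  | succ J ih =>
    have hstep := count_step_h80 (X := Fin Z) (bas γ (rmn γ J)) (bas_card γ _)
      (fun z => ∀ j < J, ∃ b ∈ bas γ (rmn γ j), (z b).1 = false) (by
        intro z z' hzz hz j hj
        obtain ⟨b, hb, hf⟩ := hz j hj
        refine ⟨b, hb, ?_⟩
        have hnot : b ∉ bas γ (rmn γ J) := by
          intro hb'
          have h1 : b ∈ rmn γ (j + 1) := rmn_anti_h80 γ hj (bas_subset γ _ hb')
          simp only [rmn, Finset.mem_sdiff] at h1
          exact h1.2 hb
        rw [← hzz b hnot]
        exact hf)
    have heq : (univ.filter fun z : El → Bool × Fin Z =>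
        ∀ j < J + 1, ∃ b ∈ bas γ (rmn γ j), (z b).1 = false) =
        univ.filter fun z : El → Bool × Fin Z =>
        (∀ j < J, ∃ b ∈ bas γ (rmn γ j), (z b).1 = false) ∧
          ∃ b ∈ bas γ (rmn γ J), (z b).1 = false := by
      ext z
      simp only [Finset.mem_filter, Finset.mem_univ, true_and]
      constructor
      · intro h
        exact ⟨fun j hj => h j (Nat.lt_succ_of_lt hj), h J (Nat.lt_succ_self J)⟩
      · rintro ⟨h, h'⟩ j hj
        rcases Nat.lt_succ_iff_lt_or_eq.mp hj with hj | rfl
        · exact h j hj
        · exact h'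
    rw [heq]
    calc _ = ((univ.filter fun z : El → Bool × Fin Z =>
        (∀ j < J, ∃ b ∈ bas γ (rmn γ j), (z b).1 = false) ∧
          ∃ b ∈ bas γ (rmn γ J), (z b).1 = false).card * 2 ^ q) * (2 ^ q) ^ J := by ring
      _ ≤ ((2 ^ q - 1) * (univ.filter fun z : El → Bool × Fin Z =>
        ∀ j < J, ∃ b ∈ bas γ (rmn γ j), (z b).1 = false).card) * (2 ^ q) ^ J :=
          Nat.mul_le_mul_right _ (by convert hstep)
      _ = (2 ^ q - 1) * ((univ.filter fun z : El → Bool × Fin Z =>
        ∀ j < J, ∃ b ∈ bas γ (rmn γ j), (z b).1 = false).card * (2 ^ q) ^ J) := by ring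
      _ ≤ (2 ^ q - 1) * ((2 ^ q - 1) ^ J * Fintype.card (El → Bool × Fin Z)) :=
          Nat.mul_le_mul_left _ ih
      _ = _ := by ring

open Classical in
/-- Each of the first `J` rounds fails with probability at most `1 - 2 ^ (-q)`, independently (the
bases of different rounds are disjoint; induction on `J`, with the event that the first `J` rounds
fail, which depends only on the marks of the elements outside `rmn γ J`). -/
theorem count_look {Z : ℕ} (γ : El → Fin q → ℝ) (J : ℕ) :
    (univ.filter fun z : El → Bool × Fin Z =>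
      q * J < (look γ fun e => (z e).1).card).card * (2 ^ q) ^ J ≤
      (2 ^ q - 1) ^ J * Fintype.card (El → Bool × Fin Z) := by
  refine le_trans (Nat.mul_le_mul_right _ (Finset.card_le_card ?_)) (count_fail_h80 γ J)
  intro z hz
  simp only [Finset.mem_filter, Finset.mem_univ, true_and] at hz ⊢
  intro j hj
  have h1 : q * J < q * stp γ fun e => (z e).1 := lt_of_lt_of_le hz (look_card γ _)
  have h2 : J < stp γ fun e => (z e).1 := lt_of_mul_lt_mul_left h1 (Nat.zero_le _)
  have h3 : j < stp γ fun e => (z e).1 := lt_trans hj h2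
  have h4 := Nat.find_min (exists_stop γ fun e => (z e).1) h3
  push Not at h4
  obtain ⟨b, hb, hf⟩ := h4
  exact ⟨b, hb, by simpa using hf⟩

end Pool.Agent.Helper21.DP
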