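import Pool.Agent.Helper21.DP.Model
import Pool.Agent.Helper21.DP.Stop
import Pool.Agent.Helper21.DS.Defs

/-!
# Exact Triangle with little memory: signs of polynomials in affine forms

Definitions for project DP (after project DS: the same instances, processes and mates).
-/

set_option autoImplicit false

namespace Pool.Agent.Helper21.DP

open Finset
open Pool.Agent.Helper22.ETModel Pool.Agent.Helper22.TSModel Pool.Agent.Helper22.EP
open Pool.Agent.Helper23.SP (pre sg)
open Pool.Agent.Helper8.ZT
open Pool.Agent.Helper21.DS (mt putd DProc Lam strc vl wg gam rp vid cove)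

/-! ## The queries after the substitution of the registers -/

/-- Queries: the sign of a polynomial of degree at most `d` in `q` real affine forms in all the
weights, and a zero test of a polynomial of degree at most `d` in all the weights. -/
inductive PolyQ (n q d : ℕ)
  | sign (g : MvPolynomial (Fin q) ℝ) (hg : g.totalDegree ≤ d) (F : Fin q → Form n)
  | zero (f : MvPolynomial (Fin n × Fin n) ℝ) (hf : f.totalDegree ≤ d)

/-- The sign of the value of a polynomial. -/
noncomputable def sgn {q : ℕ} (g : MvPolynomial (Fin q) ℝ) (v : Fin q → ℝ) : SignType :=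
  SignType.sign (MvPolynomial.eval v g)

open Classical in
/-- The family of these queries. -/
noncomputable def polyFam (n q d : ℕ) : Family n (PolyQ n q d) SignType where
  cells _ := Finset.univ
  ans Qu I := match Qu with
    | .sign g _ F => sgn g fun i => (F i).val I
    | .zero f _ => if evalP f I = 0 then 0 else 1

/-- For all flags and random bits, at all times and in all states together at most `NQ` different
queries are asked. -/
def HasPool {n q d D W R : ℕ} (A : Alg n D W R (PolyQ n q d) SignType) (NQ : ℕ) : Prop :=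
  ∀ fl ρ, ∃ S : Finset (PolyQ n q d), S.card ≤ NQ ∧ ∀ t v, t < D → A.ask fl ρ t v ∈ S

/-! ## Values -/

variable {m n q k b Z M N d D W R : ℕ} [NeZero b]

/-- The coefficient vectors of the elements. -/
noncomputable def gv (h : 3 * m ≤ n) (F : Fin q → Form n) (e : E m) (i : Fin q) : ℝ :=
  gam h (F i).coef e

/-- The marks. -/
def mk (z : E m → Bool × Fin Z) (e : E m) : Bool := (z e).1

/-- The values of the forms with constants `c` and coefficients `γ`, when the elements have the
values `X`. -/
noncomputable def fv (c : Fin q → ℝ) (γ : E m → Fin q → ℝ) (X : E m → ℝ) (i : Fin q) : ℝ :=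
  c i + ∑ e, γ e i * X e

/-- The ideal values of the forms, when the elements of `S` are looked at. -/
noncomputable def iv (L Y Q : ℕ) (c : Fin q → ℝ) (γ : E m → Fin q → ℝ) (S : Finset (E m))
    (dg : E m → Fin k → Fin b) (lam : Lam m k b Z M N) (i : Fin q) : ℝ :=
  vid L Y Q (c i) (fun e => γ e i) S dg lam

/-- The values where the elements of `T` have their full values, the other elements of `S` their
revealed values, and the other elements that are not deleted the value zero. -/
noncomputable def xv (L Y Q : ℕ) (S T : Finset (E m)) (dg : E m → Fin k → Fin b)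
    (lam : Lam m k b Z M N) (τ : E m → ℤ) (e : E m) : ℝ :=
  if (lam.1 e).1 = true then (Q : ℝ) * (((lam.1 e).2 : ℕ) : ℝ) + (tinyN lam.2.2 e : ℝ)
  else if e ∈ T then (vl L Y Q dg lam τ e : ℝ)
  else if e ∈ S then (rp L Y S dg lam e : ℝ) else 0

/-- The elements that are neither deleted nor looked at, expressed by the pivots: the coefficient of
the pivot `p`. -/
noncomputable def zt (γ : E m → Fin q → ℝ) (g : E m → Bool) (X : E m → ℝ) (p : E m) : ℝ :=
  ∑ e ∈ univ.filter (fun e => g e = false ∧ e ∉ look γ g), cf γ g e p * X e

/-- The number of an element. -/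
noncomputable def idx (e : E m) : ℕ := (Fintype.equivFin (E m) e).val

/-- The values of the forms, when the elements looked at have their full values and the other
elements that are not deleted are taken into account only for the pivots in `P`. -/
noncomputable def vp (L Y Q : ℕ) (c : Fin q → ℝ) (γ : E m → Fin q → ℝ)
    (dg : E m → Fin k → Fin b) (lam : Lam m k b Z M N) (τ : E m → ℤ) (P : Finset (E m))
    (i : Fin q) : ℝ :=
  fv c γ (xv L Y Q (look γ (mk lam.1)) (look γ (mk lam.1)) dg lam τ) i +
    ∑ p ∈ P, γ p i * zt γ (mk lam.1) (fun e => (vl L Y Q dg lam τ e : ℝ)) p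

/-- The possible last digits: of the basic instance and of the planted instances. -/
def isT (ν : E m → Fin (N + 1)) (τ : E m → ℤ) : Prop :=
  τ = tinyN ν ∨ ∃ i j l : Fin m, τ = tinyQ ν (0, i, j) (1, j, l)

/-- First part of the path from the ideal to the real values: the sign does not change when the
value of one element `e` of `S` moves by at most half of a unit of its level; the elements before
`e`, or all others, have their full values. -/
def Good1 (L Y Q : ℕ) (g : MvPolynomial (Fin q) ℝ) (c : Fin q → ℝ) (γ : E m → Fin q → ℝ)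
    (S : Finset (E m)) (dg : E m → Fin k → Fin b) (lam : Lam m k b Z M N) : Prop :=
  ∀ e ∈ S, ∀ i : Fin k, e ∈ mt S dg i.val → e ∉ mt S dg (i.val + 1) →
    ∀ T : Finset (E m), (T = S.filter (fun e' => idx e' < idx e) ∨ T = S.erase e) →
      ∀ η : ℝ, |η| ≤ 1 / 2 →
        sgn g (fun j => fv c γ (xv L Y Q S T dg lam (tinyN lam.2.2)) j +
          η * ((L : ℝ) * (Y : ℝ) ^ (k - 1 - i.val)) * γ e j) =
        sgn g (fv c γ (xv L Y Q S T dg lam (tinyN lam.2.2)))

/-- Second part of the path: the sign does not change when the value of one pivot `p` moves by at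
most `Q / 2`; the elements that are neither deleted nor looked at are taken into account for the
pivots before `p`. -/
def Good2 (L Y Q : ℕ) (g : MvPolynomial (Fin q) ℝ) (c : Fin q → ℝ) (γ : E m → Fin q → ℝ)
    (dg : E m → Fin k → Fin b) (lam : Lam m k b Z M N) : Prop :=
  ∀ τ, isT lam.2.2 τ → ∀ p ∈ piv γ (mk lam.1), ∀ η : ℝ, |η| ≤ 1 / 2 →
    sgn g (fun j => vp L Y Q c γ dg lam τ
      ((piv γ (mk lam.1)).filter fun p' => idx p' < idx p) j + η * (Q : ℝ) * γ p j) =
    sgn g (vp L Y Q c γ dg lam τ ((piv γ (mk lam.1)).filter fun p' => idx p' < idx p))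

/-! ## The process -/

open Classical in
/-- The elements looked at by a query. -/
noncomputable def SQ (h : 3 * m ≤ n) (s : ℕ) (z : E m → Bool × Fin Z) :
    PolyQ n q d → Finset (E m)
  | .sign _ _ F => if (look (gv h F) (mk z)).card ≤ s then look (gv h F) (mk z) else ∅
  | .zero f _ => cove h f

open Classical in
/-- The ideal answer of a query. -/
noncomputable def iansw (h : 3 * m ≤ n) (s L Y Q : ℕ) (dg : E m → Fin k → Fin b)
    (lam : Lam m k b Z M N) : PolyQ n q d → SignType
  | .sign g _ F => sgn g (iv L Y Q (fun i => (F i).cst) (gv h F)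
      (if (look (gv h F) (mk lam.1)).card ≤ s then look (gv h F) (mk lam.1) else ∅) dg lam)
  | .zero f _ => if ∀ y, pev h f y = 0 then 0 else 1

/-- The process of an algorithm with fixed random bits and background. -/
noncomputable def procP (A : Alg n D W R (PolyQ n q d) SignType) (h : 3 * m ≤ n)
    (s L Y Q : ℕ) (lam : Lam m k b Z M N) (ρ : Fin R → Bool) : DProc (E m) k b (Fin W) where
  S t v := SQ h s lam.1 (A.ask (flagOf h) ρ t v)
  nx t v dg := A.next (flagOf h) ρ t v (iansw h s L Y Q dg lam (A.ask (flagOf h) ρ t v))

/-- One query is good. -/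
def GoodQ (h : 3 * m ≤ n) (s L Y Q : ℕ) (dg : E m → Fin k → Fin b)
    (lam : Lam m k b Z M N) : PolyQ n q d → Prop
  | .sign g _ F => (look (gv h F) (mk lam.1)).card ≤ s ∧
      Good1 L Y Q g (fun i => (F i).cst) (gv h F) (look (gv h F) (mk lam.1)) dg lam ∧
      Good2 L Y Q g (fun i => (F i).cst) (gv h F) dg lam
  | .zero f _ => (∃ y, pev h f y ≠ 0) →
      pev h f (fun e => (vl L Y Q dg lam (tinyN lam.2.2) e : ℝ)) ≠ 0 ∧
      ∀ i j l : Fin m, ((0, i, j), (1, j, l)) ∉ covp h f →
        pev h f (Function.update (fun e => (vl L Y Q dg lam (tinyN lam.2.2) e : ℝ)) (0, i, j)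
          (vl L Y Q dg lam (tinyN lam.2.2) (1, j, l) : ℝ)) ≠ 0

open Classical in
/-- The background and digits for which some query of a possible run is not good. -/
noncomputable def BadAll (A : Alg n D W R (PolyQ n q d) SignType) (h : 3 * m ≤ n)
    (s L Y Q : ℕ) (ρ : Fin R → Bool) :
    Finset ((E m → Fin k → Fin b) × Lam m k b Z M N) :=
  univ.filter fun ω => ∃ t < D, ∃ v : Fin W,
    ¬ GoodQ h s L Y Q ω.1 ω.2 (A.ask (flagOf h) ρ t v)

end Pool.Agent.Helper21.DP
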