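import Pool.Agent.Helper21.DP.Defs
import Pool.Agent.Helper21.DS.Proc

/-!
# The process of an algorithm
-/

set_option autoImplicit false

namespace Pool.Agent.Helper21.DP

open Finset
open Pool.Agent.Helper22.ETModel Pool.Agent.Helper22.TSModel Pool.Agent.Helper22.EP
open Pool.Agent.Helper23.SP (pre sg)
open Pool.Agent.Helper8.ZT
open Pool.Agent.Helper21.DS (mt putd DProc Lam strc vl wg gam rp vid cove)

variable {m n q k b Z M N d D W R : ℕ} [NeZero b]

private theorem proc_card (h : 3 * m ≤ n) {s : ℕ} (hd : 2 * d ≤ s) (z : E m → Bool × Fin Z)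
    (qu : PolyQ n q d) : (SQ h s z qu).card ≤ s := by
  classical
  cases qu with
  | sign g hg F =>
    show (if (look (gv h F) (mk z)).card ≤ s then look (gv h F) (mk z) else ∅).card ≤ s
    split_ifs with h1
    · exact h1
    · simp
  | zero f hf =>
    show (cove h f).card ≤ s
    unfold Pool.Agent.Helper21.DS.cove
    have h1 := Pool.Agent.Helper50.ZT.card_covp_le h f hf
    refine (card_union_le _ _).trans ?_
    have h2 : ((covp h f).image Prod.fst).card ≤ (covp h f).card := card_image_le
    have h3 : ((covp h f).image Prod.snd).card ≤ (covp h f).card := card_image_le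
    omega

private theorem proc_full (h : 3 * m ≤ n) (s L Y Q : ℕ) (lam : Lam m k b Z M N)
    {dg dg' : E m → Fin k → Fin b} (qu : PolyQ n q d)
    (hS : ∀ e ∈ SQ h s lam.1 qu, dg e = dg' e) :
    iansw h s L Y Q dg lam qu = iansw h s L Y Q dg' lam qu := by
  classical
  cases qu with
  | sign g hg F =>
    refine congrArg (sgn g) (funext fun i => ?_)
    exact Pool.Agent.Helper21.DS.vid_full L Y Q _ _ _ lam hS
  | zero f hf => rfl

private theorem proc_loc (h : 3 * m ≤ n) (s L Y Q : ℕ) (lam : Lam m k b Z M N)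
    (r : Fin k) (dg : E m → Fin k → Fin b) {ξ ξ' : E m → Fin b} (qu : PolyQ n q d)
    (hS : ∀ e ∈ mt (SQ h s lam.1 qu) dg r.val, ξ e = ξ' e) :
    iansw h s L Y Q (putd r dg ξ) lam qu = iansw h s L Y Q (putd r dg ξ') lam qu := by
  classical
  cases qu with
  | sign g hg F =>
    refine congrArg (sgn g) (funext fun i => ?_)
    exact Pool.Agent.Helper21.DS.vid_loc L Y Q _ _ _ lam r dg hS
  | zero f hf => rfl

/-- As `Pool.Agent.Helper21.DS.procD_ok` (use `DS.vid_full` and `DS.vid_loc` for every form;
`(look ..).card ≤ s` or the empty set; `card_covp_le` for zero tests). -/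
theorem procP_ok (A : Alg n D W R (PolyQ n q d) SignType) (h : 3 * m ≤ n) {s : ℕ}
    (hd : 2 * d ≤ s) (L Y Q : ℕ) (lam : Lam m k b Z M N) (ρ : Fin R → Bool) :
    (procP (k := k) (b := b) A h s L Y Q lam ρ).OK s := by
  constructor
  · intro t v
    exact proc_card h hd lam.1 (A.ask (flagOf h) ρ t v)
  · intro t v dg dg' hS
    exact congrArg (A.next (flagOf h) ρ t v)
      (proc_full h s L Y Q lam (A.ask (flagOf h) ρ t v) hS)
  · intro t v r dg ξ ξ' hS
    exact congrArg (A.next (flagOf h) ρ t v)
      (proc_loc h s L Y Q lam r dg (A.ask (flagOf h) ρ t v) hS)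

end Pool.Agent.Helper21.DP
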