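import Pool.Agent.Helper21.DP.Trans
import Pool.Agent.Helper21.DP.Proc

/-!
# The quadratic bound
-/

set_option autoImplicit false

namespace Pool.Agent.Helper21.DP

open Finset
open Pool.Agent.Helper22.ETModel Pool.Agent.Helper22.TSModel Pool.Agent.Helper22.EP
open Pool.Agent.Helper23.SP (pre sg)
open Pool.Agent.Helper8.ZT
open Pool.Agent.Helper21.DS (mt putd DProc Lam strc vl wg gam rp vid cove)

variable {m n q k d D W R : ℕ}

/-- The quadratic bound: `transferP` with one level and one digit (`k = 1`, `b = 1`) and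
`DS.rev_card_le`; see `Pool.Agent.Helper23.SP.trivial_bound` (`Helper23/SP/Trivial.lean`). The
parameters are those of `main_bound` with `k = 1`; `hsz` holds for `k = 1` because
`16 s (192 NQ (4 s d) + 1) ≥ 1`. -/
theorem trivial_bound (h : 3 * m ≤ n) (hm : 2 ≤ m) {NQ J s : ℕ} (hs : 1 ≤ s) (hk : 1 ≤ k)
    (hd : 2 * d ≤ s) (hJ : q * J ≤ s) (hNQ : 192 * NQ * (2 ^ q - 1) ^ J ≤ (2 ^ q) ^ J)
    (hsz : 24 * q.factorial * m ^ 2 *
      (16 * s * (192 * NQ * ((1 + m ^ 3) * (3 * m ^ 2 * d)) + 1) *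
        (16 * s * (192 * NQ * (4 * s * d) + 1)) ^ k) *
      (192 * NQ * ((m ^ 3 + 1) * q * (2 * d)) + 1) ≤ n ^ 300)
    (A : Alg n D W R (PolyQ n q d) SignType) (hP : HasPool A NQ)
    (hA : A.Decides (polyFam n q d)) :
    m ^ 2 ≤ 16 * s * D := by
  classical
  obtain ⟨N, hN⟩ : ∃ N, N = 192 * NQ * ((1 + m ^ 3) * (3 * m ^ 2 * d)) := ⟨_, rfl⟩
  obtain ⟨M, hM⟩ : ∃ M, M = 192 * NQ * (4 * s * d) + 1 := ⟨_, rfl⟩
  obtain ⟨Z, hZ⟩ : ∃ Z, Z = 192 * NQ * ((m ^ 3 + 1) * q * (2 * d)) + 1 := ⟨_, rfl⟩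
  obtain ⟨L, hL⟩ : ∃ L, L = 16 * s * (N + 1) := ⟨_, rfl⟩
  obtain ⟨Y, hY⟩ : ∃ Y, Y = 16 * s * M := ⟨_, rfl⟩
  obtain ⟨Q, hQ⟩ : ∃ Q, Q = 24 * q.factorial * m ^ 2 * (L * Y ^ 1) := ⟨_, rfl⟩
  have hM1 : 1 ≤ M := by omega
  have hZ1 : 1 ≤ Z := by omega
  have hLe : Even L := by
    rw [hL, show 16 * s * (N + 1) = 2 * (8 * s * (N + 1)) by ring]
    exact even_two_mul _
  have hQe : Even Q := by
    rw [hQ, show 24 * q.factorial * m ^ 2 * (L * Y ^ 1) =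
      2 * (12 * q.factorial * m ^ 2 * (L * Y ^ 1)) by ring]
    exact even_two_mul _
  have hY1 : 1 ≤ Y := by
    rw [hY]
    exact Nat.mul_pos (by omega) hM1
  have hQZ : Q * Z ≤ n ^ 300 := by
    refine le_trans ?_ hsz
    rw [← hN, ← hM, ← hZ, ← hL, ← hY, hQ]
    exact Nat.mul_le_mul_right _ (Nat.mul_le_mul_left _ (Nat.mul_le_mul_left _
      (Nat.pow_le_pow_right hY1 hk)))
  have key := transferP (k := 1) (b := 1) (Z := Z) (M := M) (N := N) h (by omega) (NQ := NQ)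
    (J := J) (s := s) (L := L) (Y := Y) (Q := Q) hs (by simpa using hm) (le_of_eq hL.symm)
    (le_of_eq hY.symm) (le_of_eq hQ.symm) hLe hQe hQZ hJ hNQ (by omega) (by omega) (by omega)
    hZ1 hM1 A hP hA
  have hle : ∑ ω : (E m → Fin 1 → Fin 1) × Lam m 1 1 Z M N, ∑ ρ : Fin R → Bool,
      (rvP A h s L Y Q ω ρ).card ≤
      Fintype.card ((E m → Fin 1 → Fin 1) × Lam m 1 1 Z M N) * (2 ^ R * (s * D)) := by
    calc ∑ ω : (E m → Fin 1 → Fin 1) × Lam m 1 1 Z M N, ∑ ρ : Fin R → Bool,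
        (rvP A h s L Y Q ω ρ).card
        ≤ ∑ _ω : (E m → Fin 1 → Fin 1) × Lam m 1 1 Z M N, ∑ _ρ : Fin R → Bool, s * D := by
          apply sum_le_sum
          intro ω _
          apply sum_le_sum
          intro ρ _
          exact (rvP_card_le A h s L Y Q ω ρ).trans
            (Pool.Agent.Helper21.DS.rev_card_le (procP_ok A h hd L Y Q ω.2 ρ) ω.1 0 _ D 1)
      _ = _ := by
          rw [sum_const, sum_const, card_univ, card_univ, Fintype.card_fun (α := Fin R),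
            Fintype.card_bool, Fintype.card_fin, smul_eq_mul, smul_eq_mul]
  have hpos : 0 < 2 ^ R * Fintype.card ((E m → Fin 1 → Fin 1) × Lam m 1 1 Z M N) := by
    apply Nat.mul_pos (by positivity)
    apply Fintype.card_pos_iff.2
    exact ⟨(fun _ _ => 0, fun _ => (false, ⟨0, hZ1⟩), fun _ _ => ⟨0, hM1⟩, fun _ => 0)⟩
  apply Nat.le_of_mul_le_mul_right _ hpos
  calc m ^ 2 * (2 ^ R * Fintype.card ((E m → Fin 1 → Fin 1) × Lam m 1 1 Z M N))
      = m ^ 2 * 2 ^ R * Fintype.card ((E m → Fin 1 → Fin 1) × Lam m 1 1 Z M N) := by ring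
    _ ≤ 16 * ∑ ω : (E m → Fin 1 → Fin 1) × Lam m 1 1 Z M N, ∑ ρ : Fin R → Bool,
        (rvP A h s L Y Q ω ρ).card := key
    _ ≤ 16 * (Fintype.card ((E m → Fin 1 → Fin 1) × Lam m 1 1 Z M N) * (2 ^ R * (s * D))) :=
        Nat.mul_le_mul_left _ hle
    _ = 16 * s * D * (2 ^ R * Fintype.card ((E m → Fin 1 → Fin 1) × Lam m 1 1 Z M N)) := by
        ring

end Pool.Agent.Helper21.DP
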