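import Pool.Agent.Helper21.DP.Main
import Pool.Agent.Helper21.DP.Triv
import Pool.Agent.Helper74.SP.Numeric2

/-!
# The final bound
-/

set_option autoImplicit false

namespace Pool.Agent.Helper21.DP

open Finset
open Pool.Agent.Helper22.ETModel Pool.Agent.Helper22.TSModel Pool.Agent.Helper22.EP
open Pool.Agent.Helper23.SP (pre sg)
open Pool.Agent.Helper8.ZT
open Pool.Agent.Helper21.DS (mt putd DProc Lam strc vl wg gam rp vid cove)

/-- With `NQ ≥ 1`, `d ≤ s / 2`, `q ≤ s`, `q ! ≤ n`, `s ^ 4 ≤ ((60 s) ^ K) ^ 2 ≤ (n / 6) ^ 2`,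
`(16 s (192 NQ (4 s d) + 1)) ^ K ≤ ((60 s) ^ K) ^ 3 NQ ^ K ≤ (n / 6) ^ 3 NQ ^ K` the left side is at
most `24 * 16 * 577 * 385 * n * m ^ 10 * s ^ 4 * (n / 6) ^ 3 * NQ ^ (K + 2) ≤ n ^ 16 NQ ^ (K + 2)`.
See `Pool.Agent.Helper21.DS.size_ok`. -/
theorem size_ok {n m K q d s NQ : ℕ} (hK : 2 ≤ K) (h : 3 * m ≤ n) (hm : 1 ≤ m)
    (hd : 2 * d ≤ s) (hqs : q ≤ s) (hs1 : 1 ≤ s) (hsn : 6 * (60 * s) ^ K ≤ n)
    (hq : q.factorial ≤ n) (hNQ : 1 ≤ NQ) (hsz : NQ ^ (K + 2) ≤ n ^ 284) :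
    24 * q.factorial * m ^ 2 *
      (16 * s * (192 * NQ * ((1 + m ^ 3) * (3 * m ^ 2 * d)) + 1) *
        (16 * s * (192 * NQ * (4 * s * d) + 1)) ^ K) *
      (192 * NQ * ((m ^ 3 + 1) * q * (2 * d)) + 1) ≤ n ^ 300 := by
  have hsn' : (60 * s) ^ K * 6 ≤ n := by rw [mul_comm]; exact hsn
  have hs2 : 21600 * s ^ 2 ≤ n := by
    calc 21600 * s ^ 2 = 6 * (60 * s) ^ 2 := by ring
      _ ≤ 6 * (60 * s) ^ K := Nat.mul_le_mul_left _ (Nat.pow_le_pow_right (by omega) hK)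
      _ ≤ n := hsn
  have hm3 : 1 + m ^ 3 ≤ 2 * m ^ 3 := by
    have : 1 ≤ m ^ 3 := Nat.one_le_pow _ _ hm
    omega
  -- the factors
  have f1 : 192 * NQ * (4 * s * d) + 1 ≤ 385 * NQ * s ^ 2 := by
    have h1 : 192 * NQ * (4 * s * d) ≤ 384 * NQ * s ^ 2 := by
      calc 192 * NQ * (4 * s * d) = 384 * NQ * (s * (2 * d)) := by ring
        _ ≤ 384 * NQ * (s * s) := Nat.mul_le_mul_left _ (Nat.mul_le_mul_left _ hd)
        _ = 384 * NQ * s ^ 2 := by ring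
    have h2 : 1 ≤ NQ * s ^ 2 := Nat.one_le_iff_ne_zero.mpr (by positivity)
    nlinarith only [h1, h2]
  have g1 : 16 * s * (192 * NQ * (4 * s * d) + 1) ≤ (60 * s) ^ 3 * NQ := by
    calc 16 * s * (192 * NQ * (4 * s * d) + 1) ≤ 16 * s * (385 * NQ * s ^ 2) :=
          Nat.mul_le_mul_left _ f1
      _ = 6160 * (s ^ 3 * NQ) := by ring
      _ ≤ 216000 * (s ^ 3 * NQ) := Nat.mul_le_mul_right _ (by norm_num)
      _ = (60 * s) ^ 3 * NQ := by ring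
  have g1k : (16 * s * (192 * NQ * (4 * s * d) + 1)) ^ K ≤ ((60 * s) ^ K) ^ 3 * NQ ^ K := by
    calc (16 * s * (192 * NQ * (4 * s * d) + 1)) ^ K ≤ ((60 * s) ^ 3 * NQ) ^ K :=
          Nat.pow_le_pow_left g1 K
      _ = ((60 * s) ^ K) ^ 3 * NQ ^ K := by
          rw [mul_pow, ← pow_mul, ← pow_mul, mul_comm 3 K]
  have f2 : 192 * NQ * ((1 + m ^ 3) * (3 * m ^ 2 * d)) + 1 ≤ 577 * NQ * (m ^ 5 * s) := by
    have h2 : (1 + m ^ 3) * (3 * m ^ 2 * d) ≤ 3 * (m ^ 5 * s) := by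
      calc (1 + m ^ 3) * (3 * m ^ 2 * d) ≤ 2 * m ^ 3 * (3 * m ^ 2 * d) :=
            Nat.mul_le_mul_right _ hm3
        _ = 3 * (m ^ 5 * (2 * d)) := by ring
        _ ≤ 3 * (m ^ 5 * s) := Nat.mul_le_mul_left _ (Nat.mul_le_mul_left _ hd)
    have h3 : 192 * NQ * ((1 + m ^ 3) * (3 * m ^ 2 * d)) ≤ 192 * NQ * (3 * (m ^ 5 * s)) :=
      Nat.mul_le_mul_left _ h2
    have h4 : 1 ≤ NQ * (m ^ 5 * s) := Nat.one_le_iff_ne_zero.mpr (by positivity)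
    nlinarith only [h3, h4]
  have f3 : 192 * NQ * ((m ^ 3 + 1) * q * (2 * d)) + 1 ≤ 385 * NQ * (m ^ 3 * s ^ 2) := by
    have h2 : (m ^ 3 + 1) * q * (2 * d) ≤ 2 * (m ^ 3 * s ^ 2) := by
      calc (m ^ 3 + 1) * q * (2 * d) ≤ 2 * m ^ 3 * s * s := by
            refine Nat.mul_le_mul (Nat.mul_le_mul ?_ hqs) hd
            omega
        _ = 2 * (m ^ 3 * s ^ 2) := by ring
    have h3 : 192 * NQ * ((m ^ 3 + 1) * q * (2 * d)) ≤ 192 * NQ * (2 * (m ^ 3 * s ^ 2)) :=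
      Nat.mul_le_mul_left _ h2
    have h4 : 1 ≤ NQ * (m ^ 3 * s ^ 2) := Nat.one_le_iff_ne_zero.mpr (by positivity)
    nlinarith only [h3, h4]
  -- the product
  have hT : 24 * q.factorial * m ^ 2 *
      (16 * s * (192 * NQ * ((1 + m ^ 3) * (3 * m ^ 2 * d)) + 1) *
        (16 * s * (192 * NQ * (4 * s * d) + 1)) ^ K) *
      (192 * NQ * ((m ^ 3 + 1) * q * (2 * d)) + 1) ≤
      85303680 * (n * m ^ 10 * s ^ 4 * ((60 * s) ^ K) ^ 3 * NQ ^ (K + 2)) := by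
    calc 24 * q.factorial * m ^ 2 *
          (16 * s * (192 * NQ * ((1 + m ^ 3) * (3 * m ^ 2 * d)) + 1) *
            (16 * s * (192 * NQ * (4 * s * d) + 1)) ^ K) *
          (192 * NQ * ((m ^ 3 + 1) * q * (2 * d)) + 1)
        ≤ 24 * n * m ^ 2 * (16 * s * (577 * NQ * (m ^ 5 * s)) * (((60 * s) ^ K) ^ 3 * NQ ^ K)) *
          (385 * NQ * (m ^ 3 * s ^ 2)) := by
          refine Nat.mul_le_mul (Nat.mul_le_mul ?_ (Nat.mul_le_mul ?_ g1k)) f3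
          · exact Nat.mul_le_mul_right _ (Nat.mul_le_mul_left _ hq)
          · exact Nat.mul_le_mul_left _ f2
      _ = 85303680 * (n * m ^ 10 * s ^ 4 * ((60 * s) ^ K) ^ 3 * NQ ^ (K + 2)) := by
          rw [pow_add]
          ring
  have e1 : 3 ^ 10 * m ^ 10 ≤ n ^ 10 := by
    rw [← mul_pow]
    exact Nat.pow_le_pow_left h 10
  have e2 : 21600 ^ 2 * s ^ 4 ≤ n ^ 2 := by
    calc 21600 ^ 2 * s ^ 4 = (21600 * s ^ 2) ^ 2 := by ring
      _ ≤ n ^ 2 := Nat.pow_le_pow_left hs2 2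
  have e3 : 6 ^ 3 * ((60 * s) ^ K) ^ 3 ≤ n ^ 3 := by
    rw [← mul_pow]
    exact Nat.pow_le_pow_left hsn 3
  have e4 : (3 ^ 10 * 21600 ^ 2 * 6 ^ 3) *
      (n * m ^ 10 * s ^ 4 * ((60 * s) ^ K) ^ 3 * NQ ^ (K + 2)) ≤ n ^ 300 := by
    calc (3 ^ 10 * 21600 ^ 2 * 6 ^ 3) *
          (n * m ^ 10 * s ^ 4 * ((60 * s) ^ K) ^ 3 * NQ ^ (K + 2))
        = n * ((3 ^ 10 * m ^ 10) * (21600 ^ 2 * s ^ 4) * (6 ^ 3 * ((60 * s) ^ K) ^ 3) *
          NQ ^ (K + 2)) := by ring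
      _ ≤ n * (n ^ 10 * n ^ 2 * n ^ 3 * n ^ 284) :=
          Nat.mul_le_mul_left _
            (Nat.mul_le_mul (Nat.mul_le_mul (Nat.mul_le_mul e1 e2) e3) hsz)
      _ = n ^ 300 := by ring
  refine hT.trans (le_trans (Nat.mul_le_mul_right _ ?_) e4)
  norm_num

private theorem dpfinal_bern (M : ℕ) : ∀ j : ℕ, M ^ j * (M + j) ≤ (M + 1) ^ j * M := by
  intro j
  induction j with
  | zero => simp
  | succ j ih =>
    calc M ^ (j + 1) * (M + (j + 1)) = M ^ j * (M * (M + j) + M) := by ring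
      _ ≤ M ^ j * ((M + 1) * (M + j)) := by
          refine Nat.mul_le_mul_left _ ?_
          have : (M + 1) * (M + j) = M * (M + j) + (M + j) := by ring
          omega
      _ = (M + 1) * (M ^ j * (M + j)) := by ring
      _ ≤ (M + 1) * ((M + 1) ^ j * M) := Nat.mul_le_mul_left _ ih
      _ = (M + 1) ^ (j + 1) * M := by ring

private theorem dpfinal_two {N : ℕ} (hN : 1 ≤ N) : 2 * (N - 1) ^ N ≤ N ^ N := by
  obtain ⟨M, rfl⟩ : ∃ M, N = M + 1 := ⟨N - 1, by omega⟩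
  rw [Nat.add_sub_cancel]
  rcases Nat.eq_zero_or_pos M with h0 | hM
  · subst h0
    norm_num
  · have h1 := dpfinal_bern M (M + 1)
    have h2 : M * (2 * M ^ (M + 1)) ≤ M * (M + 1) ^ (M + 1) := by
      calc M * (2 * M ^ (M + 1)) = M ^ (M + 1) * (M + M) := by ring
        _ ≤ M ^ (M + 1) * (M + (M + 1)) := Nat.mul_le_mul_left _ (by omega)
        _ ≤ (M + 1) ^ (M + 1) * M := h1
        _ = M * (M + 1) ^ (M + 1) := by ring
    exact Nat.le_of_mul_le_mul_left h2 hM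

/-- Number of rounds: `J = 2 ^ q s0`, because `2 (2 ^ q - 1) ^ (2 ^ q) ≤ (2 ^ q) ^ (2 ^ q)`
(Bernoulli). -/
theorem rounds_ok {q s0 NQ : ℕ} (h : 192 * NQ ≤ 2 ^ s0) :
    192 * NQ * (2 ^ q - 1) ^ (2 ^ q * s0) ≤ (2 ^ q) ^ (2 ^ q * s0) := by
  have h1 : 2 * (2 ^ q - 1) ^ (2 ^ q) ≤ (2 ^ q) ^ (2 ^ q) :=
    dpfinal_two (Nat.one_le_two_pow)
  calc 192 * NQ * (2 ^ q - 1) ^ (2 ^ q * s0) ≤ 2 ^ s0 * (2 ^ q - 1) ^ (2 ^ q * s0) :=
        Nat.mul_le_mul_right _ h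
    _ = (2 * (2 ^ q - 1) ^ (2 ^ q)) ^ s0 := by rw [mul_pow, ← pow_mul]
    _ ≤ ((2 ^ q) ^ (2 ^ q)) ^ s0 := Nat.pow_le_pow_left h1 s0
    _ = (2 ^ q) ^ (2 ^ q * s0) := by rw [← pow_mul (2 ^ q) (2 ^ q) s0]

/-- The quantitative bound. Proof: as `Pool.Agent.Helper23.SP.quantitative2` (`Helper23/SP/Final2.lean`)
with `K = 2 k` levels: `m = n / 3`, `m' = m / 2`; apply `Pool.Agent.Helper74.SP.numeric2` with `m'` in
place of `m` and `2 k` in place of `k` (its hypotheses follow from `main_bound` and `trivial_bound`,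
since `4 m' ^ 2 ≤ m ^ 2`, `2 (60 β t) ^ K ≤ 2 m' ≤ m`), `t` the least number with `m ≤ 2 ^ t`, so
`t ≤ 2 log n`; `n ≤ 11 m'`, `11 ^ 3 * 6 ≤ 90 ^ (2 k)`, `90 * 240 ≤ 2 ^ 15`. If `D > n ^ 3` there is
nothing to prove. `J = 2 ^ q * s0`. -/
theorem quantitative {n q k d s s0 x NQ D W R : ℕ} (hk : 1 ≤ k) (hd : 2 * d ≤ s)
    (hs1 : 1 ≤ s) (hqs : q * 2 ^ q * s0 ≤ s) (hsx : s ≤ x) (hq : q.factorial ≤ n)
    (hNQ0 : 1 ≤ NQ) (hNQ : 192 * NQ ≤ 2 ^ s0) (hsz : NQ ^ (2 * k + 2) ≤ n ^ 284)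
    (hsn : 6 * (60 * s) ^ (2 * k) ≤ n) (hx : 2 ^ 7 * n ^ 4 * W ≤ 2 ^ x)
    (A : Alg n D W R (PolyQ n q d) SignType) (hP : HasPool A NQ)
    (hA : A.Decides (polyFam n q d)) :
    (n : ℝ) ^ (3 - 1 / (k : ℝ)) ≤ (2 ^ 15 * Real.logb 2 n) ^ (2 * k) * s * x * D := by
  have hn6 : 6 * (60 * s) ^ (2 * k) ≤ n := hsn
  have hn21600 : 21600 ≤ n := by
    have h1 : 60 ^ 2 ≤ (60 * s) ^ (2 * k) := by
      calc 60 ^ 2 ≤ (60 * s) ^ 2 := Nat.pow_le_pow_left (by omega) 2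
        _ ≤ (60 * s) ^ (2 * k) := Nat.pow_le_pow_right (by omega) (by omega)
    omega
  have hkn : 6 * (2 * k) ≤ n := by
    have h1 : 2 * k < 2 ^ (2 * k) := Nat.lt_two_pow_self
    have h2 : 2 ^ (2 * k) ≤ (60 * s) ^ (2 * k) := Nat.pow_le_pow_left (by omega) _
    omega
  obtain ⟨m, hmdef⟩ : ∃ m, m = n / 3 := ⟨_, rfl⟩
  obtain ⟨m', hm'def⟩ : ∃ m', m' = m / 2 := ⟨_, rfl⟩
  have h3m : 3 * m ≤ n := by omega
  have hm : 2 ≤ m := by omega
  have hm' : 1 ≤ m' := by omega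
  have h2m' : 2 * m' ≤ m := by omega
  have hn11 : n ≤ 11 * m' := by omega
  have hx1 : 1 ≤ x := hs1.trans hsx
  have hn1 : (1 : ℝ) ≤ n := by exact_mod_cast (show 1 ≤ n by omega)
  have hm1 : (1 : ℝ) ≤ m' := by exact_mod_cast hm'
  have hk1 : (1 : ℝ) ≤ k := by exact_mod_cast hk
  have hs1R : (1 : ℝ) ≤ s := by exact_mod_cast hs1
  have hxr : (1 : ℝ) ≤ x := by exact_mod_cast hx1
  have hD0 : (0 : ℝ) ≤ D := Nat.cast_nonneg D
  have hlogn : 1 ≤ Real.logb 2 n := by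
    rw [Real.le_logb_iff_rpow_le (by norm_num) (by linarith), Real.rpow_one]
    have : (2 : ℝ) ≤ n := by exact_mod_cast (show 2 ≤ n by omega)
    linarith
  have hexp0 : 0 ≤ 3 - 1 / (k : ℝ) := by
    have : 1 / (k : ℝ) ≤ 1 := by
      rw [div_le_one (by linarith)]; exact hk1
    linarith
  have hexp3 : 3 - 1 / (k : ℝ) ≤ 3 := by
    have : 0 ≤ 1 / (k : ℝ) := by positivity
    linarith
  -- the conditions
  have hs0 : 1 ≤ s0 := by
    by_contra h0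
    have h1 : s0 = 0 := by omega
    rw [h1] at hNQ
    omega
  have hqs' : q ≤ s := by
    calc q = q * 1 * 1 := by ring
      _ ≤ q * 2 ^ q * s0 := Nat.mul_le_mul (Nat.mul_le_mul_left _ Nat.one_le_two_pow) hs0
      _ ≤ s := hqs
  have hJ : q * (2 ^ q * s0) ≤ s := by
    rw [← mul_assoc]; exact hqs
  have hrounds := rounds_ok (q := q) hNQ
  have hsize := size_ok (K := 2 * k) (by omega) h3m (by omega) hd hqs' hs1 hsn hq hNQ0 hsz
  have htriv := trivial_bound h3m hm hs1 (k := 2 * k) (by omega) hd hJ hrounds hsize A hP hA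
  -- large number of queries
  by_cases hD : n ^ 3 < D
  · have h1 : (n : ℝ) ^ (3 - 1 / (k : ℝ)) ≤ (n : ℝ) ^ (3 : ℝ) :=
      Real.rpow_le_rpow_of_exponent_le hn1 hexp3
    have h2 : (n : ℝ) ^ (3 : ℝ) ≤ D := by
      have : ((n ^ 3 : ℕ) : ℝ) ≤ D := by exact_mod_cast hD.le
      push_cast at this
      calc (n : ℝ) ^ (3 : ℝ) = (n : ℝ) ^ (3 : ℕ) := by norm_cast
        _ ≤ D := this
    have h3 : (1 : ℝ) ≤ (2 ^ 15 * Real.logb 2 n) ^ (2 * k) := one_le_pow₀ (by nlinarith)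
    have h4 : (1 : ℝ) ≤ (2 ^ 15 * Real.logb 2 n) ^ (2 * k) * s * x :=
      one_le_mul_of_one_le_of_one_le (one_le_mul_of_one_le_of_one_le h3 hs1R) hxr
    exact (h1.trans h2).trans (le_mul_of_one_le_left hD0 h4)
  push Not at hD
  -- the parameter `t`
  obtain ⟨t, htdef⟩ : ∃ t, t = Nat.clog 2 m := ⟨_, rfl⟩
  have ht2 : m ≤ 2 ^ t := by rw [htdef]; exact Nat.le_pow_clog (by norm_num) _
  have ht1 : 1 ≤ t := by rw [htdef]; exact Nat.clog_pos (by norm_num) (by omega)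
  have htle : (t : ℝ) ≤ 2 * Real.logb 2 n := by
    have h1 := Nat.pow_pred_clog_lt_self (b := 2) (x := m) (by norm_num) (by omega)
    rw [← htdef] at h1
    have h2 : (t : ℝ) - 1 ≤ Real.logb 2 n := by
      rw [Real.le_logb_iff_rpow_le (by norm_num) (by positivity)]
      have h3 : ((2 ^ t.pred : ℕ) : ℝ) ≤ ((n : ℕ) : ℝ) := by
        have : 2 ^ t.pred ≤ n := h1.le.trans (by omega)
        exact_mod_cast this
      push_cast at h3
      calc (2 : ℝ) ^ ((t : ℝ) - 1) = (2 : ℝ) ^ t.pred := by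
            rw [← Real.rpow_natCast]
            congr 1
            rw [Nat.pred_eq_sub_one, Nat.cast_sub ht1, Nat.cast_one]
        _ ≤ n := h3
    linarith
  have hsq : 4 * m' ^ 2 ≤ m ^ 2 := by
    calc 4 * m' ^ 2 = (2 * m') ^ 2 := by ring
      _ ≤ m ^ 2 := Nat.pow_le_pow_left h2m' 2
  -- the bound for `m'`
  have hnum : (m' : ℝ) ^ (3 - 2 / ((2 * k : ℕ) : ℝ)) ≤
      6 * (120 * (t : ℝ)) ^ (2 * k) * s * x * D := by
    apply Pool.Agent.Helper74.SP.numeric2 hm' hs1 hsx (by omega) ht1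
    · have h1 : 16 * s * D = 4 * (4 * s * D) := by ring
      have h2 : 4 * s * D ≤ 6 * s * D := Nat.mul_le_mul_right _ (Nat.mul_le_mul_right _ (by norm_num))
      omega
    intro β l r0 N hβ hl1 hl hbk hr0 hr01 hN hN'
    have hmb := main_bound h3m (k := 2 * k) hs1 (by omega) hβ ht1 hl1 hl hd (by omega) ht2 hr0 hr01
      hN (hN'.trans (by omega)) (by
        have h5 : D + m ≤ 2 * n ^ 3 := by
          have h6 : m ≤ n ^ 3 := by
            calc m ≤ n := by omega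
              _ ≤ n ^ 3 := Nat.le_self_pow (by omega) _
          omega
        calc 192 * ((D + m) * W * (2 * k)) ≤ 192 * (2 * n ^ 3 * W * (2 * k)) :=
              Nat.mul_le_mul_left _ (Nat.mul_le_mul_right _ (Nat.mul_le_mul_right _ h5))
          _ = 64 * (n ^ 3 * W) * (6 * (2 * k)) := by ring
          _ ≤ 64 * (n ^ 3 * W) * n := Nat.mul_le_mul_left _ hkn
          _ = 64 * (n ^ 4 * W) := by ring
          _ ≤ 128 * (n ^ 4 * W) := Nat.mul_le_mul_right _ (by norm_num)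
          _ = 2 ^ 7 * n ^ 4 * W := by ring
          _ ≤ 2 ^ x := hx)
      hJ hrounds hsize A hP hA
    have h1 : 192 * x * N = 4 * (48 * x * N) := by ring
    have h2 : 48 * x * N ≤ 72 * x * N :=
      Nat.mul_le_mul_right _ (Nat.mul_le_mul_right _ (by norm_num))
    omega
  have hexp : 3 - 2 / ((2 * k : ℕ) : ℝ) = 3 - 1 / (k : ℝ) := by
    push_cast
    have : (k : ℝ) ≠ 0 := by positivity
    field_simp
  rw [hexp] at hnum
  -- conclusion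
  have h1 : (n : ℝ) ^ (3 - 1 / (k : ℝ)) ≤ (11 * (m' : ℝ)) ^ (3 - 1 / (k : ℝ)) := by
    apply Real.rpow_le_rpow (by linarith) _ hexp0
    exact_mod_cast hn11
  have h2 : (11 * (m' : ℝ)) ^ (3 - 1 / (k : ℝ)) ≤ 1331 * (m' : ℝ) ^ (3 - 1 / (k : ℝ)) := by
    rw [Real.mul_rpow (by norm_num) (by linarith)]
    apply mul_le_mul_of_nonneg_right _ (by positivity)
    calc (11 : ℝ) ^ (3 - 1 / (k : ℝ)) ≤ (11 : ℝ) ^ (3 : ℝ) :=
          Real.rpow_le_rpow_of_exponent_le (by norm_num) hexp3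
      _ = 1331 := by norm_num
  have h3 : (7986 : ℝ) ≤ 90 ^ (2 * k) := by
    calc (7986 : ℝ) ≤ 90 ^ 2 := by norm_num
      _ ≤ 90 ^ (2 * k) := pow_le_pow_right₀ (by norm_num) (by omega)
  have hsxD : 0 ≤ (s : ℝ) * x * D := by positivity
  have h4 : (120 * (t : ℝ)) ^ (2 * k) ≤ (240 * Real.logb 2 n) ^ (2 * k) := by
    apply pow_le_pow_left₀ (by positivity)
    linarith
  calc (n : ℝ) ^ (3 - 1 / (k : ℝ)) ≤ 1331 * (m' : ℝ) ^ (3 - 1 / (k : ℝ)) := h1.trans h2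
    _ ≤ 1331 * (6 * (120 * (t : ℝ)) ^ (2 * k) * s * x * D) :=
        mul_le_mul_of_nonneg_left hnum (by norm_num)
    _ = 7986 * (120 * (t : ℝ)) ^ (2 * k) * (s * x * D) := by ring
    _ ≤ 90 ^ (2 * k) * (240 * Real.logb 2 n) ^ (2 * k) * (s * x * D) := by
        apply mul_le_mul_of_nonneg_right _ hsxD
        exact mul_le_mul h3 h4 (by positivity) (by positivity)
    _ = (90 * (240 * Real.logb 2 n)) ^ (2 * k) * (s * x * D) := by rw [mul_pow 90]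
    _ ≤ (2 ^ 15 * Real.logb 2 n) ^ (2 * k) * (s * x * D) := by
        apply mul_le_mul_of_nonneg_right _ hsxD
        apply pow_le_pow_left₀ (by positivity)
        nlinarith
    _ = (2 ^ 15 * Real.logb 2 n) ^ (2 * k) * s * x * D := by ring

end Pool.Agent.Helper21.DP
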