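import Pool.Agent.Helper21.DP.Trans
import Pool.Agent.Helper21.DP.Proc
import Pool.Agent.Helper21.DS.Win

/-!
# The bound before the choice of the parameters
-/

set_option autoImplicit false

namespace Pool.Agent.Helper21.DP

open Finset
open Pool.Agent.Helper22.ETModel Pool.Agent.Helper22.TSModel Pool.Agent.Helper22.EP
open Pool.Agent.Helper23.SP (pre sg)
open Pool.Agent.Helper8.ZT
open Pool.Agent.Helper21.DS (mt putd DProc Lam strc vl wg gam rp vid cove)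

variable {m n q k d D W R : ℕ}

/-- The main bound: as `Pool.Agent.Helper21.DS.main_bound` (`DS/Main.lean`) with windows of length
`l * β ^ (k - r0)` and `6 * x` revealed elements per window, see
`Pool.Agent.Helper23.SP.main_bound2`. From `transferP`, `DS.window_main` (with `b = 60 * β * t`),
`DS.rev_mul_card`. Choose `M = 192 NQ (4 s d) + 1`, `Z = 192 NQ (m ^ 3 + 1) q (2 d) + 1`,
`N = 192 NQ (1 + m ^ 3) 3 m ^ 2 d`, `L = 16 s (N + 1)`, `Y = 16 s M`,
`Q = 24 q ! m ^ 2 L Y ^ k`. -/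
theorem main_bound (h : 3 * m ≤ n) {NQ J β s x t l r0 Nw : ℕ} (hs : 1 ≤ s) (hk : 1 ≤ k)
    (hβ : 1 ≤ β) (ht : 1 ≤ t) (hl1 : 1 ≤ l) (hl : s * l ≤ x) (hd : 2 * d ≤ s)
    (hbk : 2 * (60 * β * t) ^ k ≤ m) (ht2 : m ≤ 2 ^ t) (hr0 : r0 ≤ k)
    (hr01 : 20 * x * β ≤ (60 * β * t) ^ r0)
    (hN : D ≤ Nw * (l * β ^ (k - r0))) (hN' : Nw * (l * β ^ (k - r0)) ≤ D + m)
    (hx : 192 * ((D + m) * W * k) ≤ 2 ^ x) (hJ : q * J ≤ s)
    (hNQ : 192 * NQ * (2 ^ q - 1) ^ J ≤ (2 ^ q) ^ J)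
    (hsz : 24 * q.factorial * m ^ 2 *
      (16 * s * (192 * NQ * ((1 + m ^ 3) * (3 * m ^ 2 * d)) + 1) *
        (16 * s * (192 * NQ * (4 * s * d) + 1)) ^ k) *
      (192 * NQ * ((m ^ 3 + 1) * q * (2 * d)) + 1) ≤ n ^ 300)
    (A : Alg n D W R (PolyQ n q d) SignType) (hP : HasPool A NQ)
    (hA : A.Decides (polyFam n q d)) :
    m ^ 2 ≤ 192 * x * Nw := by
  classical
  have hx1 : 1 ≤ x := le_trans (Nat.mul_pos hs hl1) hl
  obtain ⟨b, hb⟩ : ∃ b, b = 60 * β * t := ⟨_, rfl⟩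
  have hb1 : 1 ≤ b := by
    rw [hb]; exact Nat.mul_pos (Nat.mul_pos (by omega) hβ) ht
  have : NeZero b := ⟨by omega⟩
  rw [← hb] at hbk hr01
  have hbk1 : 1 ≤ b ^ k := Nat.pow_pos hb1
  have hm : 1 ≤ m := by omega
  have h2x : 0 < 2 ^ x := by positivity
  obtain ⟨M, hM⟩ : ∃ M, M = 192 * NQ * (4 * s * d) + 1 := ⟨_, rfl⟩
  obtain ⟨Z, hZ⟩ : ∃ Z, Z = 192 * NQ * ((m ^ 3 + 1) * q * (2 * d)) + 1 := ⟨_, rfl⟩
  obtain ⟨N, hNN⟩ : ∃ N, N = 192 * NQ * ((1 + m ^ 3) * (3 * m ^ 2 * d)) := ⟨_, rfl⟩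
  obtain ⟨L, hL⟩ : ∃ L, L = 16 * s * (N + 1) := ⟨_, rfl⟩
  obtain ⟨Y, hY⟩ : ∃ Y, Y = 16 * s * M := ⟨_, rfl⟩
  obtain ⟨Q, hQ⟩ : ∃ Q, Q = 24 * q.factorial * m ^ 2 * (L * Y ^ k) := ⟨_, rfl⟩
  have hLe : Even L := by
    rw [hL]
    exact ⟨8 * s * (N + 1), by ring⟩
  have hQe : Even Q := by
    rw [hQ]
    exact ⟨12 * q.factorial * m ^ 2 * (L * Y ^ k), by ring⟩
  have hQZ : Q * Z ≤ n ^ 300 := by
    rw [hQ, hZ, hL, hY, hM, hNN]
    exact hsz
  have key := transferP (k := k) (b := b) (Z := Z) (M := M) (N := N) h hm (NQ := NQ) (J := J)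
    (L := L) (Y := Y) (Q := Q) hs hbk hL.symm.le hY.symm.le hQ.symm.le hLe hQe hQZ hJ hNQ
    (by omega) (by omega) (by omega) (by omega) (by omega) A hP hA
  obtain ⟨Dg, hDg⟩ : ∃ c, c = Fintype.card (E m → Fin k → Fin b) := ⟨_, rfl⟩
  obtain ⟨Lm, hLm⟩ : ∃ c, c = Fintype.card (Lam m k b Z M N) := ⟨_, rfl⟩
  have hDgpos : 0 < Dg := by
    rw [hDg]
    exact Fintype.card_pos_iff.2 ⟨fun _ _ => 0⟩
  have hLmpos : 0 < Lm := by
    rw [hLm]
    exact Fintype.card_pos_iff.2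
      ⟨(fun _ => (false, ⟨0, by omega⟩), fun _ _ => ⟨0, by omega⟩, fun _ => 0)⟩
  -- one background and one random string
  have hone : ∀ (lam : Lam m k b Z M N) (ρ : Fin R → Bool),
      96 * ∑ dg : E m → Fin k → Fin b, (rvP A h s L Y Q (dg, lam) ρ).card ≤
      Dg * (576 * (x * Nw) + m ^ 2) := by
    intro lam ρ
    obtain ⟨Bad, hBad, hgood⟩ := DS.window_main
      (procP (k := k) (b := b) A h s L Y Q lam ρ) (procP_ok A h hd L Y Q lam ρ)
      (x := x) (β := β) (t := t) (l := l) (T := D + m) (r0 := r0) hx1 hβ ht hl hb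
      (hbk.trans ht2) hr0 hr01
    rw [← hDg] at hBad
    have hBad96 : 96 * Bad.card ≤ Dg := by
      apply Nat.le_of_mul_le_mul_right _ h2x
      calc 96 * Bad.card * 2 ^ x = 96 * (Bad.card * 2 ^ x) := by ring
        _ ≤ 96 * (2 * (D + m) * W * k * Dg) := Nat.mul_le_mul_left _ hBad
        _ = 192 * ((D + m) * W * k) * Dg := by ring
        _ ≤ 2 ^ x * Dg := Nat.mul_le_mul_right _ hx
        _ = Dg * 2 ^ x := by ring
    have hcard : ∀ dg : E m → Fin k → Fin b, (rvP A h s L Y Q (dg, lam) ρ).card ≤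
        6 * x * Nw + (if dg ∈ Bad then m ^ 2 else 0) := by
      intro dg
      by_cases hω : dg ∈ Bad
      · rw [if_pos hω]
        exact (rvP_card_le' A h s L Y Q (dg, lam) ρ).trans (Nat.le_add_left _ _)
      · rw [if_neg hω, Nat.add_zero]
        refine (rvP_card_le A h s L Y Q (dg, lam) ρ).trans ?_
        refine (card_le_card (DS.rev_mono _ dg 0 _ hN le_rfl)).trans ?_
        have := DS.rev_mul_card (procP (k := k) (b := b) A h s L Y Q lam ρ) dg 0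
          (A.init (flagOf h) ρ) Nw (l * β ^ (k - r0)) k (6 * x) (by
            intro j hj
            apply hgood dg hω
            have h3 : (j + 1) * (l * β ^ (k - r0)) ≤ Nw * (l * β ^ (k - r0)) :=
              Nat.mul_le_mul_right _ hj
            have h4 : (j + 1) * (l * β ^ (k - r0)) =
              j * (l * β ^ (k - r0)) + l * β ^ (k - r0) := by ring
            omega)
        calc _ ≤ Nw * (6 * x) := this
          _ = 6 * x * Nw := by ring
    have hsum : ∑ dg : E m → Fin k → Fin b, (rvP A h s L Y Q (dg, lam) ρ).card ≤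
        Dg * (6 * x * Nw) + Bad.card * m ^ 2 := by
      refine (sum_le_sum (fun dg _ => hcard dg)).trans ?_
      rw [sum_add_distrib, sum_const, card_univ, smul_eq_mul, Finset.sum_ite_mem, univ_inter,
        sum_const, smul_eq_mul, hDg]
    calc 96 * ∑ dg : E m → Fin k → Fin b, (rvP A h s L Y Q (dg, lam) ρ).card
        ≤ 96 * (Dg * (6 * x * Nw) + Bad.card * m ^ 2) := Nat.mul_le_mul_left _ hsum
      _ = Dg * (576 * (x * Nw)) + (96 * Bad.card) * m ^ 2 := by ring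
      _ ≤ Dg * (576 * (x * Nw)) + Dg * m ^ 2 :=
          Nat.add_le_add_left (Nat.mul_le_mul_right _ hBad96) _
      _ = Dg * (576 * (x * Nw) + m ^ 2) := by ring
  have hpos : 0 < 2 ^ R * (Dg * Lm) :=
    Nat.mul_pos (by positivity) (Nat.mul_pos hDgpos hLmpos)
  have hcardprod : Fintype.card ((E m → Fin k → Fin b) × Lam m k b Z M N) = Dg * Lm := by
    rw [Fintype.card_prod, hDg, hLm]
  rw [hcardprod] at key
  have htot : 6 * m ^ 2 * (2 ^ R * (Dg * Lm)) ≤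
      (576 * (x * Nw) + m ^ 2) * (2 ^ R * (Dg * Lm)) := by
    calc 6 * m ^ 2 * (2 ^ R * (Dg * Lm)) = 6 * (m ^ 2 * 2 ^ R * (Dg * Lm)) := by ring
      _ ≤ 6 * (16 * ∑ ω : (E m → Fin k → Fin b) × Lam m k b Z M N, ∑ ρ : Fin R → Bool,
            (rvP A h s L Y Q ω ρ).card) := Nat.mul_le_mul_left _ key
      _ = 96 * ∑ ω : (E m → Fin k → Fin b) × Lam m k b Z M N, ∑ ρ : Fin R → Bool,
            (rvP A h s L Y Q ω ρ).card := by ring
      _ = ∑ ρ : Fin R → Bool, ∑ lam : Lam m k b Z M N,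
            96 * ∑ dg : E m → Fin k → Fin b, (rvP A h s L Y Q (dg, lam) ρ).card := by
          rw [sum_comm, mul_sum]
          apply sum_congr rfl
          intro ρ _
          rw [Fintype.sum_prod_type_right, mul_sum]
      _ ≤ ∑ _ρ : Fin R → Bool, ∑ _lam : Lam m k b Z M N, Dg * (576 * (x * Nw) + m ^ 2) :=
          sum_le_sum (fun ρ _ => sum_le_sum (fun lam _ => hone lam ρ))
      _ = (576 * (x * Nw) + m ^ 2) * (2 ^ R * (Dg * Lm)) := by
          rw [sum_const, sum_const, card_univ, card_univ, Fintype.card_fun, Fintype.card_bool,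
            Fintype.card_fin, smul_eq_mul, smul_eq_mul, ← hLm]
          ring
  have h6 := Nat.le_of_mul_le_mul_right htot hpos
  have h7 : 192 * x * Nw = 192 * (x * Nw) := by ring
  rw [h7]
  omega

end Pool.Agent.Helper21.DP
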