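import Mathlib
import Pool.Agent.Helper22.ETModel
import Pool.Agent.Helper22.TSModel

/-!
# Algorithms with small memory and real registers: dense algebraic queries

Definitions only.
-/

set_option autoImplicit false

namespace Pool.Agent.Helper21.DP

open Pool.Agent.Helper22.ETModel

/-- A real affine form in all the weights. -/
structure Form (n : ℕ) where
  cst : ℝ
  coef : Fin n × Fin n → ℝ

/-- The value of a form on an instance. -/
noncomputable def Form.val {n : ℕ} (F : Form n) (I : Inst n) : ℝ :=
  F.cst + ∑ p : Fin n × Fin n, F.coef p * (I.wt p.1 p.2 : ℝ)

/-- The queries. An argument of a query is the content of one of the `r` registers or the value of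
an affine form in all the weights.
`sign g a` asks for the sign of the value of the polynomial `g` with real coefficients and total
degree at most `d` at the `q` arguments `a`;
`zero f a` is a zero test of the polynomial `f` with real coefficients and total degree at most `d`
in all the weights and the `q` arguments `a`. -/
inductive RQ (n q d r : ℕ)
  | sign (g : MvPolynomial (Fin q) ℝ) (hg : g.totalDegree ≤ d) (a : Fin q → Fin r ⊕ Form n)
  | zero (f : MvPolynomial ((Fin n × Fin n) ⊕ Fin q) ℝ) (hf : f.totalDegree ≤ d)
      (a : Fin q → Fin r ⊕ Form n)

variable {n q d D W r R : ℕ}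

/-- The value of an argument, when `x` are the contents of the registers. -/
noncomputable def arg (I : Inst n) (x : Fin r → ℝ) : Fin r ⊕ Form n → ℝ
  | .inl i => x i
  | .inr F => F.val I

open Classical in
/-- The answer of a query. The answer of a zero test is `0` if the polynomial vanishes and `1`
otherwise. -/
noncomputable def RQ.ans (Q : RQ n q d r) (I : Inst n) (x : Fin r → ℝ) : SignType :=
  match Q with
  | .sign g _ a => SignType.sign (MvPolynomial.eval (fun i => arg I x (a i)) g)
  | .zero f _ a => if MvPolynomial.eval (Sum.elim (fun p : Fin n × Fin n => (I.wt p.1 p.2 : ℝ))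
      (fun i => arg I x (a i))) f = 0 then 0 else 1

/-- A randomized adaptive algorithm on `n`-vertex instances with `W` memory states and `r` real
registers, which makes `D` steps. In every step all registers are rewritten: the new content of a
register is the old content of a register or the value of an affine form in all the weights; then
one query is asked. Everything may depend in an arbitrary way on the flags, the random bits, the
time and the current memory state. -/
structure RegAlg (n q d D W r R : ℕ) where
  init : (Fin n → Fin n → Bool) → (Fin R → Bool) → Fin W
  upd : (Fin n → Fin n → Bool) → (Fin R → Bool) → ℕ → Fin W → Fin r → Fin r ⊕ Form n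
  ask : (Fin n → Fin n → Bool) → (Fin R → Bool) → ℕ → Fin W → RQ n q d r
  next : (Fin n → Fin n → Bool) → (Fin R → Bool) → ℕ → Fin W → SignType → Fin W
  out : (Fin n → Fin n → Bool) → (Fin R → Bool) → Fin W → Bool

/-- The memory state and the contents of the registers after `t` steps. In the beginning all
registers contain `0`. -/
noncomputable def RegAlg.conf (A : RegAlg n q d D W r R) (I : Inst n) (ρ : Fin R → Bool) :
    ℕ → Fin W × (Fin r → ℝ)
  | 0 => (A.init I.flag ρ, fun _ => 0)
  | t + 1 =>
    let v := (A.conf I ρ t).1
    let x : Fin r → ℝ := fun i => arg I (A.conf I ρ t).2 (A.upd I.flag ρ t v i)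
    (A.next I.flag ρ t v ((A.ask I.flag ρ t v).ans I x), x)

/-- The output after `D` steps. -/
noncomputable def RegAlg.output (A : RegAlg n q d D W r R) (I : Inst n) (ρ : Fin R → Bool) :
    Bool :=
  A.out I.flag ρ (A.conf I ρ D).1

open Classical in
/-- The algorithm decides Exact Triangle with bounded error: on every valid instance the output
is correct with probability at least `2/3` over the random bits. -/
def RegAlg.Decides (A : RegAlg n q d D W r R) : Prop :=
  ∀ I : Inst n, I.Valid →
    2 * 2 ^ R ≤
      3 * (Finset.univ.filter fun ρ : Fin R → Bool => (A.output I ρ = true ↔ I.Yes)).card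

/-- For all flags and random bits: at all times and in all memory states together at most `NL`
different forms are written into registers, and at most `NQ` different queries are asked. -/
structure RegAlg.Vocab (A : RegAlg n q d D W r R) (NL NQ : ℕ) : Prop where
  load : ∀ fl ρ, ∃ S : Finset (Form n), S.card ≤ NL ∧
    ∀ t v i F, t < D → A.upd fl ρ t v i = Sum.inr F → F ∈ S
  ask : ∀ fl ρ, ∃ S : Finset (RQ n q d r), S.card ≤ NQ ∧ ∀ t v, t < D → A.ask fl ρ t v ∈ S

end Pool.Agent.Helper21.DP
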