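import Pool.Agent.Helper21.DP.Defs

/-!
# Registers are simulated by memory states
-/

set_option autoImplicit false

namespace Pool.Agent.Helper21.DP

open Finset
open Pool.Agent.Helper22.ETModel Pool.Agent.Helper22.TSModel Pool.Agent.Helper22.EP
open Pool.Agent.Helper23.SP (pre sg)
open Pool.Agent.Helper8.ZT
open Pool.Agent.Helper21.DS (mt putd DProc Lam strc vl wg gam rp vid cove)

variable {n q d D W r R : ℕ}

/-! ### The simulation -/

/-- The zero form. -/
private def regSimZro (n : ℕ) : Form n := ⟨0, fun _ => 0⟩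

private lemma regSim_val_zro (I : Inst n) : (regSimZro n).val I = 0 := by
  unfold regSimZro Form.val
  simp

/-- The form as a polynomial. -/
private noncomputable def regSimPoly (F : Form n) : MvPolynomial (Fin n × Fin n) ℝ :=
  MvPolynomial.C F.cst + ∑ p : Fin n × Fin n, MvPolynomial.C (F.coef p) * MvPolynomial.X p

private lemma regSim_eval_poly (F : Form n) (I : Inst n) :
    MvPolynomial.eval (fun p => (I.wt p.1 p.2 : ℝ)) (regSimPoly F) = F.val I := by
  unfold regSimPoly Form.val
  rw [map_add, map_sum, MvPolynomial.eval_C]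
  congr 1
  refine sum_congr rfl fun p _ => ?_
  rw [map_mul, MvPolynomial.eval_C, MvPolynomial.eval_X]

private lemma regSim_deg_poly (F : Form n) : (regSimPoly F).totalDegree ≤ 1 := by
  unfold regSimPoly
  refine (MvPolynomial.totalDegree_add _ _).trans (max_le ?_ ?_)
  · rw [MvPolynomial.totalDegree_C]
    exact Nat.zero_le _
  · apply MvPolynomial.totalDegree_finsetSum_le
    intro p _
    refine (MvPolynomial.totalDegree_mul _ _).trans ?_
    rw [MvPolynomial.totalDegree_C, MvPolynomial.totalDegree_X]

/-- The substitution of the arguments. -/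
private noncomputable def regSimSbs (fr : Fin q → Form n) :
    (Fin n × Fin n) ⊕ Fin q → MvPolynomial (Fin n × Fin n) ℝ :=
  Sum.elim MvPolynomial.X fun i => regSimPoly (fr i)

private lemma regSim_sbs_deg (fr : Fin q → Form n) (x : (Fin n × Fin n) ⊕ Fin q) :
    (regSimSbs fr x).totalDegree ≤ 1 := by
  rcases x with p | i
  · show (MvPolynomial.X p : MvPolynomial (Fin n × Fin n) ℝ).totalDegree ≤ 1
    rw [MvPolynomial.totalDegree_X]
  · exact regSim_deg_poly (fr i)

/-- The form with a given number in the vocabulary. -/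
private def regSimOf {NL : ℕ} (voc : Fin NL → Form n) (c : Option (Fin NL)) : Form n :=
  c.elim (regSimZro n) voc

/-- The form which is the value of an argument, when the content of the register has the number `c`.
-/
private def regSimArg {NL : ℕ} (voc : Fin NL → Form n) (a : Fin r ⊕ Form n)
    (c : Option (Fin NL)) : Form n :=
  match a with
  | .inl _ => regSimOf voc c
  | .inr F => F

/-- The numbers of the contents of the arguments. -/
private def regSimCont {NL : ℕ} (ℓ : Fin r → Option (Fin NL)) (a : Fin q → Fin r ⊕ Form n) :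
    Fin q → Option (Fin NL) := fun i =>
  match a i with
  | .inl j => ℓ j
  | .inr _ => none

/-- The arguments of a query. -/
private def regSimArgs : RQ n q d r → Fin q → Fin r ⊕ Form n
  | .sign _ _ a => a
  | .zero _ _ a => a

/-- The query after the substitution of the registers. -/
private noncomputable def regSimTr {NL : ℕ} (voc : Fin NL → Form n) (c : Fin q → Option (Fin NL)) :
    RQ n q d r → PolyQ n q d
  | .sign g hg a => .sign g hg fun i => regSimArg voc (a i) (c i)
  | .zero f hf a => .zero (MvPolynomial.aeval (regSimSbs fun i => regSimArg voc (a i) (c i)) f)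
      ((totalDegree_aeval_le (regSimSbs fun i => regSimArg voc (a i) (c i))
        (regSim_sbs_deg fun i => regSimArg voc (a i) (c i)) f).trans hf)

private lemma regSim_arg {NL : ℕ} (voc : Fin NL → Form n) (ℓ : Fin r → Option (Fin NL))
    (I : Inst n) (x : Fin r → ℝ) (hx : ∀ i, (regSimOf voc (ℓ i)).val I = x i)
    (a : Fin q → Fin r ⊕ Form n) (i : Fin q) :
    (regSimArg voc (a i) (regSimCont ℓ a i)).val I = arg I x (a i) := by
  unfold regSimCont
  rcases hai : a i with j | F
  · exact hx j
  · rfl

private lemma regSim_ans {NL : ℕ} (voc : Fin NL → Form n) (ℓ : Fin r → Option (Fin NL))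
    (Q : RQ n q d r) (I : Inst n) (x : Fin r → ℝ) (hx : ∀ i, (regSimOf voc (ℓ i)).val I = x i) :
    (polyFam n q d).ans (regSimTr voc (regSimCont ℓ (regSimArgs Q)) Q) I = Q.ans I x := by
  rcases Q with ⟨g, hg, a⟩ | ⟨f, hf, a⟩
  · show SignType.sign (MvPolynomial.eval (fun i =>
      (regSimArg voc (a i) (regSimCont ℓ a i)).val I) g) =
        SignType.sign (MvPolynomial.eval (fun i => arg I x (a i)) g)
    have h1 : (fun i => (regSimArg voc (a i) (regSimCont ℓ a i)).val I) =
        fun i => arg I x (a i) := funext fun i => regSim_arg voc ℓ I x hx a i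
    rw [h1]
  · show (if evalP _ I = 0 then (0 : SignType) else 1) = if _ = 0 then 0 else 1
    have h1 : evalP (MvPolynomial.aeval
        (regSimSbs fun i => regSimArg voc (a i) (regSimCont ℓ a i)) f) I =
        MvPolynomial.eval (Sum.elim (fun p : Fin n × Fin n => (I.wt p.1 p.2 : ℝ))
          (fun i => arg I x (a i))) f := by
      unfold evalP
      rw [eval_aeval]
      congr 2
      funext y
      rcases y with p | i
      · show MvPolynomial.eval _ (MvPolynomial.X p) = (I.wt p.1 p.2 : ℝ)
        rw [MvPolynomial.eval_X]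
      · show MvPolynomial.eval _ (regSimPoly _) = arg I x (a i)
        rw [← regSim_arg voc ℓ I x hx a i]
        exact regSim_eval_poly _ I
    exact if_congr (by rw [← h1]; rfl) rfl rfl

/-- A numbering of a small set of forms. -/
private lemma regSim_voc (NL : ℕ) (S : Finset (Form n)) (hS : S.card ≤ NL) :
    ∃ voc : Fin NL → Form n, ∀ F ∈ S, ∃ i, voc i = F := by
  classical
  refine ⟨fun i => if h : i.val < S.card then (S.equivFin.symm ⟨i.val, h⟩ : S).val
    else regSimZro n, fun F hF => ?_⟩
  have hlt : (S.equivFin ⟨F, hF⟩).val < S.card := (S.equivFin ⟨F, hF⟩).isLt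
  refine ⟨⟨(S.equivFin ⟨F, hF⟩).val, by omega⟩, ?_⟩
  simp only
  rw [dif_pos hlt]
  have : (⟨(S.equivFin ⟨F, hF⟩).val, hlt⟩ : Fin S.card) = S.equivFin ⟨F, hF⟩ := rfl
  rw [this, Equiv.symm_apply_apply]

/-- Memory states with the numbers of the contents of the registers. -/
private abbrev RegSimVS (W r NL : ℕ) := Fin W × (Fin r → Option (Fin NL))

open Classical in
/-- The number of a form. -/
private noncomputable def regSimNum {NL : ℕ} (voc : Fin NL → Form n) (F : Form n) :
    Option (Fin NL) := if h : ∃ i, voc i = F then some h.choose else none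

private lemma regSim_num {NL : ℕ} (voc : Fin NL → Form n) (F : Form n) (h : ∃ i, voc i = F) :
    regSimOf voc (regSimNum voc F) = F := by
  unfold regSimNum regSimOf
  rw [dif_pos h]
  exact h.choose_spec

/-- The numbers of the contents of the registers after they are rewritten. -/
private noncomputable def regSimRcd {NL : ℕ} (A : RegAlg n q d D W r R) (voc : Fin NL → Form n)
    (fl : Fin n → Fin n → Bool) (ρ : Fin R → Bool) (t : ℕ) (s : RegSimVS W r NL) :
    Fin r → Option (Fin NL) := fun i =>
  match A.upd fl ρ t s.1 i with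
  | .inl j => s.2 j
  | .inr F => regSimNum voc F

/-- The simulation. -/
private noncomputable def regSimA {NL : ℕ} (A : RegAlg n q d D W r R)
    (voc : (Fin n → Fin n → Bool) → (Fin R → Bool) → Fin NL → Form n)
    (e : RegSimVS W r NL ≃ Fin (W * (NL + 1) ^ r)) :
    Alg n D (W * (NL + 1) ^ r) R (PolyQ n q d) SignType where
  init fl ρ := e (A.init fl ρ, fun _ => none)
  ask fl ρ t s := regSimTr (voc fl ρ) (regSimCont (regSimRcd A (voc fl ρ) fl ρ t (e.symm s))
    (regSimArgs (A.ask fl ρ t (e.symm s).1))) (A.ask fl ρ t (e.symm s).1)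
  next fl ρ t s a := e (A.next fl ρ t (e.symm s).1 a, regSimRcd A (voc fl ρ) fl ρ t (e.symm s))
  out fl ρ s := A.out fl ρ (e.symm s).1

private lemma regSim_rec {NL : ℕ} (A : RegAlg n q d D W r R) (voc : Fin NL → Form n)
    (I : Inst n) (ρ : Fin R → Bool) (t : ℕ)
    (hvoc : ∀ v i F, A.upd I.flag ρ t v i = Sum.inr F → ∃ j, voc j = F)
    (s : RegSimVS W r NL) (x : Fin r → ℝ) (hx : ∀ i, (regSimOf voc (s.2 i)).val I = x i)
    (i : Fin r) :
    (regSimOf voc (regSimRcd A voc I.flag ρ t s i)).val I = arg I x (A.upd I.flag ρ t s.1 i) := by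
  unfold regSimRcd
  rcases hu : A.upd I.flag ρ t s.1 i with j | F
  · exact hx j
  · show (regSimOf voc (regSimNum voc F)).val I = F.val I
    rw [regSim_num voc F (hvoc s.1 i F hu)]

private lemma regSim_state {NL : ℕ} (A : RegAlg n q d D W r R)
    (voc : (Fin n → Fin n → Bool) → (Fin R → Bool) → Fin NL → Form n)
    (hvoc : ∀ fl ρ t v i F, t < D → A.upd fl ρ t v i = Sum.inr F → ∃ j, voc fl ρ j = F)
    (e : RegSimVS W r NL ≃ Fin (W * (NL + 1) ^ r)) (I : Inst n)
    (ρ : Fin R → Bool) (t : ℕ) (ht : t ≤ D) :
    (e.symm ((regSimA A voc e).state (polyFam n q d) I ρ t)).1 = (A.conf I ρ t).1 ∧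
    ∀ i, (regSimOf (voc I.flag ρ)
      ((e.symm ((regSimA A voc e).state (polyFam n q d) I ρ t)).2 i)).val I =
      (A.conf I ρ t).2 i := by
  induction t with
  | zero =>
    have h1 : (regSimA A voc e).state (polyFam n q d) I ρ 0 =
        e (A.init I.flag ρ, fun _ => none) := rfl
    rw [h1, Equiv.symm_apply_apply]
    exact ⟨rfl, fun i => regSim_val_zro I⟩
  | succ t ih =>
    obtain ⟨ih1, ih2⟩ := ih (by omega)
    set s := e.symm ((regSimA A voc e).state (polyFam n q d) I ρ t) with hs
    have hr := regSim_rec A (voc I.flag ρ) I ρ t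
      (fun v i F h => hvoc I.flag ρ t v i F (by omega) h) s (A.conf I ρ t).2 ih2
    have hans := regSim_ans (voc I.flag ρ) (regSimRcd A (voc I.flag ρ) I.flag ρ t s)
      (A.ask I.flag ρ t s.1) I (fun i => arg I (A.conf I ρ t).2 (A.upd I.flag ρ t s.1 i)) hr
    have h1 : (regSimA A voc e).state (polyFam n q d) I ρ (t + 1) =
        e (A.next I.flag ρ t s.1 ((A.ask I.flag ρ t s.1).ans I
          (fun i => arg I (A.conf I ρ t).2 (A.upd I.flag ρ t s.1 i))),
          regSimRcd A (voc I.flag ρ) I.flag ρ t s) := by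
      rw [← hans]
      rfl
    have h2 : A.conf I ρ (t + 1) = (A.next I.flag ρ t s.1 ((A.ask I.flag ρ t s.1).ans I
          (fun i => arg I (A.conf I ρ t).2 (A.upd I.flag ρ t s.1 i))),
          fun i => arg I (A.conf I ρ t).2 (A.upd I.flag ρ t s.1 i)) := by
      rw [ih1]
      rfl
    rw [h1, Equiv.symm_apply_apply, h2]
    exact ⟨rfl, hr⟩

private lemma regSim_output {NL : ℕ} (A : RegAlg n q d D W r R)
    (voc : (Fin n → Fin n → Bool) → (Fin R → Bool) → Fin NL → Form n)
    (hvoc : ∀ fl ρ t v i F, t < D → A.upd fl ρ t v i = Sum.inr F → ∃ j, voc fl ρ j = F)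
    (e : RegSimVS W r NL ≃ Fin (W * (NL + 1) ^ r)) (I : Inst n) (ρ : Fin R → Bool) :
    (regSimA A voc e).output (polyFam n q d) I ρ = A.output I ρ := by
  show A.out I.flag ρ (e.symm ((regSimA A voc e).state (polyFam n q d) I ρ D)).1 = _
  rw [(regSim_state A voc hvoc e I ρ D le_rfl).1]
  rfl

open Classical in
/-- The contents of the registers are forms from the vocabulary, or zero at the beginning: memory
states `Fin W × (Fin r → Option (Fin NL))`. The query number `t` is the query of `A` with the
registers replaced by their contents (after the rewriting in step `t`); it is determined by the query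
of `A` and the contents of its at most `q` arguments. As `Pool/Agent/Helper21/DS/Reg.lean` (there the
contents are recorded by the time and state of the load; for the substitution in zero tests see
`DS.sbs`, `DS.sbs_deg`, `totalDegree_aeval_le`). -/
theorem RegAlg.simulate {NL NQ : ℕ} (A : RegAlg n q d D W r R) (hV : A.Vocab NL NQ)
    (hA : A.Decides) :
    ∃ A' : Alg n D (W * (NL + 1) ^ r) R (PolyQ n q d) SignType,
      HasPool A' (NQ * (NL + 1) ^ q) ∧ A'.Decides (polyFam n q d) := by
  have hex : ∀ (fl : Fin n → Fin n → Bool) (ρ : Fin R → Bool), ∃ voc : Fin NL → Form n,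
      ∀ t v i F, t < D → A.upd fl ρ t v i = Sum.inr F → ∃ j, voc j = F := by
    intro fl ρ
    obtain ⟨S, hS, h1⟩ := hV.load fl ρ
    obtain ⟨voc, h2⟩ := regSim_voc NL S hS
    exact ⟨voc, fun t v i F ht h => h2 F (h1 t v i F ht h)⟩
  choose voc hvoc using hex
  have hcard : Fintype.card (RegSimVS W r NL) = W * (NL + 1) ^ r := by
    simp [RegSimVS]
  have e : RegSimVS W r NL ≃ Fin (W * (NL + 1) ^ r) := Fintype.equivFinOfCardEq hcard
  refine ⟨regSimA A voc e, ?_, fun I hI => ?_⟩
  · intro fl ρ
    obtain ⟨S, hS, h1⟩ := hV.ask fl ρ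
    refine ⟨(S ×ˢ (univ : Finset (Fin q → Option (Fin NL)))).image
      (fun x => regSimTr (voc fl ρ) x.2 x.1), ?_, ?_⟩
    · refine card_image_le.trans ?_
      rw [card_product]
      refine Nat.mul_le_mul hS (le_of_eq ?_)
      simp
    · intro t v ht
      rw [mem_image]
      exact ⟨(A.ask fl ρ t (e.symm v).1, regSimCont (regSimRcd A (voc fl ρ) fl ρ t (e.symm v))
        (regSimArgs (A.ask fl ρ t (e.symm v).1))),
        mem_product.2 ⟨h1 t (e.symm v).1 ht, mem_univ _⟩, rfl⟩
  · have h1 := hA I hI
    refine h1.trans (Nat.mul_le_mul_left _ (card_le_card ?_))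
    intro ρ hρ
    rw [mem_filter] at hρ ⊢
    refine ⟨mem_univ _, ?_⟩
    rw [regSim_output A voc hvoc e]
    exact hρ.2

/-- Trivial vocabularies. -/
theorem RegAlg.vocab_trivial (A : RegAlg n q d D W r R) : A.Vocab (D * W * r) (D * W) := by
  classical
  constructor
  · intro fl ρ
    refine ⟨(univ : Finset ((Fin D × Fin W) × Fin r)).biUnion fun x =>
      match A.upd fl ρ x.1.1.val x.1.2 x.2 with
      | .inl _ => ∅
      | .inr F => {F}, ?_, ?_⟩
    · refine card_biUnion_le.trans ?_
      refine (sum_le_sum (g := fun _ => 1) fun x _ => ?_).trans ?_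
      · rcases A.upd fl ρ x.1.1.val x.1.2 x.2 with j | F
        · simp
        · simp
      · rw [sum_const, smul_eq_mul, mul_one, card_univ]
        simp
    · intro t v i F ht h
      rw [mem_biUnion]
      refine ⟨((⟨t, ht⟩, v), i), mem_univ _, ?_⟩
      simp only
      rw [h]
      exact mem_singleton_self F
  · intro fl ρ
    refine ⟨(univ : Finset (Fin D × Fin W)).image fun x => A.ask fl ρ x.1.val x.2, ?_, ?_⟩
    · refine card_image_le.trans ?_
      rw [card_univ]
      simp
    · intro t v ht
      rw [mem_image]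
      exact ⟨(⟨t, ht⟩, v), mem_univ _, rfl⟩

end Pool.Agent.Helper21.DP
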