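import Pool.Agent.Helper21.DP.Final
import Pool.Agent.Helper21.DP.RegSim

/-!
# The bounds for algorithms with registers
-/

set_option autoImplicit false

namespace Pool.Agent.Helper21.DP

open Finset
open Pool.Agent.Helper22.ETModel Pool.Agent.Helper22.TSModel Pool.Agent.Helper22.EP
open Pool.Agent.Helper23.SP (pre sg)
open Pool.Agent.Helper8.ZT
open Pool.Agent.Helper21.DS (mt putd DProc Lam strc vl wg gam rp vid cove)

/-- The quantitative bound for algorithms with registers. -/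
theorem quantitative_reg {n q k d s s0 x NL NQ D W r R : ℕ} (hk : 1 ≤ k) (hd : 2 * d ≤ s)
    (hs1 : 1 ≤ s) (hqs : q * 2 ^ q * s0 ≤ s) (hsx : s ≤ x) (hq : q.factorial ≤ n)
    (hNQ0 : 1 ≤ NQ) (hNQ : 192 * (NQ * (NL + 1) ^ q) ≤ 2 ^ s0)
    (hsz : (NQ * (NL + 1) ^ q) ^ (2 * k + 2) ≤ n ^ 284)
    (hsn : 6 * (60 * s) ^ (2 * k) ≤ n) (hx : 2 ^ 7 * n ^ 4 * (W * (NL + 1) ^ r) ≤ 2 ^ x)
    (A : RegAlg n q d D W r R) (hV : A.Vocab NL NQ) (hA : A.Decides) :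
    (n : ℝ) ^ (3 - 1 / (k : ℝ)) ≤ (2 ^ 15 * Real.logb 2 n) ^ (2 * k) * s * x * D := by
  obtain ⟨A', hP, hA'⟩ := A.simulate hV hA
  exact quantitative hk hd hs1 hqs hsx hq (Nat.mul_pos hNQ0 (Nat.pow_pos (Nat.succ_pos _)))
    hNQ hsz hsn hx A' hP hA'

private lemma regFinal_logb_le {x δ : ℝ} (hx : 0 < x) (hδ : 0 < δ) :
    Real.logb 2 x ≤ 2 / δ * x ^ δ := by
  have h1 : Real.log x ≤ x ^ δ / δ := Real.log_le_rpow_div hx.le hδ
  have h2 : (1 : ℝ) / 2 ≤ Real.log 2 := by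
    have := Real.log_two_gt_d9; linarith
  unfold Real.logb
  rw [div_le_iff₀ (by linarith)]
  calc Real.log x ≤ x ^ δ / δ := h1
    _ = 2 / δ * x ^ δ * (1 / 2) := by ring
    _ ≤ 2 / δ * x ^ δ * Real.log 2 := mul_le_mul_of_nonneg_left h2 (by positivity)

private lemma regFinal_ev (K δ : ℝ) (hδ : 0 < δ) :
    ∀ᶠ n : ℕ in Filter.atTop, K ≤ (n : ℝ) ^ δ :=
  ((tendsto_rpow_atTop hδ).comp tendsto_natCast_atTop_atTop).eventually_ge_atTop K

private lemma regFinal_W_pos {n q d D W r R : ℕ} (A : RegAlg n q d D W r R) : 1 ≤ W := by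
  have := (A.init (fun _ _ => false) (fun _ => false)).isLt
  omega

private lemma regFinal_vocab {n q d D W r R NL NQ NQ' : ℕ} {A : RegAlg n q d D W r R}
    (hV : A.Vocab NL NQ) (h : NQ ≤ NQ') : A.Vocab NL NQ' := by
  refine ⟨hV.load, fun fl ρ => ?_⟩
  obtain ⟨S, hS, h1⟩ := hV.ask fl ρ
  exact ⟨S, hS.trans h, h1⟩

private lemma regFinal_ceil {y : ℝ} (hy : 1 ≤ y) :
    ∃ e : ℕ, y ≤ 2 ^ e ∧ (e : ℝ) ≤ Real.logb 2 y + 1 := by
  have hy0 : 0 < y := by linarith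
  refine ⟨⌈Real.logb 2 y⌉₊, ?_, ?_⟩
  · have h1 := Nat.le_ceil (Real.logb 2 y)
    rw [Real.logb_le_iff_le_rpow (by norm_num) hy0, Real.rpow_natCast] at h1
    exact h1
  · exact (Nat.ceil_lt_add_one (Real.logb_nonneg (by norm_num) hy)).le

/-- The asymptotic form. Take `k = ⌊1 / ε⌋ + 1`, so `1 / k < ε` and `2 k + 2 ≤ 2 / ε + 4`; `s0` the
least integer with `192 NQ (NL + 1) ^ q ≤ 2 ^ s0`, so `s0 ≤ C log n`; `s = 2 d + q 2 ^ q s0 + 1`, which
is at most `n ^ (2 δ)` for large `n`; `x` the least integer with `s ≤ x` and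
`2 ^ 7 n ^ 4 W (NL + 1) ^ r ≤ 2 ^ x`, so `x ≤ n ^ (3 δ) (1 + r + log W)` for large `n`. Replace `NQ`
by `max NQ 1` first, if necessary (if `NQ = 0` the hypotheses hold also for `NQ = 1`). See
`Pool/Agent/Helper21/DS/Asym.lean` and `DS/RegFinal.lean` for the real numerics. -/
theorem asymptotic_reg (κ ε : ℝ) (q : ℕ) (hκ : 0 ≤ κ) (hε : 0 < ε)
    (h : κ * (q + 1) * (2 / ε + 4) < 284) :
    ∃ δ : ℝ, 0 < δ ∧ ∃ n₀ : ℕ, ∀ n : ℕ, n₀ ≤ n → ∀ d NL NQ D W r R : ℕ,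
      (d : ℝ) ≤ (n : ℝ) ^ δ → (NL : ℝ) ≤ (n : ℝ) ^ κ → (NQ : ℝ) ≤ (n : ℝ) ^ κ →
      ∀ A : RegAlg n q d D W r R, A.Vocab NL NQ → A.Decides →
        (n : ℝ) ^ (3 - ε) ≤ D * (1 + r + Real.logb 2 W) := by
  obtain ⟨k, hkdef⟩ : ∃ k : ℕ, k = ⌊1 / ε⌋₊ + 1 := ⟨_, rfl⟩
  have hk1 : 1 ≤ k := by omega
  have hk0 : (0 : ℝ) < k := by exact_mod_cast hk1
  have hkle : (k : ℝ) ≤ 1 / ε + 1 := by
    rw [hkdef]
    push_cast
    have := Nat.floor_le (a := 1 / ε) (by positivity)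
    linarith
  have hkgt : 1 / ε < k := by
    rw [hkdef]
    push_cast
    exact Nat.lt_floor_add_one _
  have hg : 0 < ε - 1 / k := by
    have h1 : 1 / (k : ℝ) < ε := by
      rw [div_lt_iff₀ hk0]
      rw [div_lt_iff₀ hε] at hkgt
      linarith
    linarith
  have hq0 : (0 : ℝ) ≤ q := Nat.cast_nonneg q
  have hκq : κ * (q + 1) * (2 * k + 2) ≤ κ * (q + 1) * (2 / ε + 4) := by
    refine mul_le_mul_of_nonneg_left ?_ (by positivity)
    have : 2 / ε = 2 * (1 / ε) := by ring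
    linarith
  set g : ℝ := ε - 1 / k with hgdef
  set E : ℝ := κ * (q + 1) * (2 / ε + 4) with hEdef
  have hE : 0 < 284 - E := by linarith
  -- the choice of `δ`
  obtain ⟨δ, hδ0, hδ1, hδ2⟩ : ∃ δ : ℝ, 0 < δ ∧ (2 * k + 4) * δ ≤ g / 2 ∧
      (2 * k + 4) * δ ≤ 1 / 4 := by
    have h0 : (0 : ℝ) < 2 * k + 4 := by positivity
    refine ⟨min g 1 / (4 * (2 * k + 4)), by positivity, ?_, ?_⟩
    · have h1 : (2 * k + 4) * (min g 1 / (4 * (2 * k + 4))) = min g 1 / 4 := by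
        field_simp
      rw [h1]
      linarith [min_le_left g 1]
    · have h1 : (2 * k + 4) * (min g 1 / (4 * (2 * k + 4))) = min g 1 / 4 := by
        field_simp
      rw [h1]
      linarith [min_le_right g 1]
  refine ⟨δ, hδ0, ?_⟩
  -- the constants
  obtain ⟨C1, hC1⟩ : ∃ C1 : ℝ, C1 = 3 + q * 2 ^ q * (9 + q + κ * (q + 1) * (2 / δ)) := ⟨_, rfl⟩
  obtain ⟨C2, hC2⟩ : ∃ C2 : ℝ, C2 = 9 + (4 + κ) * (2 / δ) := ⟨_, rfl⟩
  obtain ⟨C3, hC3⟩ : ∃ C3 : ℝ, C3 = 2 * (2 ^ 16 / δ) ^ (2 * k) := ⟨_, rfl⟩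
  have hev := (((regFinal_ev C1 δ hδ0).and (regFinal_ev C2 δ hδ0)).and
    ((regFinal_ev C3 (g / 2) (by positivity)).and
      (regFinal_ev (6 * 60 ^ (2 * k)) (1 / 2) (by norm_num)))).and
    ((regFinal_ev (2 ^ (q * (2 * k + 2))) (284 - E) hE).and
        (Filter.eventually_ge_atTop (max 3 q.factorial)))
  obtain ⟨n₀, hn₀⟩ := Filter.eventually_atTop.1 hev
  refine ⟨n₀, fun n hn d NL NQ D W r R hd hNL hNQ A hV hA => ?_⟩
  obtain ⟨⟨⟨he1, he2⟩, he3, he4⟩, he5, hn3⟩ := hn₀ n hn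
  have hn3' : 3 ≤ n := (le_max_left _ _).trans hn3
  have hfact : q.factorial ≤ n := (le_max_right _ _).trans hn3
  have hn1 : (1 : ℝ) ≤ n := by
    have : 1 ≤ n := by omega
    exact_mod_cast this
  have hn0 : (0 : ℝ) < n := by linarith
  have hW := regFinal_W_pos A
  have hW1 : (1 : ℝ) ≤ W := by exact_mod_cast hW
  have hr0 : (0 : ℝ) ≤ r := Nat.cast_nonneg r
  have hlogn : 0 ≤ Real.logb 2 n := Real.logb_nonneg (by norm_num) hn1
  have hlogle : Real.logb 2 n ≤ 2 / δ * (n : ℝ) ^ δ := regFinal_logb_le hn0 hδ0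
  have hnδ1 : 1 ≤ (n : ℝ) ^ δ := Real.one_le_rpow hn1 hδ0.le
  have hnκ1 : 1 ≤ (n : ℝ) ^ κ := Real.one_le_rpow hn1 hκ
  have hnκ0 : 0 < (n : ℝ) ^ κ := by linarith
  obtain ⟨N1, hN1def⟩ : ∃ N1 : ℕ, N1 = max NQ 1 := ⟨_, rfl⟩
  have hN11 : 1 ≤ N1 := by rw [hN1def]; exact le_max_right _ _
  have hN1le : (N1 : ℝ) ≤ (n : ℝ) ^ κ := by
    rw [hN1def]
    push_cast
    exact max_le hNQ hnκ1
  have hNL1 : (NL : ℝ) + 1 ≤ 2 * (n : ℝ) ^ κ := by linarith
  -- the number of queries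
  have hpool : ((N1 : ℝ) * ((NL : ℝ) + 1) ^ q) ≤ 2 ^ q * (n : ℝ) ^ (κ * (q + 1)) := by
    calc ((N1 : ℝ) * ((NL : ℝ) + 1) ^ q) ≤ (n : ℝ) ^ κ * (2 * (n : ℝ) ^ κ) ^ q := by
          apply mul_le_mul hN1le _ (by positivity) (by positivity)
          exact pow_le_pow_left₀ (by positivity) hNL1 q
      _ = 2 ^ q * ((n : ℝ) ^ κ) ^ (q + 1) := by rw [mul_pow]; ring
      _ = 2 ^ q * (n : ℝ) ^ (κ * (q + 1)) := by
          rw [← Real.rpow_natCast ((n : ℝ) ^ κ) (q + 1), ← Real.rpow_mul hn0.le]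
          push_cast
          ring_nf
  have hP0 : (0 : ℝ) < (n : ℝ) ^ (κ * (q + 1)) := Real.rpow_pos_of_pos hn0 _
  have hP1 : (1 : ℝ) ≤ (n : ℝ) ^ (κ * (q + 1)) := Real.one_le_rpow hn1 (by positivity)
  -- the choice of `s0`
  have h2q : (1 : ℝ) ≤ 2 ^ q := one_le_pow₀ (by norm_num)
  obtain ⟨s0, hs0ge, hs0le⟩ := regFinal_ceil (y := 2 ^ 8 * (2 ^ q * (n : ℝ) ^ (κ * (q + 1))))
    (by nlinarith [mul_le_mul h2q hP1 (by norm_num) (by positivity : (0:ℝ) ≤ 2 ^ q)])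
  have hs0log : Real.logb 2 (2 ^ 8 * (2 ^ q * (n : ℝ) ^ (κ * (q + 1)))) =
      8 + q + κ * (q + 1) * Real.logb 2 n := by
    rw [Real.logb_mul (by positivity) (by positivity), Real.logb_mul (by positivity) hP0.ne',
      Real.logb_rpow_eq_mul_logb_of_pos hn0,
      Real.logb_pow, Real.logb_pow, Real.logb_self_eq_one (by norm_num)]
    push_cast
    ring
  rw [hs0log] at hs0le
  have hNQs : 192 * (N1 * (NL + 1) ^ q) ≤ 2 ^ s0 := by
    have h1 : (192 : ℝ) * ((N1 : ℝ) * ((NL : ℝ) + 1) ^ q) ≤ 2 ^ s0 := by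
      calc (192 : ℝ) * ((N1 : ℝ) * ((NL : ℝ) + 1) ^ q)
          ≤ 2 ^ 8 * (2 ^ q * (n : ℝ) ^ (κ * (q + 1))) := by
            apply mul_le_mul (by norm_num) hpool (by positivity) (by norm_num)
        _ ≤ 2 ^ s0 := hs0ge
    exact_mod_cast h1
  have hsz : (N1 * (NL + 1) ^ q) ^ (2 * k + 2) ≤ n ^ 284 := by
    have h1 : ((N1 : ℝ) * ((NL : ℝ) + 1) ^ q) ^ (2 * k + 2) ≤ (n : ℝ) ^ 284 := by
      calc ((N1 : ℝ) * ((NL : ℝ) + 1) ^ q) ^ (2 * k + 2)
          ≤ (2 ^ q * (n : ℝ) ^ (κ * (q + 1))) ^ (2 * k + 2) :=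
            pow_le_pow_left₀ (by positivity) hpool _
        _ = 2 ^ (q * (2 * k + 2)) * (n : ℝ) ^ (κ * (q + 1) * (2 * k + 2)) := by
            rw [mul_pow, ← pow_mul, ← Real.rpow_natCast ((n : ℝ) ^ (κ * (q + 1))) (2 * k + 2),
              ← Real.rpow_mul hn0.le]
            push_cast
            ring_nf
        _ ≤ (n : ℝ) ^ (284 - E) * (n : ℝ) ^ E := by
            apply mul_le_mul he5 _ (by positivity) (by positivity)
            exact Real.rpow_le_rpow_of_exponent_le hn1 hκq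
        _ = (n : ℝ) ^ (284 : ℝ) := by
            rw [← Real.rpow_add hn0]
            ring_nf
        _ = (n : ℝ) ^ 284 := by
            rw [show (284 : ℝ) = ((284 : ℕ) : ℝ) by norm_num, Real.rpow_natCast]
    exact_mod_cast h1
  -- the choice of `s`
  obtain ⟨s, hsdef⟩ : ∃ s : ℕ, s = 2 * d + q * 2 ^ q * s0 + 1 := ⟨_, rfl⟩
  have hκq0 : 0 ≤ κ * (q + 1) := by positivity
  have hsle : (s : ℝ) ≤ (n : ℝ) ^ (2 * δ) := by
    have h1 : (s0 : ℝ) ≤ (9 + q + κ * (q + 1) * (2 / δ)) * (n : ℝ) ^ δ := by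
      calc (s0 : ℝ) ≤ (9 + q) * 1 + κ * (q + 1) * Real.logb 2 n := by linarith
        _ ≤ (9 + q) * (n : ℝ) ^ δ + κ * (q + 1) * (2 / δ * (n : ℝ) ^ δ) := by
            apply add_le_add
            · exact mul_le_mul_of_nonneg_left hnδ1 (by positivity)
            · exact mul_le_mul_of_nonneg_left hlogle hκq0
        _ = (9 + q + κ * (q + 1) * (2 / δ)) * (n : ℝ) ^ δ := by ring
    have h2 : (s : ℝ) ≤ C1 * (n : ℝ) ^ δ := by
      rw [hsdef, hC1]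
      push_cast
      have h3 : (q : ℝ) * 2 ^ q * s0 ≤
          q * 2 ^ q * ((9 + q + κ * (q + 1) * (2 / δ)) * (n : ℝ) ^ δ) :=
        mul_le_mul_of_nonneg_left h1 (by positivity)
      calc (2 : ℝ) * d + q * 2 ^ q * s0 + 1
          ≤ 2 * (n : ℝ) ^ δ + q * 2 ^ q * ((9 + q + κ * (q + 1) * (2 / δ)) * (n : ℝ) ^ δ) +
            (n : ℝ) ^ δ := by linarith
        _ = (3 + q * 2 ^ q * (9 + q + κ * (q + 1) * (2 / δ))) * (n : ℝ) ^ δ := by ring
    calc (s : ℝ) ≤ C1 * (n : ℝ) ^ δ := h2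
      _ ≤ (n : ℝ) ^ δ * (n : ℝ) ^ δ := mul_le_mul_of_nonneg_right he1 (by positivity)
      _ = (n : ℝ) ^ (2 * δ) := by rw [← Real.rpow_add hn0]; ring_nf
  have hspow : (s : ℝ) ^ (2 * k) ≤ (n : ℝ) ^ (4 * δ * k) := by
    calc (s : ℝ) ^ (2 * k) ≤ ((n : ℝ) ^ (2 * δ)) ^ (2 * k) :=
          pow_le_pow_left₀ (by positivity) hsle _
      _ = (n : ℝ) ^ (4 * δ * k) := by
        rw [← Real.rpow_natCast ((n : ℝ) ^ (2 * δ)), ← Real.rpow_mul hn0.le]
        push_cast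
        ring_nf
  have hδk : 4 * δ * k ≤ 1 / 2 := by nlinarith
  have hsn : 6 * (60 * s) ^ (2 * k) ≤ n := by
    have h1 : (6 : ℝ) * (60 * s) ^ (2 * k) ≤ n := by
      calc (6 : ℝ) * (60 * s) ^ (2 * k) = 6 * 60 ^ (2 * k) * (s : ℝ) ^ (2 * k) := by
            rw [mul_pow]; ring
        _ ≤ (n : ℝ) ^ (1 / 2 : ℝ) * (n : ℝ) ^ (1 / 2 : ℝ) := by
            apply mul_le_mul he4 _ (by positivity) (by positivity)
            exact hspow.trans (Real.rpow_le_rpow_of_exponent_le hn1 hδk)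
        _ = n := by
            rw [← Real.rpow_add hn0]
            norm_num
    exact_mod_cast h1
  -- the choice of `x`
  set Λ : ℝ := 1 + r + Real.logb 2 W with hΛdef
  have hlogW : 0 ≤ Real.logb 2 W := Real.logb_nonneg (by norm_num) hW1
  have hΛ1 : 1 ≤ Λ := by rw [hΛdef]; linarith
  have hNLp : (1 : ℝ) ≤ (NL : ℝ) + 1 := by
    have : (0 : ℝ) ≤ NL := Nat.cast_nonneg _
    linarith
  have hNLp0 : (0 : ℝ) < (NL : ℝ) + 1 := by linarith
  obtain ⟨e, hege, hele⟩ := regFinal_ceil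
    (y := 2 ^ 7 * (n : ℝ) ^ 4 * ((W : ℝ) * ((NL : ℝ) + 1) ^ r)) (by
      have h1 : (1 : ℝ) ≤ (n : ℝ) ^ 4 := one_le_pow₀ hn1
      have h2 : (1 : ℝ) ≤ ((NL : ℝ) + 1) ^ r := one_le_pow₀ hNLp
      have h3 : (1 : ℝ) ≤ (W : ℝ) * ((NL : ℝ) + 1) ^ r := one_le_mul_of_one_le_of_one_le hW1 h2
      have h4 : (1 : ℝ) ≤ 2 ^ 7 * (n : ℝ) ^ 4 := by linarith
      exact one_le_mul_of_one_le_of_one_le h4 h3)
  have helog : Real.logb 2 (2 ^ 7 * (n : ℝ) ^ 4 * ((W : ℝ) * ((NL : ℝ) + 1) ^ r)) =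
      7 + 4 * Real.logb 2 n + (Real.logb 2 W + r * Real.logb 2 ((NL : ℝ) + 1)) := by
    rw [Real.logb_mul (by positivity) (by positivity), Real.logb_mul (by positivity)
      (by positivity), Real.logb_mul (by positivity) (by positivity),
      Real.logb_pow, Real.logb_pow, Real.logb_pow, Real.logb_self_eq_one (by norm_num)]
    push_cast
    ring
  have hNLlog : Real.logb 2 ((NL : ℝ) + 1) ≤ 1 + κ * Real.logb 2 n := by
    calc Real.logb 2 ((NL : ℝ) + 1) ≤ Real.logb 2 (2 * (n : ℝ) ^ κ) :=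
          Real.logb_le_logb_of_le (by norm_num) hNLp0 hNL1
      _ = 1 + κ * Real.logb 2 n := by
          rw [Real.logb_mul (by norm_num) hnκ0.ne', Real.logb_rpow_eq_mul_logb_of_pos hn0,
            Real.logb_self_eq_one (by norm_num)]
  rw [helog] at hele
  have hele2 : (e : ℝ) ≤ (n : ℝ) ^ (2 * δ) * Λ := by
    have h1 : (e : ℝ) ≤ (9 + (4 + κ) * Real.logb 2 n) * Λ := by
      have h2 : (r : ℝ) * Real.logb 2 ((NL : ℝ) + 1) ≤ r * (1 + κ * Real.logb 2 n) :=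
        mul_le_mul_of_nonneg_left hNLlog hr0
      have h3 : 0 ≤ κ * Real.logb 2 n := mul_nonneg hκ hlogn
      have h4 : 0 ≤ r * Real.logb 2 n := mul_nonneg hr0 hlogn
      have h5 : 0 ≤ κ * Real.logb 2 n * Real.logb 2 W := mul_nonneg h3 hlogW
      have h6 : 0 ≤ Real.logb 2 n * Real.logb 2 W := mul_nonneg hlogn hlogW
      rw [hΛdef]
      nlinarith
    have h2 : 9 + (4 + κ) * Real.logb 2 n ≤ C2 * (n : ℝ) ^ δ := by
      rw [hC2]
      calc 9 + (4 + κ) * Real.logb 2 n ≤ 9 * (n : ℝ) ^ δ + (4 + κ) * (2 / δ * (n : ℝ) ^ δ) := by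
            apply add_le_add
            · linarith
            · exact mul_le_mul_of_nonneg_left hlogle (by linarith)
        _ = (9 + (4 + κ) * (2 / δ)) * (n : ℝ) ^ δ := by ring
    calc (e : ℝ) ≤ (9 + (4 + κ) * Real.logb 2 n) * Λ := h1
      _ ≤ ((n : ℝ) ^ δ * (n : ℝ) ^ δ) * Λ := by
          apply mul_le_mul_of_nonneg_right _ (by linarith)
          exact h2.trans (mul_le_mul_of_nonneg_right he2 (by positivity))
      _ = (n : ℝ) ^ (2 * δ) * Λ := by rw [← Real.rpow_add hn0]; ring_nf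
  obtain ⟨x, hxdef⟩ : ∃ x : ℕ, x = s + e := ⟨_, rfl⟩
  have hxle : (x : ℝ) ≤ 2 * (n : ℝ) ^ (2 * δ) * Λ := by
    rw [hxdef]
    push_cast
    have h1 : (s : ℝ) ≤ (n : ℝ) ^ (2 * δ) * Λ :=
      hsle.trans (le_mul_of_one_le_right (by positivity) hΛ1)
    linarith
  have hx : 2 ^ 7 * n ^ 4 * (W * (NL + 1) ^ r) ≤ 2 ^ x := by
    have h1 : (2 : ℝ) ^ 7 * (n : ℝ) ^ 4 * ((W : ℝ) * ((NL : ℝ) + 1) ^ r) ≤ 2 ^ x :=
      hege.trans (pow_le_pow_right₀ (by norm_num) (by omega))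
    exact_mod_cast h1
  have hfin0 := quantitative_reg hk1 (s := s) (s0 := s0) (x := x) (d := d) (q := q)
    (by omega) (by omega) (by omega) (by omega) hfact hN11 hNQs hsz hsn hx A
    (regFinal_vocab hV (by rw [hN1def]; exact le_max_left _ _)) hA
  have hD0 : (0 : ℝ) ≤ D := Nat.cast_nonneg D
  have hfac : (2 ^ 15 * Real.logb 2 n) ^ (2 * k) * s * x ≤ (n : ℝ) ^ g * Λ := by
    have h1 : (2 ^ 15 * Real.logb 2 n) ^ (2 * k) ≤
        (2 ^ 16 / δ) ^ (2 * k) * (n : ℝ) ^ (2 * k * δ) := by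
      calc (2 ^ 15 * Real.logb 2 n) ^ (2 * k) ≤ (2 ^ 16 / δ * (n : ℝ) ^ δ) ^ (2 * k) := by
            apply pow_le_pow_left₀ (by positivity)
            calc 2 ^ 15 * Real.logb 2 n ≤ 2 ^ 15 * (2 / δ * (n : ℝ) ^ δ) :=
                  mul_le_mul_of_nonneg_left hlogle (by norm_num)
              _ = 2 ^ 16 / δ * (n : ℝ) ^ δ := by ring
        _ = (2 ^ 16 / δ) ^ (2 * k) * (n : ℝ) ^ (2 * k * δ) := by
            rw [mul_pow, ← Real.rpow_natCast ((n : ℝ) ^ δ), ← Real.rpow_mul hn0.le]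
            push_cast
            ring_nf
    calc (2 ^ 15 * Real.logb 2 n) ^ (2 * k) * s * x
        ≤ ((2 ^ 16 / δ) ^ (2 * k) * (n : ℝ) ^ (2 * k * δ)) * (n : ℝ) ^ (2 * δ) *
          (2 * (n : ℝ) ^ (2 * δ) * Λ) := by
          apply mul_le_mul (mul_le_mul h1 hsle (by positivity) (by positivity)) hxle
            (by positivity) (by positivity)
      _ = C3 * ((n : ℝ) ^ (2 * k * δ) * (n : ℝ) ^ (2 * δ) * (n : ℝ) ^ (2 * δ)) * Λ := by
          rw [hC3]; ring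
      _ = C3 * (n : ℝ) ^ ((2 * k + 4) * δ) * Λ := by
          rw [← Real.rpow_add hn0, ← Real.rpow_add hn0]
          ring_nf
      _ ≤ (n : ℝ) ^ (g / 2) * (n : ℝ) ^ (g / 2) * Λ := by
          apply mul_le_mul_of_nonneg_right _ (by linarith)
          apply mul_le_mul he3 _ (by positivity) (by positivity)
          exact Real.rpow_le_rpow_of_exponent_le hn1 hδ1
      _ = (n : ℝ) ^ g * Λ := by
          rw [← Real.rpow_add hn0]
          ring_nf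
  have hfin : (n : ℝ) ^ g * (n : ℝ) ^ (3 - ε) ≤ (n : ℝ) ^ g * (D * Λ) := by
    calc (n : ℝ) ^ g * (n : ℝ) ^ (3 - ε) = (n : ℝ) ^ (3 - 1 / (k : ℝ)) := by
          rw [← Real.rpow_add hn0, hgdef]
          ring_nf
      _ ≤ (2 ^ 15 * Real.logb 2 n) ^ (2 * k) * s * x * D := hfin0
      _ ≤ (n : ℝ) ^ g * Λ * D := mul_le_mul_of_nonneg_right hfac hD0
      _ = (n : ℝ) ^ g * (D * Λ) := by ring
  exact le_of_mul_le_mul_left hfin (by positivity)

/-- Small memory, without restriction of the vocabulary: `asymptotic_reg` with a slightly larger `κ`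
and a slightly smaller `ε`, and `RegAlg.vocab_trivial` (if `D ≤ n ^ 3`; otherwise there is nothing to
prove). -/
theorem asymptotic_small (w σ ε : ℝ) (q : ℕ) (hw : 0 ≤ w) (hσ : 0 ≤ σ) (hε : 0 < ε)
    (h : (w + σ + 3) * (q + 1) * (2 / ε + 4) < 284) :
    ∃ δ : ℝ, 0 < δ ∧ ∃ n₀ : ℕ, ∀ n : ℕ, n₀ ≤ n → ∀ d D W r R : ℕ,
      (d : ℝ) ≤ (n : ℝ) ^ δ → (W : ℝ) ≤ (n : ℝ) ^ w → (r : ℝ) ≤ (n : ℝ) ^ σ →
      ∀ A : RegAlg n q d D W r R, A.Decides →
        (n : ℝ) ^ (3 - ε) ≤ D * (1 + r) := by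
  have hq0 : (0 : ℝ) ≤ q := Nat.cast_nonneg q
  set κ : ℝ := w + σ + 3 with hκdef
  have hκ0 : 0 < κ := by rw [hκdef]; linarith
  set c : ℝ := κ * (q + 1) with hcdef
  have hc0 : 0 < c := by positivity
  set B : ℝ := 284 / c - 4 with hBdef
  have hB : 2 / ε < B := by
    have h1 : 2 / ε + 4 < 284 / c := by
      rw [lt_div_iff₀ hc0]
      linarith
    rw [hBdef]
    linarith
  have h2ε : 0 < 2 / ε := by positivity
  set ε' : ℝ := 4 / (B + 2 / ε) with hε'def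
  have hBs : 0 < B + 2 / ε := by linarith
  have hε'0 : 0 < ε' := by positivity
  have hinv : 2 / ε' = (B + 2 / ε) / 2 := by
    rw [hε'def]
    field_simp
    ring
  have hε'lt : ε' < ε := by
    have h1 : 2 / ε < 2 / ε' := by rw [hinv]; linarith
    rw [div_lt_div_iff₀ hε hε'0] at h1
    linarith
  have hcond : κ * (q + 1) * (2 / ε' + 4) < 284 := by
    have h1 : 2 / ε' + 4 < 284 / c := by
      rw [hinv]
      have : 284 / c = B + 4 := by rw [hBdef]; ring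
      rw [this]
      linarith
    calc κ * (q + 1) * (2 / ε' + 4) < c * (284 / c) := mul_lt_mul_of_pos_left h1 hc0
      _ = 284 := by field_simp
  obtain ⟨δ, hδ, n₀, hmain⟩ := asymptotic_reg κ ε' q hκ0.le hε'0 hcond
  set η : ℝ := ε - ε' with hηdef
  have hη0 : 0 < η := by rw [hηdef]; linarith
  obtain ⟨n₁, hn₁⟩ := Filter.eventually_atTop.1
    (regFinal_ev (1 + w * (2 / (η / 2))) (η / 2) (by positivity))
  refine ⟨δ, hδ, max n₀ (max n₁ 1), fun n hn d D W r R hd hW hr A hA => ?_⟩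
  have hn0 : n₀ ≤ n := le_trans (le_max_left _ _) hn
  have hn1 : n₁ ≤ n := le_trans ((le_max_left _ _).trans (le_max_right _ _)) hn
  have hn2 : 1 ≤ n := le_trans ((le_max_right _ _).trans (le_max_right _ _)) hn
  have hn1r : (1 : ℝ) ≤ n := by exact_mod_cast hn2
  have hn0r : (0 : ℝ) < n := by linarith
  have hD0 : (0 : ℝ) ≤ D := Nat.cast_nonneg D
  have hr0 : (0 : ℝ) ≤ r := Nat.cast_nonneg r
  have hWpos := regFinal_W_pos A
  have hW1 : (1 : ℝ) ≤ W := by exact_mod_cast hWpos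
  have hW0 : (0 : ℝ) ≤ W := by linarith
  rcases Nat.lt_or_ge (n ^ 3) D with hD | hD
  · calc (n : ℝ) ^ (3 - ε) ≤ (n : ℝ) ^ (3 : ℝ) :=
          Real.rpow_le_rpow_of_exponent_le hn1r (by linarith)
      _ = ((n ^ 3 : ℕ) : ℝ) := by
          push_cast
          norm_cast
      _ ≤ D := by exact_mod_cast hD.le
      _ ≤ D * (1 + r) := le_mul_of_one_le_right hD0 (by linarith)
  · have hDr : (D : ℝ) ≤ (n : ℝ) ^ (3 : ℝ) := by
      have h2 : (D : ℝ) ≤ ((n ^ 3 : ℕ) : ℝ) := by exact_mod_cast hD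
      refine h2.trans (le_of_eq ?_)
      push_cast
      norm_cast
    have hDW : (D : ℝ) * W ≤ (n : ℝ) ^ (3 + w) := by
      rw [Real.rpow_add hn0r]
      exact mul_le_mul hDr hW hW0 (by positivity)
    have hNQ : ((D * W : ℕ) : ℝ) ≤ (n : ℝ) ^ κ := by
      push_cast
      refine hDW.trans (Real.rpow_le_rpow_of_exponent_le hn1r ?_)
      rw [hκdef]
      linarith
    have hNL : ((D * W * r : ℕ) : ℝ) ≤ (n : ℝ) ^ κ := by
      push_cast
      calc (D : ℝ) * W * r ≤ (n : ℝ) ^ (3 + w) * (n : ℝ) ^ σ :=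
            mul_le_mul hDW hr hr0 (by positivity)
        _ = (n : ℝ) ^ κ := by
            rw [← Real.rpow_add hn0r, hκdef]
            ring_nf
    have h1 := hmain n hn0 d (D * W * r) (D * W) D W r R hd hNL hNQ A A.vocab_trivial hA
    have hlogn : 0 ≤ Real.logb 2 n := Real.logb_nonneg (by norm_num) hn1r
    have hlogW : Real.logb 2 W ≤ w * Real.logb 2 n := by
      calc Real.logb 2 W ≤ Real.logb 2 ((n : ℝ) ^ w) :=
            Real.logb_le_logb_of_le (by norm_num) (by linarith) hW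
        _ = w * Real.logb 2 n := Real.logb_rpow_eq_mul_logb_of_pos hn0r
    have hη1 : 1 ≤ (n : ℝ) ^ (η / 2) := Real.one_le_rpow hn1r (by positivity)
    have h2 : 1 + w * Real.logb 2 n ≤ (n : ℝ) ^ η := by
      have h3 : Real.logb 2 n ≤ 2 / (η / 2) * (n : ℝ) ^ (η / 2) :=
        regFinal_logb_le hn0r (by positivity)
      calc 1 + w * Real.logb 2 n ≤ 1 * (n : ℝ) ^ (η / 2) +
            w * (2 / (η / 2) * (n : ℝ) ^ (η / 2)) := by
            apply add_le_add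
            · linarith
            · exact mul_le_mul_of_nonneg_left h3 hw
        _ = (1 + w * (2 / (η / 2))) * (n : ℝ) ^ (η / 2) := by ring
        _ ≤ (n : ℝ) ^ (η / 2) * (n : ℝ) ^ (η / 2) :=
            mul_le_mul_of_nonneg_right (hn₁ n hn1) (by positivity)
        _ = (n : ℝ) ^ η := by
            rw [← Real.rpow_add hn0r]
            ring_nf
    have h4 : 1 + r + Real.logb 2 W ≤ (1 + r) * (n : ℝ) ^ η := by
      have h5 : 0 ≤ w * Real.logb 2 n := mul_nonneg hw hlogn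
      calc 1 + r + Real.logb 2 W ≤ (1 + r) * (1 + w * Real.logb 2 n) := by nlinarith
        _ ≤ (1 + r) * (n : ℝ) ^ η := mul_le_mul_of_nonneg_left h2 (by linarith)
    have hfin : (n : ℝ) ^ η * (n : ℝ) ^ (3 - ε) ≤ (n : ℝ) ^ η * (D * (1 + r)) := by
      calc (n : ℝ) ^ η * (n : ℝ) ^ (3 - ε) = (n : ℝ) ^ (3 - ε') := by
            rw [← Real.rpow_add hn0r, hηdef]
            ring_nf
        _ ≤ D * (1 + r + Real.logb 2 W) := h1
        _ ≤ D * ((1 + r) * (n : ℝ) ^ η) := mul_le_mul_of_nonneg_left h4 hD0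
        _ = (n : ℝ) ^ η * (D * (1 + r)) := by ring
    exact le_of_mul_le_mul_left hfin (by positivity)

end Pool.Agent.Helper21.DP
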