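import Pool.Agent.Helper21.DP.Defs

/-!
# Points near the roots of a polynomial on a line, and resampling
-/

set_option autoImplicit false

namespace Pool.Agent.Helper21.DP

open Finset
open Pool.Agent.Helper22.ETModel Pool.Agent.Helper22.TSModel Pool.Agent.Helper22.EP
open Pool.Agent.Helper23.SP (pre sg)
open Pool.Agent.Helper8.ZT
open Pool.Agent.Helper21.DS (mt putd DProc Lam strc vl wg gam rp vid cove)

/-- The restriction of a polynomial to a line. (`MvPolynomial.aeval` with
`Polynomial.C (V i) + Polynomial.X * Polynomial.C (w i)`, see `Pool.Agent.Helper50.ZT.lineOK_pev`.) -/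
theorem exists_line {q d : ℕ} (g : MvPolynomial (Fin q) ℝ) (hg : g.totalDegree ≤ d)
    (V w : Fin q → ℝ) : ∃ p : Polynomial ℝ, p.natDegree ≤ d ∧
      ∀ x : ℝ, p.eval x = MvPolynomial.eval (fun j => V j + x * w j) g := by
  set γ : Fin q → Polynomial ℝ := fun e =>
    Polynomial.C (V e) + Polynomial.C (w e) * Polynomial.X with hγ
  refine ⟨MvPolynomial.aeval γ g, ?_, ?_⟩
  · have := MvPolynomial.aeval_natDegree_le (m := d) (n := 1) g hg γ (fun i => by
      simp only [hγ]
      compute_degree)
    simpa using this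
  · intro x
    have h1 : (MvPolynomial.aeval γ g).eval x = MvPolynomial.aeval (fun e => (γ e).eval x) g := by
      have := MvPolynomial.comp_aeval_apply (R := ℝ) γ (Polynomial.aeval x) g
      rw [Polynomial.coe_aeval_eq_eval] at this
      exact this
    rw [h1, MvPolynomial.aeval_eq_eval]
    congr 2
    funext e
    simp only [hγ, Polynomial.eval_add, Polynomial.eval_C, Polynomial.eval_mul, Polynomial.eval_X]
    ring

open Classical in
/-- Few integers are near a sign change: if the signs at `t` and `t + η` are different, then `p` is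
not zero and has a root between `t` and `t + η` (intermediate value theorem), and a root has distance
at most `1 / 2` from at most two integers. -/
theorem near_roots {q d M : ℕ} (g : MvPolynomial (Fin q) ℝ) (hg : g.totalDegree ≤ d)
    (V w : Fin q → ℝ) :
    ((univ : Finset (Fin M)).filter fun t : Fin M => ∃ η : ℝ, |η| ≤ 1 / 2 ∧
      sgn g (fun j => V j + (((t : ℕ) : ℝ) + η) * w j) ≠
        sgn g (fun j => V j + ((t : ℕ) : ℝ) * w j)).card ≤ 2 * d := by
  obtain ⟨p, hp, hev⟩ := exists_line g hg V w
  -- a root near every such point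
  have hroot : ∀ t : Fin M, (∃ η : ℝ, |η| ≤ 1 / 2 ∧
      sgn g (fun j => V j + (((t : ℕ) : ℝ) + η) * w j) ≠
        sgn g (fun j => V j + ((t : ℕ) : ℝ) * w j)) →
      p ≠ 0 ∧ ∃ x : ℝ, p.eval x = 0 ∧ |x - ((t : ℕ) : ℝ)| ≤ 1 / 2 := by
    rintro t ⟨η, hη, hne⟩
    unfold sgn at hne
    rw [← hev, ← hev] at hne
    refine ⟨?_, ?_⟩
    · rintro rfl
      simp at hne
    · have hmem : (0 : ℝ) ∈ Set.uIcc (p.eval (((t : ℕ) : ℝ) + η)) (p.eval ((t : ℕ) : ℝ)) := by
        rcases lt_trichotomy (p.eval (((t : ℕ) : ℝ) + η)) 0 with h1 | h1 | h1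
        · rcases lt_or_ge (p.eval ((t : ℕ) : ℝ)) 0 with h2 | h2
          · rw [sign_neg h1, sign_neg h2] at hne
            exact absurd rfl hne
          · exact Set.mem_uIcc.2 (Or.inl ⟨h1.le, h2⟩)
        · rw [h1]; exact Set.left_mem_uIcc
        · rcases lt_or_ge 0 (p.eval ((t : ℕ) : ℝ)) with h2 | h2
          · rw [sign_pos h1, sign_pos h2] at hne
            exact absurd rfl hne
          · exact Set.mem_uIcc.2 (Or.inr ⟨h2, h1.le⟩)
      obtain ⟨x, hx, hx0⟩ := intermediate_value_uIcc (f := fun y : ℝ => p.eval y)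
        p.continuous.continuousOn hmem
      refine ⟨x, hx0, ?_⟩
      have hη' := abs_le.1 hη
      rcases Set.mem_uIcc.1 hx with h | h
      · rw [abs_le]; constructor <;> linarith [h.1, h.2, hη'.1, hη'.2]
      · rw [abs_le]; constructor <;> linarith [h.1, h.2, hη'.1, hη'.2]
  choose! r hr using fun t ht => (hroot t ht).2
  refine (card_le_mul_card_image_of_maps_to (f := r) (t := p.roots.toFinset) ?_ 2 ?_).trans ?_
  · intro t ht
    rw [mem_filter] at ht
    rw [Multiset.mem_toFinset, Polynomial.mem_roots (hroot t ht.2).1, Polynomial.IsRoot.def]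
    exact (hr t ht.2).1
  · intro x _
    have hsub : ∀ t : Fin M, |x - ((t : ℕ) : ℝ)| ≤ 1 / 2 →
        ((t : ℕ) : ℤ) = ⌈x - 1 / 2⌉ ∨ ((t : ℕ) : ℤ) = ⌈x - 1 / 2⌉ + 1 := by
      intro t ht
      rw [abs_le] at ht
      have h1 : ⌈x - 1 / 2⌉ ≤ ((t : ℕ) : ℤ) := by
        rw [Int.ceil_le]
        push_cast
        linarith [ht.2]
      have h2 : ((t : ℕ) : ℤ) ≤ ⌈x - 1 / 2⌉ + 1 := by
        have h3 : x - 1 / 2 ≤ (⌈x - 1 / 2⌉ : ℝ) := Int.le_ceil _
        have h4 : (((t : ℕ) : ℤ) : ℝ) ≤ ((⌈x - 1 / 2⌉ + 1 : ℤ) : ℝ) := by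
          push_cast
          linarith [ht.1]
        exact_mod_cast h4
      omega
    refine (card_le_card_of_injOn (t := ({⌈x - 1 / 2⌉, ⌈x - 1 / 2⌉ + 1} : Finset ℤ))
      (fun t : Fin M => ((t : ℕ) : ℤ)) ?_ ?_).trans card_le_two
    · intro t ht
      simp only [coe_filter, mem_filter, mem_univ, true_and, Set.mem_ofPred_eq] at ht
      have h1 := (hr t ht.1).2
      rw [ht.2] at h1
      simp only [coe_insert, coe_singleton, Set.mem_insert_iff, Set.mem_singleton_iff]
      exact hsub t h1
    · intro t _ t' _ h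
      simp only [Nat.cast_inj] at h
      exact Fin.ext h
  · exact Nat.mul_le_mul_left 2
      ((Multiset.toFinset_card_le _).trans ((Polynomial.card_roots' p).trans hp))

open Classical in
/-- Resampling one coordinate: if for every point at most `C` values of the coordinate `a` are bad,
then a fraction of at most `C / card` of all points is bad. (See `card_mul_le` in
`Pool/Agent/Helper8/ZT/Adapt.lean`, or count the pairs of a bad point and a value.) -/
theorem card_resample {α β : Type} [Fintype α] [DecidableEq α] [Fintype β] (a : α)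
    (P : (α → β) → Prop) (C : ℕ)
    (h : ∀ f : α → β, (univ.filter fun t : β => P (Function.update f a t)).card ≤ C) :
    (univ.filter P).card * Fintype.card β ≤ C * Fintype.card (α → β) := by
  have h1 : (univ.filter P).card * Fintype.card β = ((univ.filter P) ×ˢ (univ : Finset β)).card := by
    rw [card_product, card_univ]
  rw [h1]
  have h2 : ((univ.filter P) ×ˢ (univ : Finset β)).card ≤
      ((univ : Finset (α → β)).sigma fun f =>
        univ.filter fun t : β => P (Function.update f a t)).card := by
    refine card_le_card_of_injOn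
      (fun x : (α → β) × β => (⟨Function.update x.1 a x.2, x.1 a⟩ : Σ _ : α → β, β)) ?_ ?_
    · rintro ⟨f, t⟩ hx
      simp only [coe_product, coe_filter, mem_univ, true_and, coe_univ, Set.mem_prod,
        Set.mem_ofPred_eq, Set.mem_univ, and_true] at hx
      simp only [coe_sigma, coe_univ, Set.mem_sigma_iff, Set.mem_univ, true_and, coe_filter,
        mem_univ, Set.mem_ofPred_eq, Function.update_idem, Function.update_eq_self]
      exact hx
    · rintro ⟨f, t⟩ _ ⟨f', t'⟩ _ hxy
      simp only [Sigma.mk.injEq, heq_eq_eq] at hxy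
      obtain ⟨e1, e2⟩ := hxy
      have h3 : t = t' := by
        have := congrFun e1 a
        simpa using this
      have h4 : f = f' := by
        funext i
        by_cases hi : i = a
        · rw [hi, e2]
        · have := congrFun e1 i
          simpa [Function.update_of_ne hi] using this
      rw [h3, h4]
  refine h2.trans ?_
  rw [card_sigma]
  calc ∑ f : α → β, (univ.filter fun t : β => P (Function.update f a t)).card
      ≤ ∑ _f : α → β, C := sum_le_sum fun f _ => h f
    _ = C * Fintype.card (α → β) := by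
        rw [sum_const, card_univ, smul_eq_mul, mul_comm]

end Pool.Agent.Helper21.DP
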