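import Pool.Agent.Helper21.DP.SignB
import Pool.Agent.Helper21.DS.Run

/-!
# Real runs and ideal runs
-/

set_option autoImplicit false

namespace Pool.Agent.Helper21.DP

open Finset
open Pool.Agent.Helper22.ETModel Pool.Agent.Helper22.TSModel Pool.Agent.Helper22.EP
open Pool.Agent.Helper23.SP (pre sg)
open Pool.Agent.Helper8.ZT
open Pool.Agent.Helper21.DS (mt putd DProc Lam strc vl wg gam rp vid cove)

variable {m n q k b Z M N d D W R : ℕ} [NeZero b]

/-- The value of the forms on an instance (`DS.form_inst`). -/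
theorem forms_inst (h : 3 * m ≤ n) (F : Fin q → Form n) (L Y Q : ℕ)
    (dg : E m → Fin k → Fin b) (lam : Lam m k b Z M N) (τ : E m → ℤ) :
    (fun i => (F i).val (instOf h (wg L Y Q dg lam τ))) =
      fv (fun i => (F i).cst) (gv h F) (fun e => (vl L Y Q dg lam τ e : ℝ)) := by
  funext i
  exact Pool.Agent.Helper21.DS.form_inst h (F i).cst (F i).coef L Y Q dg lam τ

/-- As `DS.ans_base`. -/
theorem ans_base {s L Y Q : ℕ} (hs : 1 ≤ s) (hL : 16 * s * (N + 1) ≤ L)
    (hY : 16 * s * M ≤ Y) (hQ : 24 * q.factorial * m ^ 2 * (L * Y ^ k) ≤ Q) (h : 3 * m ≤ n)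
    (dg : E m → Fin k → Fin b) (lam : Lam m k b Z M N) (qu : PolyQ n q d)
    (hG : GoodQ h s L Y Q dg lam qu) :
    (polyFam n q d).ans qu (instOf h (wg L Y Q dg lam (tinyN lam.2.2))) =
      iansw h s L Y Q dg lam qu := by
  classical
  cases qu with
  | sign g hg F =>
    obtain ⟨h1, h2, h3⟩ := hG
    have h4 := sign_eq hs hL hY hQ g (fun i => (F i).cst) (gv h F) dg lam (tinyN lam.2.2)
      (Or.inl rfl) (Pool.Agent.Helper21.DS.run0_tinyN _) (Pool.Agent.Helper21.DS.run0_tinyN _)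
      (fun e he => absurd rfl he) h2 h3
    unfold polyFam iansw
    simp only
    rw [forms_inst, h4, if_pos h1]
  | zero f hf =>
    unfold polyFam iansw
    simp only
    rw [Pool.Agent.Helper21.DS.poly_inst]
    by_cases h1 : ∀ y, pev h f y = 0
    · rw [if_pos (h1 _), if_pos h1]
    · rw [if_neg h1]
      have h2 : ∃ y, pev h f y ≠ 0 := by
        by_contra h3
        exact h1 fun y => by
          by_contra h4
          exact h3 ⟨y, h4⟩
      rw [if_neg (hG h2).1]

/-- As `DS.ans_plant`. -/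
theorem ans_plant {s L Y Q : ℕ} (hs : 1 ≤ s) (hL : 16 * s * (N + 1) ≤ L)
    (hY : 16 * s * M ≤ Y) (hQ : 24 * q.factorial * m ^ 2 * (L * Y ^ k) ≤ Q) (h : 3 * m ≤ n)
    (dg : E m → Fin k → Fin b) (lam : Lam m k b Z M N) (qu : PolyQ n q d)
    (hG : GoodQ h s L Y Q dg lam qu) (i j l : Fin m) (h0 : (lam.1 (0, i, j)).1 = false)
    (h1 : (lam.1 (1, j, l)).1 = false) (hd : dg (1, j, l) = dg (0, i, j))
    (hr : (0, i, j) ∉ mt (SQ h s lam.1 qu) dg k) :
    (polyFam n q d).ans qu (instOf h (wg L Y Q dg lam (tinyQ lam.2.2 (0, i, j) (1, j, l)))) =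
      iansw h s L Y Q dg lam qu := by
  classical
  cases qu with
  | sign g hg F =>
    obtain ⟨h2, h3, h3'⟩ := hG
    unfold SQ at hr
    simp only at hr
    rw [if_pos h2] at hr
    have h4 := sign_eq hs hL hY hQ g (fun i => (F i).cst) (gv h F) dg lam
      (tinyQ lam.2.2 (0, i, j) (1, j, l)) (Or.inr ⟨i, j, l, rfl⟩)
      (Pool.Agent.Helper21.DS.run0_tinyN _) (Pool.Agent.Helper21.DS.run0_tinyQ _ _ _)
      (fun e he => by
        have h5 : e = (0, i, j) := by
          by_contra h6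
          refine he ?_
          unfold tinyQ
          rw [if_neg h6]
        rw [h5]
        exact ⟨h0, hr⟩) h3 h3'
    unfold polyFam iansw
    simp only
    rw [forms_inst, h4, if_pos h2]
  | zero f hf =>
    unfold polyFam iansw
    simp only
    rw [Pool.Agent.Helper21.DS.poly_inst]
    by_cases h2 : ∀ y, pev h f y = 0
    · rw [if_pos (h2 _), if_pos h2]
    · rw [if_neg h2]
      have h3 : ∃ y, pev h f y ≠ 0 := by
        by_contra h4
        exact h2 fun y => by
          by_contra h5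
          exact h4 ⟨y, h5⟩
      have h4 : ((0, i, j), (1, j, l)) ∉ covp h f := by
        intro h5
        refine hr ?_
        have h6 : (0, i, j) ∈ cove h f :=
          Finset.mem_union_left _ (Finset.mem_image_of_mem Prod.fst h5)
        have h7 : (1, j, l) ∈ cove h f :=
          Finset.mem_union_right _ (Finset.mem_image_of_mem Prod.snd h5)
        show (0, i, j) ∈ mt (cove h f) dg k
        unfold Pool.Agent.Helper21.DS.mt
        rw [Finset.mem_filter]
        refine ⟨h6, Or.inr ⟨(1, j, l), h7, ?_, ?_⟩⟩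
        · intro h8
          have h9 : (1 : Fin 3) = 0 := congrArg Prod.fst h8
          exact absurd h9 (by decide)
        · rw [hd]
      rw [Pool.Agent.Helper21.DS.run0_vl L Y Q dg lam i j l h0 h1 hd, if_neg ((hG h3).2 i j l h4)]

/-- As `DS.output_plant`. -/
theorem output_plant {s L Y Q : ℕ} (hs : 1 ≤ s) (hL : 16 * s * (N + 1) ≤ L)
    (hY : 16 * s * M ≤ Y) (hQ : 24 * q.factorial * m ^ 2 * (L * Y ^ k) ≤ Q) (h : 3 * m ≤ n)
    (A : Alg n D W R (PolyQ n q d) SignType) (ρ : Fin R → Bool)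
    (ω : (E m → Fin k → Fin b) × Lam m k b Z M N) (hω : ω ∉ BadAll A h s L Y Q ρ)
    (i j l : Fin m) (h0 : (ω.2.1 (0, i, j)).1 = false)
    (h1 : (ω.2.1 (1, j, l)).1 = false) (hd : ω.1 (1, j, l) = ω.1 (0, i, j))
    (hne : A.output (polyFam n q d) (instOf h (wg L Y Q ω.1 ω.2 (tinyN ω.2.2.2))) ρ ≠
      A.output (polyFam n q d)
        (instOf h (wg L Y Q ω.1 ω.2 (tinyQ ω.2.2.2 (0, i, j) (1, j, l)))) ρ) :
    (0, i, j) ∈ (procP A h s L Y Q ω.2 ρ).rev ω.1 0 (A.init (flagOf h) ρ) D k := by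
  classical
  by_contra hcon
  apply hne
  have hgood : ∀ t < D, ∀ v : Fin W,
      GoodQ h s L Y Q ω.1 ω.2 (A.ask (flagOf h) ρ t v) := by
    intro t ht v
    by_contra hb
    exact hω (mem_filter.2 ⟨mem_univ _, t, ht, v, hb⟩)
  have hrev : ∀ t < D, ((0, i, j) : E m) ∉ mt (SQ h s ω.2.1 (A.ask (flagOf h) ρ t
      ((procP A h s L Y Q ω.2 ρ).st ω.1 0 (A.init (flagOf h) ρ) t))) ω.1 k := by
    intro t ht hmem
    apply hcon
    rw [Pool.Agent.Helper21.DS.mem_rev]
    refine ⟨t, ht, ?_⟩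
    rw [Nat.zero_add]
    exact hmem
  have hstep : ∀ tiny : E m → ℤ, (∀ t < D,
      (polyFam n q d).ans (A.ask (flagOf h) ρ t
        ((procP A h s L Y Q ω.2 ρ).st ω.1 0 (A.init (flagOf h) ρ) t))
          (instOf h (wg L Y Q ω.1 ω.2 tiny)) =
        iansw h s L Y Q ω.1 ω.2 (A.ask (flagOf h) ρ t
          ((procP A h s L Y Q ω.2 ρ).st ω.1 0 (A.init (flagOf h) ρ) t))) →
      ∀ t ≤ D, A.state (polyFam n q d) (instOf h (wg L Y Q ω.1 ω.2 tiny)) ρ t =
        (procP A h s L Y Q ω.2 ρ).st ω.1 0 (A.init (flagOf h) ρ) t := by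
    intro tiny hans t
    induction t with
    | zero => intro _; rfl
    | succ t ih =>
      intro ht
      have ih' := ih (by omega)
      have h2 := hans t (by omega)
      rw [Pool.Agent.Helper21.DS.st_succ, Nat.zero_add]
      show A.next (flagOf h) ρ t _ ((polyFam n q d).ans (A.ask (flagOf h) ρ t
        (A.state (polyFam n q d) (instOf h (wg L Y Q ω.1 ω.2 tiny)) ρ t)) _) =
        A.next (flagOf h) ρ t _ (iansw h s L Y Q ω.1 ω.2 (A.ask (flagOf h) ρ t _))
      rw [ih', h2]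
  have e1 := hstep (tinyN ω.2.2.2) (fun t ht => ans_base hs hL hY hQ h ω.1 ω.2 _
    (hgood t ht _)) D le_rfl
  have e2 := hstep (tinyQ ω.2.2.2 (0, i, j) (1, j, l)) (fun t ht => ans_plant hs hL hY hQ h
    ω.1 ω.2 _ (hgood t ht _) i j l h0 h1 hd (hrev t ht)) D le_rfl
  show A.out (flagOf h) ρ _ = A.out (flagOf h) ρ _
  rw [e1, e2]

end Pool.Agent.Helper21.DP
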