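import Pool.Agent.Helper21.DP.Defs
import Pool.Agent.Helper21.DS.Sign

/-!
# From the ideal values to the full values of the elements looked at
-/

set_option autoImplicit false

namespace Pool.Agent.Helper21.DP

open Finset
open Pool.Agent.Helper22.ETModel Pool.Agent.Helper22.TSModel Pool.Agent.Helper22.EP
open Pool.Agent.Helper23.SP (pre sg)
open Pool.Agent.Helper8.ZT
open Pool.Agent.Helper21.DS (mt putd DProc Lam strc vl wg gam rp vid cove)

variable {m n q k b Z M N d : ℕ} [NeZero b]

/-- The ideal values. -/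
theorem fv_empty (L Y Q : ℕ) (c : Fin q → ℝ) (γ : E m → Fin q → ℝ) (S : Finset (E m))
    (dg : E m → Fin k → Fin b) (lam : Lam m k b Z M N) (τ : E m → ℤ) :
    fv c γ (xv L Y Q S ∅ dg lam τ) = iv L Y Q c γ S dg lam := by
  funext i
  unfold fv iv vid xv
  simp

private lemma SignA_fv_one (c : Fin q → ℝ) (γ : E m → Fin q → ℝ) (X X' : E m → ℝ) (e : E m)
    (h : ∀ e', e' ≠ e → X' e' = X e') (j : Fin q) :
    fv c γ X' j = fv c γ X j + γ e j * (X' e - X e) := by
  have h1 : (∑ e', γ e' j * X' e') - ∑ e', γ e' j * X e' = γ e j * (X' e - X e) := by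
    rw [← sum_sub_distrib, sum_eq_single e]
    · ring
    · intro e' _ he'
      rw [h e' he', sub_self]
    · intro hne
      exact absurd (mem_univ e) hne
  unfold fv
  linarith

private lemma SignA_xv_mem (L Y Q : ℕ) (S T : Finset (E m))
    (dg : E m → Fin k → Fin b) (lam : Lam m k b Z M N) (τ : E m → ℤ) (e : E m)
    (he : e ∈ T) (hz : (lam.1 e).1 = false) :
    xv L Y Q S T dg lam τ e = (vl L Y Q dg lam τ e : ℝ) := by
  unfold xv
  rw [if_neg (by rw [hz]; simp), if_pos he]

private lemma SignA_xv_not (L Y Q : ℕ) (S T : Finset (E m))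
    (dg : E m → Fin k → Fin b) (lam : Lam m k b Z M N) (τ : E m → ℤ) (e : E m)
    (he : e ∈ S) (heT : e ∉ T) (hz : (lam.1 e).1 = false) :
    xv L Y Q S T dg lam τ e = (rp L Y S dg lam e : ℝ) := by
  unfold xv
  rw [if_neg (by rw [hz]; simp), if_neg heT, if_pos he]

/-- One element more gets its full value. -/
theorem fv_insert (L Y Q : ℕ) (c : Fin q → ℝ) (γ : E m → Fin q → ℝ) (S T : Finset (E m))
    (dg : E m → Fin k → Fin b) (lam : Lam m k b Z M N) (τ : E m → ℤ) (e : E m) (he : e ∈ S)
    (heT : e ∉ T) (hz : (lam.1 e).1 = false) (j : Fin q) :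
    fv c γ (xv L Y Q S (insert e T) dg lam τ) j = fv c γ (xv L Y Q S T dg lam τ) j +
      γ e j * ((vl L Y Q dg lam τ e : ℝ) - (rp L Y S dg lam e : ℝ)) := by
  rw [SignA_fv_one c γ (xv L Y Q S T dg lam τ) (xv L Y Q S (insert e T) dg lam τ) e ?_ j,
    SignA_xv_mem L Y Q S (insert e T) dg lam τ e (mem_insert_self e T) hz,
    SignA_xv_not L Y Q S T dg lam τ e he heT hz]
  intro e' he'
  unfold xv
  simp only [mem_insert, he', false_or]

private lemma SignA_eta {s : ℕ} (hs : 1 ≤ s) {D δ : ℝ} (hD : 0 ≤ D) (h : 8 * (s : ℝ) * |δ| ≤ D) :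
    ∃ η : ℝ, |η| ≤ 1 / 2 ∧ η * D = δ := by
  have hs' : (1 : ℝ) ≤ s := by exact_mod_cast hs
  have hδ := abs_nonneg δ
  rcases hD.eq_or_lt with h0 | h0
  · refine ⟨0, by norm_num, ?_⟩
    have h1 : |δ| ≤ 0 := by
      rw [← h0] at h
      nlinarith
    rw [zero_mul, abs_nonpos_iff.1 h1]
  · refine ⟨δ / D, ?_, div_mul_cancel₀ _ h0.ne'⟩
    rw [abs_div, abs_of_pos h0, div_le_iff₀ h0]
    nlinarith

private lemma SignA_rest {s L Y Q : ℕ} (hs : 1 ≤ s) (hL : 16 * s * (N + 1) ≤ L)
    (hY : 16 * s * M ≤ Y) (S : Finset (E m)) (dg : E m → Fin k → Fin b)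
    (lam : Lam m k b Z M N) (τ : E m → ℤ) (ht : ∀ e, |τ e| ≤ 2 * (N : ℤ) + 1) (e : E m)
    (hz : (lam.1 e).1 = false) (i : Fin k) (h1 : e ∈ mt S dg i.val)
    (h2 : e ∉ mt S dg (i.val + 1)) :
    ∃ η : ℝ, |η| ≤ 1 / 2 ∧ η * ((L : ℝ) * (Y : ℝ) ^ (k - 1 - i.val)) =
      (vl L Y Q dg lam τ e : ℝ) - (rp L Y S dg lam e : ℝ) := by
  have h3 := Pool.Agent.Helper21.DS.rest_le (Q := Q) hs hL hY dg lam τ ht S e hz i h1 h2
  have h4 : 8 * (s : ℝ) * |(vl L Y Q dg lam τ e : ℝ) - (rp L Y S dg lam e : ℝ)| ≤
      (L : ℝ) * (Y : ℝ) ^ (k - 1 - i.val) := by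
    have := (Int.cast_le (R := ℝ)).2 h3
    push_cast at this
    exact this
  exact SignA_eta hs (by positivity) h4

/-- First part of the path. Induction: for all `x` the sign at
`T = S.filter (fun e => idx e < x)` is the sign at `∅`; `idx` is injective, so at most one element
is added. If it is in `mt S dg k` nothing changes (`DS.rest_zero`); otherwise it is lost on some
level (`DS.exists_level`), and `DS.rest_le` shows that its value moves by at most half a unit. -/
theorem sign_path1 {s L Y Q : ℕ} (hs : 1 ≤ s) (hL : 16 * s * (N + 1) ≤ L)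
    (hY : 16 * s * M ≤ Y) (g : MvPolynomial (Fin q) ℝ) (c : Fin q → ℝ) (γ : E m → Fin q → ℝ)
    (S : Finset (E m)) (dg : E m → Fin k → Fin b) (lam : Lam m k b Z M N)
    (hz : ∀ e ∈ S, (lam.1 e).1 = false)
    (ht : ∀ e, |tinyN lam.2.2 e| ≤ 2 * (N : ℤ) + 1)
    (h1 : Good1 L Y Q g c γ S dg lam) :
    sgn g (fv c γ (xv L Y Q S S dg lam (tinyN lam.2.2))) = sgn g (iv L Y Q c γ S dg lam) := by
  classical
  rw [← fv_empty L Y Q c γ S dg lam (tinyN lam.2.2)]
  have key : ∀ x : ℕ,
      sgn g (fv c γ (xv L Y Q S (S.filter fun e => idx e < x) dg lam (tinyN lam.2.2))) =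
        sgn g (fv c γ (xv L Y Q S ∅ dg lam (tinyN lam.2.2))) := by
    intro x
    induction x with
    | zero =>
      have h0 : (S.filter fun e => idx e < 0) = ∅ := by
        rw [filter_eq_empty_iff]
        intro e _
        exact Nat.not_lt_zero _
      rw [h0]
    | succ x ih =>
      by_cases hex : ∃ e ∈ S, idx e = x
      · obtain ⟨e, he, hx⟩ := hex
        have hT : (S.filter fun e' => idx e' < x + 1) =
            insert e (S.filter fun e' => idx e' < idx e) := by
          ext e'
          rw [mem_insert, mem_filter, mem_filter, hx]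
          constructor
          · rintro ⟨h2, h3⟩
            rcases Nat.lt_succ_iff_lt_or_eq.1 h3 with h4 | h4
            · exact Or.inr ⟨h2, h4⟩
            · left
              have h5 : idx e' = idx e := h4.trans hx.symm
              unfold idx at h5
              exact (Fintype.equivFin (E m)).injective (Fin.ext h5)
          · rintro (h2 | ⟨h2, h3⟩)
            · subst h2
              exact ⟨he, by omega⟩
            · exact ⟨h2, by omega⟩
        have heT : e ∉ S.filter fun e' => idx e' < idx e := by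
          rw [mem_filter]
          intro h2
          exact lt_irrefl _ h2.2
        have h2 : ∀ j, fv c γ (xv L Y Q S (insert e (S.filter fun e' => idx e' < idx e)) dg lam
            (tinyN lam.2.2)) j = fv c γ (xv L Y Q S (S.filter fun e' => idx e' < idx e) dg lam
            (tinyN lam.2.2)) j +
            γ e j * ((vl L Y Q dg lam (tinyN lam.2.2) e : ℝ) - (rp L Y S dg lam e : ℝ)) :=
          fun j => fv_insert L Y Q c γ S _ dg lam _ e he heT (hz e he) j
        rw [hT, ← ih, ← hx]
        by_cases hk : e ∈ mt S dg k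
        · have h3 := Pool.Agent.Helper21.DS.rest_zero L Y Q dg lam (tinyN lam.2.2) S e (hz e he)
            hk rfl
          congr 1
          funext j
          rw [h2 j, h3, sub_self, mul_zero, add_zero]
        · obtain ⟨i, hi1, hi2⟩ := Pool.Agent.Helper21.DS.exists_level he hk
          obtain ⟨η, hη, hη'⟩ := SignA_rest (Q := Q) hs hL hY S dg lam (tinyN lam.2.2) ht e
            (hz e he) i hi1 hi2
          have h3 := h1 e he i hi1 hi2 (S.filter fun e' => idx e' < idx e) (Or.inl rfl) η hη
          rw [← h3]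
          congr 1
          funext j
          rw [h2 j, hη', mul_comm (γ e j)]
      · have hT : (S.filter fun e' => idx e' < x + 1) = S.filter fun e' => idx e' < x := by
          refine filter_congr fun e' he' => ?_
          constructor
          · intro h3
            rcases Nat.lt_succ_iff_lt_or_eq.1 h3 with h4 | h4
            · exact h4
            · exact absurd ⟨e', he', h4⟩ hex
          · intro h3
            omega
        rw [hT, ih]
  have hall : (S.filter fun e => idx e < Fintype.card (E m)) = S := by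
    rw [filter_eq_self]
    intro e _
    exact (Fintype.equivFin (E m) e).isLt
  have := key (Fintype.card (E m))
  rw [hall] at this
  exact this

private lemma SignA_vl_congr (L Y Q : ℕ) (dg : E m → Fin k → Fin b)
    (lam : Lam m k b Z M N) (τ τ' : E m → ℤ) (e : E m) (h : τ e = τ' e) :
    vl L Y Q dg lam τ e = vl L Y Q dg lam τ' e := by
  unfold vl
  rw [h]

/-- A change of the last digit of one element that is not revealed on level `k` does not change
the sign: compare both with `T = S.erase e0` (if `e0 ∈ S`; otherwise nothing changes). -/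
theorem sign_swap {s L Y Q : ℕ} (hs : 1 ≤ s) (hL : 16 * s * (N + 1) ≤ L)
    (hY : 16 * s * M ≤ Y) (g : MvPolynomial (Fin q) ℝ) (c : Fin q → ℝ) (γ : E m → Fin q → ℝ)
    (S : Finset (E m)) (dg : E m → Fin k → Fin b) (lam : Lam m k b Z M N)
    (hz : ∀ e ∈ S, (lam.1 e).1 = false) (τ : E m → ℤ)
    (ht : ∀ e, |tinyN lam.2.2 e| ≤ 2 * (N : ℤ) + 1) (ht2 : ∀ e, |τ e| ≤ 2 * (N : ℤ) + 1)
    (e0 : E m) (h0 : ∀ e, e ≠ e0 → τ e = tinyN lam.2.2 e)
    (h0' : τ e0 ≠ tinyN lam.2.2 e0 → e0 ∉ mt S dg k)
    (h1 : Good1 L Y Q g c γ S dg lam) :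
    sgn g (fv c γ (xv L Y Q S S dg lam τ)) =
      sgn g (fv c γ (xv L Y Q S S dg lam (tinyN lam.2.2))) := by
  classical
  by_cases he0 : e0 ∈ S
  · by_cases hk : e0 ∈ mt S dg k
    · have hτ : τ = tinyN lam.2.2 := by
        funext e
        by_cases he : e = e0
        · subst he
          by_contra hne
          exact h0' hne hk
        · exact h0 e he
      rw [hτ]
    · obtain ⟨i, hi1, hi2⟩ := Pool.Agent.Helper21.DS.exists_level he0 hk
      have key : ∀ τ' : E m → ℤ, (∀ e, |τ' e| ≤ 2 * (N : ℤ) + 1) →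
          (∀ e, e ≠ e0 → τ' e = tinyN lam.2.2 e) →
          sgn g (fv c γ (xv L Y Q S S dg lam τ')) =
            sgn g (fv c γ (xv L Y Q S (S.erase e0) dg lam (tinyN lam.2.2))) := by
        intro τ' ht' hτ'
        obtain ⟨η, hη, hη'⟩ := SignA_rest (Q := Q) hs hL hY S dg lam τ' ht' e0
          (hz e0 he0) i hi1 hi2
        have h3 := h1 e0 he0 i hi1 hi2 (S.erase e0) (Or.inr rfl) η hη
        rw [← h3]
        congr 1
        funext j
        rw [SignA_fv_one c γ (xv L Y Q S (S.erase e0) dg lam (tinyN lam.2.2))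
          (xv L Y Q S S dg lam τ') e0 ?_ j,
          SignA_xv_mem L Y Q S S dg lam τ' e0 he0 (hz e0 he0),
          SignA_xv_not L Y Q S (S.erase e0) dg lam _ e0 he0 (notMem_erase e0 S) (hz e0 he0),
          hη', mul_comm (γ e0 j)]
        intro e' he'
        unfold xv
        simp only [mem_erase, ne_eq, he', not_false_eq_true, true_and]
        rw [SignA_vl_congr L Y Q dg lam τ' (tinyN lam.2.2) e' (hτ' e' he')]
      rw [key τ ht2 h0, key (tinyN lam.2.2) ht fun _ _ => rfl]
  · congr 1
    unfold fv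
    funext j
    congr 1
    refine sum_congr rfl fun e _ => ?_
    congr 1
    unfold xv
    by_cases he : e ∈ S
    · have hne : e ≠ e0 := by
        intro h
        rw [h] at he
        exact he0 he
      rw [SignA_vl_congr L Y Q dg lam τ (tinyN lam.2.2) e (h0 e hne)]
    · simp only [he, if_false]

end Pool.Agent.Helper21.DP
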