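import Pool.Agent.Helper21.DP.SignA

/-!
# The sign is the ideal sign
-/

set_option autoImplicit false

namespace Pool.Agent.Helper21.DP

open Finset
open Pool.Agent.Helper22.ETModel Pool.Agent.Helper22.TSModel Pool.Agent.Helper22.EP
open Pool.Agent.Helper23.SP (pre sg)
open Pool.Agent.Helper8.ZT
open Pool.Agent.Helper21.DS (mt putd DProc Lam strc vl wg gam rp vid cove)

variable {m n q k b Z M N d : ℕ} [NeZero b]

/-- The weight of a pivot: `|zt| ≤ 3 m ^ 2 q ! L Y ^ k ≤ Q / 2`. -/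
theorem zt_le {s L Y Q : ℕ} (hs : 1 ≤ s) (hL : 16 * s * (N + 1) ≤ L)
    (hY : 16 * s * M ≤ Y) (hQ : 24 * q.factorial * m ^ 2 * (L * Y ^ k) ≤ Q)
    (γ : E m → Fin q → ℝ) (dg : E m → Fin k → Fin b) (lam : Lam m k b Z M N) (τ : E m → ℤ)
    (ht : ∀ e, |τ e| ≤ 2 * (N : ℤ) + 1) (p : E m) :
    |zt γ (mk lam.1) (fun e => (vl L Y Q dg lam τ e : ℝ)) p| ≤ (Q : ℝ) / 2 := by
  sorry

/-- At the end of the path are the real values (`cf_sum`; exchange the sums). For a deleted element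
the last digit must not be changed. -/
theorem vp_full (L Y Q : ℕ) (c : Fin q → ℝ) (γ : E m → Fin q → ℝ) (dg : E m → Fin k → Fin b)
    (lam : Lam m k b Z M N) (τ : E m → ℤ)
    (ht : ∀ e, (lam.1 e).1 = true → τ e = tinyN lam.2.2 e) :
    vp L Y Q c γ dg lam τ (piv γ (mk lam.1)) =
      fv c γ (fun e => (vl L Y Q dg lam τ e : ℝ)) := by
  sorry

/-- Second part of the path: induction over `P = (piv ..).filter (fun p => idx p < x)`. -/
theorem sign_path2 {s L Y Q : ℕ} (hs : 1 ≤ s) (hL : 16 * s * (N + 1) ≤ L)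
    (hY : 16 * s * M ≤ Y) (hQ : 24 * q.factorial * m ^ 2 * (L * Y ^ k) ≤ Q)
    (g : MvPolynomial (Fin q) ℝ) (c : Fin q → ℝ) (γ : E m → Fin q → ℝ)
    (dg : E m → Fin k → Fin b) (lam : Lam m k b Z M N) (τ : E m → ℤ) (hT : isT lam.2.2 τ)
    (ht : ∀ e, |τ e| ≤ 2 * (N : ℤ) + 1) (h2 : Good2 L Y Q g c γ dg lam) :
    sgn g (vp L Y Q c γ dg lam τ (piv γ (mk lam.1))) =
      sgn g (fv c γ (xv L Y Q (look γ (mk lam.1)) (look γ (mk lam.1)) dg lam τ)) := by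
  sorry

/-- The sign is the ideal sign: `vp_full`, `sign_path2`, `sign_swap`, `sign_path1`, `fv_empty`. -/
theorem sign_eq {s L Y Q : ℕ} (hs : 1 ≤ s) (hL : 16 * s * (N + 1) ≤ L)
    (hY : 16 * s * M ≤ Y) (hQ : 24 * q.factorial * m ^ 2 * (L * Y ^ k) ≤ Q)
    (g : MvPolynomial (Fin q) ℝ) (c : Fin q → ℝ) (γ : E m → Fin q → ℝ)
    (dg : E m → Fin k → Fin b) (lam : Lam m k b Z M N) (τ : E m → ℤ) (hT : isT lam.2.2 τ)
    (ht0 : ∀ e, |tinyN lam.2.2 e| ≤ 2 * (N : ℤ) + 1) (ht : ∀ e, |τ e| ≤ 2 * (N : ℤ) + 1)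
    (ht' : ∀ e, τ e ≠ tinyN lam.2.2 e →
      (lam.1 e).1 = false ∧ e ∉ mt (look γ (mk lam.1)) dg k)
    (h1 : Good1 L Y Q g c γ (look γ (mk lam.1)) dg lam) (h2 : Good2 L Y Q g c γ dg lam) :
    sgn g (fv c γ fun e => (vl L Y Q dg lam τ e : ℝ)) =
      sgn g (iv L Y Q c γ (look γ (mk lam.1)) dg lam) := by
  sorry

end Pool.Agent.Helper21.DP
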