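import Pool.Agent.Helper21.DP.Run
import Pool.Agent.Helper21.DP.Bad
import Pool.Agent.Helper21.DS.Trans

/-!
# The average number of revealed elements
-/

set_option autoImplicit false

namespace Pool.Agent.Helper21.DP

open Finset
open Pool.Agent.Helper22.ETModel Pool.Agent.Helper22.TSModel Pool.Agent.Helper22.EP
open Pool.Agent.Helper23.SP (pre sg)
open Pool.Agent.Helper8.ZT
open Pool.Agent.Helper21.DS (mt putd DProc Lam strc vl wg gam rp vid cove)

variable {m n q k b Z M N d D W R : ℕ} [NeZero b]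

open Classical in
/-- The revealed elements of type `0`. -/
noncomputable def rvP (A : Alg n D W R (PolyQ n q d) SignType) (h : 3 * m ≤ n) (s L Y Q : ℕ)
    (ω : (E m → Fin k → Fin b) × Lam m k b Z M N) (ρ : Fin R → Bool) : Finset (Fin m × Fin m) :=
  univ.filter (fun p => ((0, p.1, p.2) : E m) ∈
    (procP A h s L Y Q ω.2 ρ).rev ω.1 0 (A.init (flagOf h) ρ) D k)

lemma rvP_card_le (A : Alg n D W R (PolyQ n q d) SignType) (h : 3 * m ≤ n) (s L Y Q : ℕ)
    (ω : (E m → Fin k → Fin b) × Lam m k b Z M N) (ρ : Fin R → Bool) :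
    (rvP A h s L Y Q ω ρ).card ≤
      ((procP A h s L Y Q ω.2 ρ).rev ω.1 0 (A.init (flagOf h) ρ) D k).card := by
  classical
  apply card_le_card_of_injOn (fun p => ((0, p.1, p.2) : E m))
  · intro p hp
    rw [mem_coe, rvP, mem_filter] at hp
    exact hp.2
  · intro p _ p' _ hpp
    simp only [Prod.mk.injEq, true_and] at hpp
    exact Prod.ext hpp.1 hpp.2

lemma rvP_card_le' (A : Alg n D W R (PolyQ n q d) SignType) (h : 3 * m ≤ n) (s L Y Q : ℕ)
    (ω : (E m → Fin k → Fin b) × Lam m k b Z M N) (ρ : Fin R → Bool) :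
    (rvP A h s L Y Q ω ρ).card ≤ m ^ 2 := by
  classical
  refine (card_le_univ _).trans ?_
  rw [Fintype.card_prod, Fintype.card_fin, sq]

/-- The element `(0, i, j)` has a mate and both are not deleted. -/
private def transferP_Mt (m k b Z M N : ℕ) (p : Fin m × Fin m)
    (ω : (E m → Fin k → Fin b) × Lam m k b Z M N) : Prop :=
  (ω.2.1 (0, p.1, p.2)).1 = false ∧ ∃ l : Fin m, (ω.2.1 (1, p.2, l)).1 = false ∧
    ω.1 (1, p.2, l) = ω.1 (0, p.1, p.2)

open Classical in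
/-- A mate. -/
private noncomputable def transferP_L (p : Fin m × Fin m)
    (ω : (E m → Fin k → Fin b) × Lam m k b Z M N) : Fin m :=
  if hM : transferP_Mt m k b Z M N p ω then Classical.choose hM.2 else p.1

omit [NeZero b] in
private theorem transferP_spec {p : Fin m × Fin m}
    {ω : (E m → Fin k → Fin b) × Lam m k b Z M N} (hM : transferP_Mt m k b Z M N p ω) :
    (ω.2.1 (1, p.2, transferP_L p ω)).1 = false ∧
      ω.1 (1, p.2, transferP_L p ω) = ω.1 (0, p.1, p.2) := by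
  unfold transferP_L
  rw [dif_pos hM]
  exact Classical.choose_spec hM.2

/-- As `DS.transferD` (`DS/Trans.lean`; use `DS.averaging`, `DS.inst_valid`, `DS.base_no`,
`DS.plant_yes`, `DS.mate_prob`; copy the private definitions `trMt`, `trL`). -/
theorem transferP (h : 3 * m ≤ n) (hm : 1 ≤ m) {NQ J s L Y Q : ℕ} (hs : 1 ≤ s)
    (hb : 2 * b ^ k ≤ m) (hL : 16 * s * (N + 1) ≤ L) (hY : 16 * s * M ≤ Y)
    (hQ : 24 * q.factorial * m ^ 2 * (L * Y ^ k) ≤ Q) (hLe : Even L) (hQe : Even Q)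
    (hQZ : Q * Z ≤ n ^ 300) (hJ : q * J ≤ s)
    (h1 : 192 * NQ * (2 ^ q - 1) ^ J ≤ (2 ^ q) ^ J)
    (h2 : 192 * NQ * ((m ^ 3 + 1) * q * (2 * d)) ≤ Z)
    (h3 : 192 * NQ * (4 * s * d) ≤ M)
    (h4 : 192 * NQ * ((1 + m ^ 3) * (3 * m ^ 2 * d)) ≤ N + 1) (hZ : 1 ≤ Z) (hM : 1 ≤ M)
    (A : Alg n D W R (PolyQ n q d) SignType) (hP : HasPool A NQ)
    (hA : A.Decides (polyFam n q d)) :
    m ^ 2 * 2 ^ R * Fintype.card ((E m → Fin k → Fin b) × Lam m k b Z M N) ≤
      16 * ∑ ω : (E m → Fin k → Fin b) × Lam m k b Z M N, ∑ ρ : Fin R → Bool,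
        (rvP A h s L Y Q ω ρ).card := by
  classical
  have hQ' : 24 * m ^ 2 * (L * Y ^ k) ≤ Q := by
    refine le_trans ?_ hQ
    have h5 : 1 ≤ q.factorial := Nat.factorial_pos q
    calc 24 * m ^ 2 * (L * Y ^ k) = 1 * (24 * m ^ 2 * (L * Y ^ k)) := (one_mul _).symm
      _ ≤ q.factorial * (24 * m ^ 2 * (L * Y ^ k)) := Nat.mul_le_mul_right _ h5
      _ = _ := by ring
  have key := Pool.Agent.Helper21.DS.averaging
    (Ω := (E m → Fin k → Fin b) × Lam m k b Z M N) (R := Fin R → Bool)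
    (X := Fin m × Fin m)
    (fun ω ρ => A.output (polyFam n q d) (instOf h (wg L Y Q ω.1 ω.2 (tinyN ω.2.2.2))) ρ)
    (fun p ω ρ => A.output (polyFam n q d)
      (instOf h (wg L Y Q ω.1 ω.2 (tinyQ ω.2.2.2 (0, p.1, p.2) (1, p.2, transferP_L p ω)))) ρ)
    (fun p ω => transferP_Mt m k b Z M N p ω)
    (fun ω ρ => rvP A h s L Y Q ω ρ) (fun ρ => BadAll A h s L Y Q ρ) ?_ ?_ ?_ ?_ ?_
  · rw [Fintype.card_prod (Fin m) (Fin m), Fintype.card_fin, Fintype.card_fun, Fintype.card_bool,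
      Fintype.card_fin, ← sq] at key
    exact key
  · intro ω
    have g1 := hA (instOf h (wg L Y Q ω.1 ω.2 (tinyN ω.2.2.2)))
      (Pool.Agent.Helper21.DS.inst_valid hs hL hY hQ' hQZ hZ hm h ω.1 ω.2 _
        (Pool.Agent.Helper21.DS.run0_tinyN ω.2.2.2))
    rw [Fintype.card_fun, Fintype.card_bool, Fintype.card_fin]
    refine g1.trans (Nat.mul_le_mul_left _ (card_le_card ?_))
    intro ρ hρ
    rw [mem_filter] at hρ ⊢
    refine ⟨mem_univ _, ?_⟩
    have g2 := Pool.Agent.Helper21.DS.base_no h hLe hQe ω.1 ω.2 (Y := Y)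
    have g3 : ¬ (A.output (polyFam n q d)
        (instOf h (wg L Y Q ω.1 ω.2 (tinyN ω.2.2.2))) ρ = true) :=
      fun hh => g2 (hρ.2.1 hh)
    simpa using g3
  · rintro p ω hMt
    have g1 := hA (instOf h (wg L Y Q ω.1 ω.2
      (tinyQ ω.2.2.2 (0, p.1, p.2) (1, p.2, transferP_L p ω))))
      (Pool.Agent.Helper21.DS.inst_valid hs hL hY hQ' hQZ hZ hm h ω.1 ω.2 _
        (Pool.Agent.Helper21.DS.run0_tinyQ ω.2.2.2 _ _))
    rw [Fintype.card_fun, Fintype.card_bool, Fintype.card_fin]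
    refine g1.trans (Nat.mul_le_mul_left _ (card_le_card ?_))
    intro ρ hρ
    rw [mem_filter] at hρ ⊢
    obtain ⟨g4, g5⟩ := transferP_spec hMt
    exact ⟨mem_univ _, hρ.2.2 (Pool.Agent.Helper21.DS.plant_yes h L Y Q ω.1 ω.2 p.1 p.2
      (transferP_L p ω) hMt.1 g4 g5)⟩
  · rintro ⟨i, j⟩
    convert Pool.Agent.Helper21.DS.mate_prob (Z := Z) (M := M) (N := N) hb i j
    rfl
  · rintro ⟨i, j⟩ ω ρ hMt hB hne
    obtain ⟨g4, g5⟩ := transferP_spec hMt
    exact mem_filter.2 ⟨mem_univ _, output_plant hs hL hY hQ h A ρ ω hB i j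
      (transferP_L (i, j) ω) hMt.1 g4 g5 hne⟩
  · intro ρ
    exact badAll_card A h hP hJ h1 h2 h3 h4 hZ hM ρ

end Pool.Agent.Helper21.DP
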